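import Pool.Agent.BEX.F.Rvb

/-!
BEX/F: pairs of bridges of `T + 1` columns which satisfy Q1 against arcs which reach the last column.

PAPER PROOF. Let `W ∈ Arc T` (path `v_0 = o, v_1, ..., v_n` of the columns `0..T`, `F0 v_n = 0`, reaching the column `T`). Some vertex `z = v_j` has
`F0 z = 3 T + 1` (if `F0 v_j = 3 T` and `j ≥ 1`, the path came from the left or from a vertex of the column; one of the two neighbours of `v_j`
on the path is in the column `T` and has `F0 = 3 T + 1`, as `v_j` is not both: for `T ≥ 1` `v_j` is not an end; for `T = 0` `W ≠ []` and the second vertex has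
`F0 = 1`). Take the first such `j` (or any rule). Cut `W = W1 ++ b :: W2` with `z = E W1`; `W1 ∈ Br T`. `A = rvb W1` (path from `z` back to `o`, turned by 180
degrees about the middle of `o` and `z`: vertices `z - v_j, z - v_(j-1), ...`), `B = b' :: W2`, `b'` = the turn from `(-1, 0)` to the direction `tn b (Dr W1)`
(vertices `z - v_j, z - v_(j+1), ...` in the turned frame, `vs_left`). Both are in `Br T` (`F0 (z - v) = 3 T + 1 - F0 v`, the ends have `F0 = 0`), `Q1 A B` because `W`
is nodup, lengths: `A.length + B.length = W.length`, so `xE ^ (A.length + 1) * xE ^ (B.length + 1) = xE * xE ^ (W.length + 1)`. Injective: `(A, B)` determines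
the path up to translation and it starts at `o`. Use `ms_rel2`. (`rvb` for bridges: module `Rvb`; it may be imported.)
-/

namespace Pool.Agent.BEX.F

open Pool.Agent.Hhelper14.SAW Pool.Agent.HHP Pool.Agent.HEP Pool.Agent.BEX.C
open scoped ENNReal

/-- An arc which reaches the column `T` visits a vertex at the right border of this column. -/
private lemma arc_top {T : ℕ} {W : List Bool} (h : Arc T W) : ∃ z ∈ V W, F0 z = 3 * (T : ℤ) + 1 := by
  obtain ⟨hin, ⟨z, hz, hz1⟩, hE, hne⟩ := h
  rcases res_std hz with hr | hr
  · have hz2 := (hin.2 z hz).2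
    have hz3 : F0 z = 3 * (T : ℤ) := by omega
    rcases split_last (fun z => F0 z = 3 * (T : ℤ)) ⟨z, hz, hz3⟩ with h1 | ⟨W1, b, W2, rfl, h1, -⟩
    · have hT : (T : ℤ) = 0 := by omega
      obtain ⟨b, W', rfl⟩ := List.exists_cons_of_ne_nil hne
      refine ⟨(0, 0) + tn b (1, 0), ?_, ?_⟩
      · show _ ∈ vs (0, 0) (1, 0) (b :: W')
        rw [vs]
        exact List.mem_cons_of_mem _ (head_mem _ _ _)
      · rw [hT]
        cases b <;> simp [tn, L, R, F0]
    · rcases gd_std W1 with ⟨h2, h3 | h3 | h3⟩ | ⟨h2, -⟩
      · refine ⟨E W1 + tn b (Dr W1), ?_, ?_⟩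
        · rw [V_append]
          exact List.mem_append_right _ (head_mem _ _ _)
        · rw [F0_add, h1, h3]
          cases b <;> simp [tn, L, R, F0]
      pick_goal 3
      · have h1' : F0 (E W1) = 3 * (T : ℤ) := h1
        omega
      all_goals
        rcases List.eq_nil_or_concat W1 with rfl | ⟨P, c, rfl⟩
        · rw [Dr_nil] at h3
          exact absurd h3 (by decide)
        · rw [List.concat_eq_append] at *
          refine ⟨E P, ?_, ?_⟩
          · rw [V_append, V_append]
            exact List.mem_append_left _ (List.mem_append_left _ (E_mem P))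
          · have e2 : E (P ++ [c]) = E P + tn c (Dr P) := by rw [E_append]; rfl
            have e3 : Dr (P ++ [c]) = tn c (Dr P) := by rw [Dr_append]; rfl
            rw [e3] at h3
            rw [e2, F0_add, h3] at h1
            simp only [F0] at h1 ⊢
            omega
  · have hz2 := (hin.2 z hz).2
    exact ⟨z, hz, by omega⟩

theorem dn_ge (T : ℕ) : xE * ms xE (Arc T) ≤ DN (T + 1) := by
  have key : ms xE (Arc T) ≤ xE⁻¹ * DN (T + 1) := by
    unfold DN
    refine ms_rel2 (fun W A B => ∃ W1 b W2, W = W1 ++ b :: W2 ∧ A = rvb W1 ∧ B = (!b) :: W2 ∧ Br T W1) ?_ ?_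
    · intro W hW
      rcases split_last (fun z => F0 z = 3 * (T : ℤ) + 1) (arc_top hW) with h1 | ⟨W1, b, W2, rfl, h1, -⟩
      · have := hW.2.2.1
        omega
      · obtain ⟨⟨hN, hin⟩, -, hE, -⟩ := hW
        have h1' : F0 (E W1) = 3 * (T : ℤ) + 1 := h1
        rw [V_append] at hN hin
        rw [E_append] at hE
        obtain ⟨hN1, hN2, hN3⟩ := List.nodup_append.1 hN
        have hBr : Br T W1 := ⟨⟨hN1, fun z hz => hin z (List.mem_append_left _ hz)⟩, h1'⟩
        obtain ⟨hA1, hA2, hA3, hA4, hA5⟩ := rvb_br hBr
        have hnx := hin _ (List.mem_append_right _ (head_mem (E W1 + tn b (Dr W1)) (tn b (Dr W1)) W2))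
        rw [F0_add, h1'] at hnx
        have hdir : tn (!b) (1, 0) = -tn b (Dr W1) := by
          have h3 := hBr.not_hz
          rcases gd_std W1 with ⟨h2, -⟩ | ⟨-, h2 | h2 | h2⟩
          · omega
          · exact absurd (Or.inr h2) h3
          · rw [h2] at hnx ⊢
            cases b
            · simp [tn, L, R, F0] at hnx
            · decide
          · rw [h2] at hnx ⊢
            cases b
            · decide
            · simp [tn, L, R, F0] at hnx
        set e := tn b (Dr W1) with he
        have hVB : V ((!b) :: W2) = (E W1 :: vs (E W1 + e) e W2).map (fun v => E W1 - v) := by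
          show vs (0, 0) (1, 0) ((!b) :: W2) = _
          rw [vs, hdir, show ((0, 0) : ℤ × ℤ) + -e = -e from by ext <;> simp, vs_neg, vs_shift, List.map_cons,
            List.map_map]
          congr 1
          · ext <;> simp
          · refine List.map_congr_left fun v _ => ?_
            simp
        have hEB : E ((!b) :: W2) = E W1 - ep (E W1 + e) e W2 := by
          show ep (0, 0) (1, 0) ((!b) :: W2) = _
          rw [ep, hdir, show ((0, 0) : ℤ × ℤ) + -e = -e from by ext <;> simp, ep_neg, ep_shift]
          simp
        have hsub : ∀ v ∈ E W1 :: vs (E W1 + e) e W2, v ∈ V W1 ++ vs (E W1 + e) e W2 := by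
          intro v hv
          rcases List.mem_cons.1 hv with rfl | hv
          · exact List.mem_append_left _ (E_mem W1)
          · exact List.mem_append_right _ hv
        refine ⟨rvb W1, (!b) :: W2, ⟨?_, ?_, ?_⟩, ⟨W1, b, W2, rfl, rfl, rfl, hBr⟩, ?_⟩
        · exact hA1
        · refine ⟨⟨?_, ?_⟩, ?_⟩
          · show (V ((!b) :: W2)).Nodup
            rw [hVB]
            refine List.Nodup.map (fun x y h => by simpa using h) (List.nodup_cons.2 ⟨?_, hN2⟩)
            exact fun h => hN3 _ (E_mem W1) _ h rfl
          · intro z hz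
            change z ∈ V ((!b) :: W2) at hz
            rw [hVB] at hz
            obtain ⟨v, hv, rfl⟩ := List.mem_map.1 hz
            have := hin v (hsub v hv)
            rw [F0_sub, h1']
            push_cast
            omega
          · show F0 (E ((!b) :: W2)) = _
            rw [hEB, F0_sub, h1', hE]
            push_cast
            omega
        · intro z hz1 hz2
          have hz3 := (hA5 z).1 hz1
          change z ∈ V ((!b) :: W2) at hz2
          rw [hVB] at hz2
          obtain ⟨v, hv, rfl⟩ := List.mem_map.1 hz2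
          rw [sub_sub_cancel] at hz3
          rcases List.mem_cons.1 hv with rfl | hv
          · ext <;> simp
          · exact absurd rfl (hN3 _ hz3 _ hv)
        · rw [hA3]
          refine le_of_eq ?_
          have e1 : (W1 ++ b :: W2).length + 1 + 1 = (W1.length + 1) + (((!b) :: W2).length + 1) := by
            simp only [List.length_append, List.length_cons]
            ring
          rw [← pow_add, ← e1, pow_succ' _ ((W1 ++ b :: W2).length + 1), ← mul_assoc,
            ENNReal.inv_mul_cancel xE_ne.1 xE_ne.2, one_mul]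
    · rintro W W' A B - - - ⟨W1, b, W2, rfl, rfl, rfl, h1⟩ ⟨W1', b', W2', rfl, h2, h3, h4⟩
      have h5 : W1 = W1' := by
        rw [← (rvb_br h1).2.2.2.1, h2, (rvb_br h4).2.2.2.1]
      simp only [List.cons.injEq, Bool.not_inj_iff] at h3
      rw [h5, h3.1, h3.2]
  calc xE * ms xE (Arc T) ≤ xE * (xE⁻¹ * DN (T + 1)) := by gcongr
    _ = DN (T + 1) := by rw [← mul_assoc, ENNReal.mul_inv_cancel xE_ne.1 xE_ne.2, one_mul]

end Pool.Agent.BEX.F
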