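import Pool.Agent.HEP.GSys
import Pool.Agent.BEX.CDefs

/-!
Project BEX, part F (note 3059 of MP_8c6f77_pr): THE HALF-PLANE FORM OF Q1. DEFINITIONS.

Words, blocks and masses as in `HHP/Defs`, `HEP/GDef`, `HEP/GSys`. The walks start at `o = (0, 0)` in the column `0`.
`Q1 W W'` = the event of Q1 for two walks from `o`. `Sp N` = infinite critical bridge stopped at its first renewal level
`≥ N` (bridges of at least `N` columns without renewal level in `[N, number of columns)`), total mass `1`.
`PN N` = the probability `P_N`; `DN N` = mass of the pairs of bridges of exactly `N` columns. `StB`, `QB`, `PB`, `DB`: the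
same for lists of blocks (read from `o` outward, the blocks are not reversed).
-/

namespace Pool.Agent.BEX.F

open Pool.Agent.Hhelper14.SAW Pool.Agent.HHP Pool.Agent.HEP Pool.Agent.BEX.C
open scoped ENNReal

/-- The event of Q1: the only common vertex of the two walks is their start `o`. -/
def Q1 (W W' : List Bool) : Prop := ∀ z ∈ V W, z ∈ V W' → z = (0, 0)

/-- Bridges of at least `N` columns which have no renewal level in `[N, number of columns)`. -/
def Sp (N : ℕ) (W : List Bool) : Prop := ∃ k, Br k W ∧ N ≤ k + 1 ∧ ∀ i, N ≤ i → i ≤ k → ¬ Ren i W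

/-- The probability `P_N`. -/
noncomputable def PN (N : ℕ) : ℝ≥0∞ := ms2 xE (fun p => Sp N p.1 ∧ Sp N p.2 ∧ Q1 p.1 p.2)

/-- Pairs of bridges of exactly `N` columns (`N ≥ 1`). -/
noncomputable def DN (N : ℕ) : ℝ≥0∞ := ms2 xE (fun p => Br (N - 1) p.1 ∧ Br (N - 1) p.2 ∧ Q1 p.1 p.2)

/-- Lists of blocks whose height passes `N` with the last block. -/
def StB (N : ℕ) (l : List Blk) : Prop := N ≤ hj l ∧ hj l.dropLast < N

/-- The event of Q1 for lists of blocks. -/
def QB (l s : List Blk) : Prop := l = [] ∨ s = [] ∨ Q1 (jn l) (jn s)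

/-- `P_N` in blocks. -/
noncomputable def PB (N : ℕ) : ℝ≥0∞ := ∑' l : List Blk, ∑' s : List Blk, ind (StB N l ∧ StB N s ∧ QB l s) * (wj l * wj s)

/-- `D_N` in blocks. -/
noncomputable def DB (N : ℕ) : ℝ≥0∞ := ∑' l : List Blk, ∑' s : List Blk, ind (hj l = N ∧ hj s = N ∧ QB l s) * (wj l * wj s)

/-- Renewal masses `b 0 = 1`, `b (k + 1) = ms xE (Br k)` (`hs_b_zero`, `hs_b`; they do not depend on the parameter `1`). -/
noncomputable def bb (k : ℕ) : ℝ≥0∞ := (hs 1).b k

/-- The reversed bridge (path reversed, picture turned by 180 degrees). -/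
def rvb (W : List Bool) : List Bool := ((W ++ [rt W]).tail.reverse).map (! ·)

/-- Change of the first vertex: the walk from `o` which starts to the right becomes a walk from the neighbouring leg
`(1, -2)`, written in the frame of that leg. -/
def phi : List Bool → List Bool
  | false :: false :: true :: W => false :: W
  | false :: true :: W => true :: false :: W
  | [false] => [true]
  | W => W

end Pool.Agent.BEX.F
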