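import Pool.Agent.BEX.F.Defs
import Pool.Agent.BEX.CTz
import Pool.Agent.BEX.CRevG
import Pool.Agent.BEX.CWd

/-!
BEX/F: lateral exits of a strip. Uses part C: `tz_re` (identity of the trapezoid), `Gm_symm` (reversal in the wedge), `strip`.

PAPER PROOF. Let `sd T a b = ms xE (Tz T a b ∧ F1 (E W) = 3 a)` (right side). (1) `sd T a b` is nonincreasing in `a`: `tz_re T a b` and `tz_re T (a + 1) b`; the other
terms are nondecreasing in `a` (`ms_mono`, the domain increases; `cs ≠ 0, ∞`). (2) For `a' ≤ a`: `sd T a a ≤ sd T a' a ≤ ∑ s ≤ T, Gm a' s` (a word of `Tz T a' a` which ends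
with `F1 (E W) = 3 a'` ends in some column `s ≤ T`, with `F0 (E W) = 3 s` since `F0 + F1` is divisible by `3`). Sum over `a' ≤ a`, `Gm_symm`, and
`∑' a', Gm s a' ≤ Eg s`, `cs * Eg s ≤ 1`: `(a + 1) * (cs * sd T a a) ≤ T + 1`. (`cs * Eg s ≤ 1`: `tz_re` and monotone limit, or `tri`/`HA_le` of CWd; `Mt_eq`-type
statements are not needed.) By reflection (`HEP/GRefl`) the left side has the same mass: `side_le`.
(3) `strip_ge`: `tz_re T a a` and `side_le` for `a → ∞`: `1 ≤ b_T + sn * (arcs of the strip) + 2 (T + 1) / (a + 1)`. (4) `br_le_arc`: arcs of the strip `T` are arcs of the strip `T - 1` or in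
`Arc T`; `strip` (upper bound, `≤ 1`) for `T - 1` and `strip_ge` for `T`; all masses are finite (`sn * arcs ≤ 1`, `sn ≠ 0`).
(5) `long_le`: if `n + 1 ≤ 100 (T + 1) ^ 2` use `Br_one`. Otherwise let `a = (n + 1) / (8 (T + 1))`; the trapezoid `Tz T a a` has at most `2 (T + 1) (2 a + 1) < n + 1` vertices (column `j`: two
kinds, `F1` in `[3 j - 3 a, 3 a]` with fixed residue), so a word of `Br T` of length `≥ n` (it has `≥ n + 1` different vertices) leaves it; the bridges of the strip which leave it have mass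
`≤ cs * (sides) ≤ 2 (T + 1) / (a + 1)` by `tz_re` and `strip`, and `a + 1 ≥ (n + 1) / (8 (T + 1))`.
-/

namespace Pool.Agent.BEX.F

open Pool.Agent.Hhelper14.SAW Pool.Agent.HHP Pool.Agent.HEP Pool.Agent.BEX.C
open scoped ENNReal

/-- Side mass of the trapezoid. -/
private noncomputable def Strip_sd (T a b : ℕ) : ℝ≥0∞ := ms xE (fun W => Tz T a b W ∧ F1 (E W) = 3 * a)

private lemma Strip_Tz_mono {T a b T' a' b' : ℕ} (h1 : T ≤ T') (h2 : a ≤ a') (h3 : b ≤ b') {W : List Bool}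
    (h : Tz T a b W) : Tz T' a' b' W := by
  refine ⟨h.1, fun z hz => ?_⟩
  obtain ⟨g1, g2, g3, g4⟩ := h.2 z hz
  refine ⟨g1, ?_, ?_, ?_⟩ <;> omega

private lemma Strip_F1_sg (z : ℤ × ℤ) : F1 (sg z) = F5 z := by
  simp only [F1, F5, sg]; ring

private lemma Strip_F5_sg (z : ℤ × ℤ) : F5 (sg z) = F1 z := by
  simp only [F1, F5, sg]; ring

private lemma Strip_Tz_not {T a : ℕ} {W : List Bool} (h : Tz T a a W) : Tz T a a (W.map (! ·)) := by
  refine ⟨?_, ?_⟩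
  · rw [V_not]
    exact h.1.map sg_inj
  · intro z hz
    rw [V_not, List.mem_map] at hz
    obtain ⟨y, hy, rfl⟩ := hz
    obtain ⟨g1, g2, g3, g4⟩ := h.2 y hy
    rw [F0_sg, Strip_F1_sg, Strip_F5_sg]
    exact ⟨g1, g2, g4, g3⟩

private lemma Strip_notnot (W : List Bool) : (W.map (! ·)).map (! ·) = W := by
  rw [List.map_map]
  have : ((fun b : Bool => !b) ∘ fun b : Bool => !b) = id := by
    funext b; simp
  rw [this, List.map_id]

private lemma Strip_sd5 (T a : ℕ) : ms xE (fun W => Tz T a a W ∧ F5 (E W) = 3 * a) = Strip_sd T a a := by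
  rw [← ms_not xE (fun W => Tz T a a W ∧ F5 (E W) = 3 * a)]
  refine ms_congr fun W => ?_
  rw [E_not, Strip_F5_sg]
  refine and_congr_left fun _ => ⟨fun h => ?_, Strip_Tz_not⟩
  have := Strip_Tz_not h
  rwa [Strip_notnot] at this

private lemma Strip_ne_top {T a b : ℕ} :
    ms xE (fun W => Tz T a b W ∧ F0 (E W) = 3 * T + 1) ≠ ∞ ∧
      cs * ms xE (fun W => Tz T a b W ∧ F5 (E W) = 3 * b) ≠ ∞ ∧ sn * ms xE (fun W => Tz T a b W ∧ EB W) ≠ ∞ := by
  have h := tz_re T a b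
  rw [mul_add] at h
  refine ⟨?_, ?_, ?_⟩
  · intro h'; rw [h'] at h; simp at h
  · intro h'; rw [h'] at h; simp at h
  · intro h'; rw [h'] at h; simp at h

private lemma Strip_sd_anti (T b : ℕ) {a a' : ℕ} (h : a ≤ a') : Strip_sd T a' b ≤ Strip_sd T a b := by
  have e := tz_re T a b
  have e' := tz_re T a' b
  have h1 : ms xE (fun W => Tz T a b W ∧ F0 (E W) = 3 * T + 1) ≤ ms xE (fun W => Tz T a' b W ∧ F0 (E W) = 3 * T + 1) :=
    ms_mono fun W hW => ⟨Strip_Tz_mono le_rfl h le_rfl hW.1, hW.2⟩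
  have h2 : ms xE (fun W => Tz T a b W ∧ F5 (E W) = 3 * b) ≤ ms xE (fun W => Tz T a' b W ∧ F5 (E W) = 3 * b) :=
    ms_mono fun W hW => ⟨Strip_Tz_mono le_rfl h le_rfl hW.1, hW.2⟩
  have h3 : ms xE (fun W => Tz T a b W ∧ EB W) ≤ ms xE (fun W => Tz T a' b W ∧ EB W) :=
    ms_mono fun W hW => ⟨Strip_Tz_mono le_rfl h le_rfl hW.1, hW.2⟩
  obtain ⟨n1, n2, n3⟩ := Strip_ne_top (T := T) (a := a') (b := b)
  change _ + cs * (Strip_sd T a b + _) + _ = 1 at e
  change _ + cs * (Strip_sd T a' b + _) + _ = 1 at e'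
  have k : cs * Strip_sd T a' b + (ms xE (fun W => Tz T a' b W ∧ F0 (E W) = 3 * T + 1) +
      cs * ms xE (fun W => Tz T a' b W ∧ F5 (E W) = 3 * b) + sn * ms xE (fun W => Tz T a' b W ∧ EB W)) ≤
      cs * Strip_sd T a b + (ms xE (fun W => Tz T a' b W ∧ F0 (E W) = 3 * T + 1) +
      cs * ms xE (fun W => Tz T a' b W ∧ F5 (E W) = 3 * b) + sn * ms xE (fun W => Tz T a' b W ∧ EB W)) := by
    calc _ = (1 : ℝ≥0∞) := by rw [← e']; ring
      _ = cs * Strip_sd T a b + (ms xE (fun W => Tz T a b W ∧ F0 (E W) = 3 * T + 1) +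
        cs * ms xE (fun W => Tz T a b W ∧ F5 (E W) = 3 * b) + sn * ms xE (fun W => Tz T a b W ∧ EB W)) := by rw [← e]; ring
      _ ≤ _ := by gcongr
  have k2 := (ENNReal.add_le_add_iff_right (ENNReal.add_ne_top.2 ⟨ENNReal.add_ne_top.2 ⟨n1, n2⟩, n3⟩)).1 k
  exact (ENNReal.mul_le_mul_iff_right cs_pos.ne' cs_top).1 k2

private lemma Strip_fin (l : List (ℤ × ℤ)) : ∃ n : ℕ, ∀ z ∈ l, F0 z ≤ 3 * n + 1 ∧ F5 z ≤ 3 * n := by
  induction l with
  | nil => exact ⟨0, by simp⟩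
  | cons y l ih =>
    obtain ⟨n, hn⟩ := ih
    refine ⟨n + (F0 y).toNat + (F5 y).toNat, ?_⟩
    intro z hz
    rcases List.mem_cons.1 hz with rfl | hz
    · constructor <;> omega
    · have := hn z hz
      constructor <;> omega

private lemma Strip_Eg (s : ℕ) : cs * Eg s ≤ 1 := by
  have h : Eg s = ⨆ n, Strip_sd n s n := by
    unfold Eg Strip_sd
    rw [← ms_sup xE (fun n W => Tz n s n W ∧ F1 (E W) = 3 * s)
      (fun n W h => ⟨Strip_Tz_mono (Nat.le_succ n) le_rfl (Nat.le_succ n) h.1, h.2⟩)]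
    refine ms_congr fun W => ⟨?_, ?_⟩
    · rintro ⟨⟨⟨h1, h2⟩, h3⟩, h4⟩
      obtain ⟨n, hn⟩ := Strip_fin (V W)
      exact ⟨n, ⟨h1, fun z hz => ⟨h2 z hz, (hn z hz).1, h3 z hz, (hn z hz).2⟩⟩, h4⟩
    · rintro ⟨n, ⟨h1, h2⟩, h4⟩
      exact ⟨⟨⟨h1, fun z hz => (h2 z hz).1⟩, fun z hz => (h2 z hz).2.2.1⟩, h4⟩
  rw [h, ENNReal.mul_iSup]
  refine iSup_le fun n => ?_
  rw [← tz_re n s n, mul_add]
  exact le_add_right (le_add_left (le_add_right le_rfl))

private lemma Strip_sd_sum (T a' a : ℕ) (h : a' ≤ a) : Strip_sd T a a ≤ ∑ s ∈ Finset.range (T + 1), Gm a' s := by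
  refine (Strip_sd_anti T a h).trans ?_
  refine ms_union _ fun W hW => ?_
  obtain ⟨⟨h1, h2⟩, h3⟩ := hW
  have hE := h2 _ (E_mem W)
  have hh := V_hon (E_mem W)
  refine ⟨(F0 (E W) / 3).toNat, ?_, ⟨⟨⟨h1, fun z hz => (h2 z hz).1⟩, fun z hz => (h2 z hz).2.2.1⟩, h3, ?_⟩⟩
  · rw [Finset.mem_range]
    omega
  · simp only [F0, F1, F5, hon] at *
    omega

private lemma Strip_Gm_sum (s a : ℕ) : ∑ a' ∈ Finset.range (a + 1), Gm s a' ≤ Eg s := by
  refine ms_disj _ ?_ ?_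
  · rintro i - W ⟨h1, h2, h3⟩
    exact ⟨h1, h2⟩
  · rintro i - j - W ⟨-, -, h3⟩ ⟨-, -, h3'⟩
    omega

private lemma Strip_side (T a : ℕ) : (a + 1) * (cs * Strip_sd T a a) ≤ T + 1 := by
  have h1 : ((a : ℝ≥0∞) + 1) * Strip_sd T a a ≤ ∑ s ∈ Finset.range (T + 1), Eg s := by
    calc ((a : ℝ≥0∞) + 1) * Strip_sd T a a = ∑ a' ∈ Finset.range (a + 1), Strip_sd T a a := by
          rw [Finset.sum_const, Finset.card_range, nsmul_eq_mul]; push_cast; ring
      _ ≤ ∑ a' ∈ Finset.range (a + 1), ∑ s ∈ Finset.range (T + 1), Gm a' s :=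
          Finset.sum_le_sum fun a' ha' => Strip_sd_sum T a' a (by rw [Finset.mem_range] at ha'; omega)
      _ = ∑ s ∈ Finset.range (T + 1), ∑ a' ∈ Finset.range (a + 1), Gm s a' := by
          rw [Finset.sum_comm]
          exact Finset.sum_congr rfl fun s _ => Finset.sum_congr rfl fun a' _ => Gm_symm a' s
      _ ≤ _ := Finset.sum_le_sum fun s _ => Strip_Gm_sum s a
  calc (a + 1) * (cs * Strip_sd T a a) = cs * ((a + 1) * Strip_sd T a a) := by ring
    _ ≤ cs * ∑ s ∈ Finset.range (T + 1), Eg s := by gcongr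
    _ = ∑ s ∈ Finset.range (T + 1), cs * Eg s := Finset.mul_sum _ _ _
    _ ≤ ∑ s ∈ Finset.range (T + 1), 1 := Finset.sum_le_sum fun s _ => Strip_Eg s
    _ = T + 1 := by rw [Finset.sum_const, Finset.card_range, nsmul_eq_mul]; push_cast; ring

theorem side_le (T a : ℕ) : (a + 1) * (cs * (ms xE (fun W => Tz T a a W ∧ F1 (E W) = 3 * a) +
    ms xE (fun W => Tz T a a W ∧ F5 (E W) = 3 * a))) ≤ 2 * (T + 1) := by
  rw [Strip_sd5]
  change (a + 1) * (cs * (Strip_sd T a a + Strip_sd T a a)) ≤ _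
  calc ((a : ℝ≥0∞) + 1) * (cs * (Strip_sd T a a + Strip_sd T a a)) =
      (a + 1) * (cs * Strip_sd T a a) + (a + 1) * (cs * Strip_sd T a a) := by ring
    _ ≤ (T + 1) + (T + 1) := add_le_add (Strip_side T a) (Strip_side T a)
    _ = _ := by ring

private lemma Strip_side_div (T a : ℕ) : cs * (ms xE (fun W => Tz T a a W ∧ F1 (E W) = 3 * a) +
    ms xE (fun W => Tz T a a W ∧ F5 (E W) = 3 * a)) ≤ 2 * (T + 1) / (a + 1) := by
  rw [ENNReal.le_div_iff_mul_le (Or.inl (by positivity)) (Or.inl (by finiteness)), mul_comm]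
  exact side_le T a

theorem strip_ge (T : ℕ) : 1 ≤ ms xE (Br T) + sn * ms xE (fun W => In T W ∧ EB W) := by
  refine ENNReal.le_of_forall_pos_le_add fun ε hε _ => ?_
  obtain ⟨a, ha⟩ := exists_nat_gt (2 * ((T : ℝ) + 1) / ε)
  have hε' : (0 : ℝ) < ε := hε
  have h1 : (2 * ((T : ℝ≥0∞) + 1) / (a + 1)) ≤ ε := by
    rw [ENNReal.div_le_iff (by positivity) (by finiteness)]
    have h2 : 2 * ((T : ℝ) + 1) ≤ ε * (a + 1) := by
      rw [div_lt_iff₀ hε'] at ha
      nlinarith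
    have h3 : (2 * ((T : NNReal) + 1)) ≤ ε * (a + 1) := by
      rw [← NNReal.coe_le_coe]
      push_cast
      exact h2
    have h4 := ENNReal.coe_le_coe.2 h3
    push_cast at h4
    exact h4
  rw [← tz_re T a a]
  calc _ ≤ ms xE (Br T) + 2 * ((T : ℝ≥0∞) + 1) / (a + 1) + sn * ms xE (fun W => In T W ∧ EB W) := by
        refine add_le_add (add_le_add (ms_mono fun W hW => ?_) (Strip_side_div T a))
          (mul_le_mul_right (ms_mono fun W hW => ?_) _)
        · exact ⟨⟨hW.1.1, fun z hz => ⟨(hW.1.2 z hz).1, (hW.1.2 z hz).2.1⟩⟩, hW.2⟩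
        · exact ⟨⟨hW.1.1, fun z hz => ⟨(hW.1.2 z hz).1, (hW.1.2 z hz).2.1⟩⟩, hW.2⟩
    _ ≤ ms xE (Br T) + ε + sn * ms xE (fun W => In T W ∧ EB W) := by gcongr
    _ = _ := by ring

theorem br_le_arc {T : ℕ} (hT : 1 ≤ T) : ms xE (Br (T - 1)) ≤ ms xE (Br T) + sn * ms xE (Arc T) := by
  have h1 := strip T hT
  have h2 := strip_ge T
  have h3 : ms xE (fun W => In T W ∧ EB W) ≤
      ms xE (fun W => HA W ∧ ∀ z ∈ V W, F0 z ≤ 3 * ((T - 1 : ℕ) : ℤ) + 1) + ms xE (Arc T) := by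
    refine ms_or fun W hW => ?_
    obtain ⟨⟨g1, g2⟩, g3, g4⟩ := hW
    by_cases h : ∃ z ∈ V W, 3 * (T : ℤ) ≤ F0 z
    · right
      exact ⟨⟨g1, g2⟩, h, g3, g4⟩
    · left
      push Not at h
      refine ⟨⟨g1, fun z hz => (g2 z hz).1, g3, g4⟩, fun z hz => ?_⟩
      have k1 := h z hz
      have k2 := V_hon hz
      simp only [F0, hon] at *
      omega
  have hfin : sn * ms xE (fun W => HA W ∧ ∀ z ∈ V W, F0 z ≤ 3 * ((T - 1 : ℕ) : ℤ) + 1) ≠ ∞ := by
    refine ne_top_of_le_ne_top ENNReal.one_ne_top (le_trans ?_ h1)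
    exact le_add_left le_rfl
  refine (ENNReal.add_le_add_iff_right hfin).1 ?_
  calc _ ≤ (1 : ℝ≥0∞) := h1
    _ ≤ _ := h2
    _ ≤ ms xE (Br T) + sn * (ms xE (fun W => HA W ∧ ∀ z ∈ V W, F0 z ≤ 3 * ((T - 1 : ℕ) : ℤ) + 1) + ms xE (Arc T)) := by
        gcongr
    _ = _ := by ring

private lemma Strip_card {T a : ℕ} {W : List Bool} (h : Tz T a a W) : W.length + 1 ≤ (3 * T + 2) * (2 * a + 1) := by
  classical
  have h1 : (V W).length = W.length + 1 := vs_length _ _ _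
  rw [← h1, ← List.toFinset_card_of_nodup h.1]
  have h2 : ((V W).toFinset.image fun z : ℤ × ℤ => ((F0 z).toNat, ((z.2 + 2 * a) / 2).toNat)) ⊆
      Finset.range (3 * T + 2) ×ˢ Finset.range (2 * a + 1) := by
    intro p hp
    rw [Finset.mem_image] at hp
    obtain ⟨z, hz, rfl⟩ := hp
    obtain ⟨g1, g2, g3, g4⟩ := h.2 z (List.mem_toFinset.1 hz)
    rw [Finset.mem_product, Finset.mem_range, Finset.mem_range]
    simp only [F0, F1, F5] at *
    constructor <;> omega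
  rw [← Finset.card_image_of_injOn (f := fun z : ℤ × ℤ => ((F0 z).toNat, ((z.2 + 2 * a) / 2).toNat)) ?_]
  · refine (Finset.card_le_card h2).trans ?_
    rw [Finset.card_product, Finset.card_range, Finset.card_range]
  · intro z hz y hy he
    rw [Finset.mem_coe, List.mem_toFinset] at hz hy
    obtain ⟨g1, g2, g3, g4⟩ := h.2 z hz
    obtain ⟨k1, k2, k3, k4⟩ := h.2 y hy
    simp only [Prod.mk.injEq] at he
    simp only [F0, F1, F5] at *
    ext <;> omega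

private lemma Strip_leave (T a : ℕ) : ms xE (fun W => Br T W ∧ ¬ Tz T a a W) ≤ 2 * (T + 1) / (a + 1) := by
  have h1 := strip (T + 1) (Nat.succ_pos T)
  have h2 := tz_re T a a
  have h3 : ms xE (fun W => Tz T a a W ∧ EB W) ≤
      ms xE (fun W => HA W ∧ ∀ z ∈ V W, F0 z ≤ 3 * ((T + 1 - 1 : ℕ) : ℤ) + 1) := by
    refine ms_mono fun W hW => ?_
    obtain ⟨⟨g1, g2⟩, g3, g4⟩ := hW
    refine ⟨⟨g1, fun z hz => (g2 z hz).1, g3, g4⟩, fun z hz => ?_⟩
    have := (g2 z hz).2.1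
    simpa using this
  have h4 : ms xE (Br T) = ms xE (fun W => Br T W ∧ Tz T a a W) + ms xE (fun W => Br T W ∧ ¬ Tz T a a W) :=
    ms_split _ _ _
  have h5 : ms xE (fun W => Br T W ∧ Tz T a a W) = ms xE (fun W => Tz T a a W ∧ F0 (E W) = 3 * T + 1) := by
    refine ms_congr fun W => ⟨fun h => ⟨h.2, h.1.2⟩, fun h => ⟨⟨⟨h.1.1, fun z hz => ⟨(h.1.2 z hz).1, (h.1.2 z hz).2.1⟩⟩, h.2⟩, h.1⟩⟩
  obtain ⟨n1, n2, n3⟩ := Strip_ne_top (T := T) (a := a) (b := a)
  have hb : bn (T + 1) = ms xE (Br T) := rfl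
  rw [hb, h4, h5] at h1
  refine le_trans ?_ (Strip_side_div T a)
  refine (ENNReal.add_le_add_iff_left (ENNReal.add_ne_top.2 ⟨n1, n3⟩)).1 ?_
  calc _ = ms xE (fun W => Tz T a a W ∧ F0 (E W) = 3 * T + 1) + ms xE (fun W => Br T W ∧ ¬ Tz T a a W) +
        sn * ms xE (fun W => Tz T a a W ∧ EB W) := by ring
    _ ≤ ms xE (fun W => Tz T a a W ∧ F0 (E W) = 3 * T + 1) + ms xE (fun W => Br T W ∧ ¬ Tz T a a W) +
        sn * ms xE (fun W => HA W ∧ ∀ z ∈ V W, F0 z ≤ 3 * ((T + 1 - 1 : ℕ) : ℤ) + 1) := by gcongr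
    _ ≤ 1 := h1
    _ = _ := by rw [← h2]; ring

theorem long_le (T n : ℕ) : ms xE (fun W => Br T W ∧ n ≤ W.length) ≤ ENNReal.ofReal (100 * ((T : ℝ) + 1) ^ 2 / ((n : ℝ) + 1)) := by
  have hn : (0 : ℝ) < (n : ℝ) + 1 := by positivity
  rcases le_or_gt (n + 1) (100 * (T + 1) ^ 2) with h | h
  · refine (ms_mono fun W hW => hW.1).trans ((Br_one T).trans ?_)
    rw [← ENNReal.ofReal_one]
    refine ENNReal.ofReal_le_ofReal ?_
    rw [le_div_iff₀ hn, one_mul]
    exact_mod_cast h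
  · set a := (n + 1) / (8 * (T + 1)) with ha
    have h1 : n + 1 < (a + 1) * (8 * (T + 1)) := by
      rw [ha]
      have := Nat.lt_div_mul_add (a := n + 1) (b := 8 * (T + 1)) (by positivity)
      nlinarith
    have h2 : a * (8 * (T + 1)) ≤ n + 1 := by
      rw [ha]; exact Nat.div_mul_le_self _ _
    have h3 : (3 * T + 2) * (2 * a + 1) < n + 1 := by nlinarith
    refine (ms_mono (Q := fun W => Br T W ∧ ¬ Tz T a a W) fun W hW => ⟨hW.1, fun hz => ?_⟩).trans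
      ((Strip_leave T a).trans ?_)
    · have := Strip_card hz
      have := hW.2
      omega
    · rw [ENNReal.div_le_iff (by positivity) (by finiteness)]
      have h4 : 2 * ((T : ℝ) + 1) ≤ 100 * ((T : ℝ) + 1) ^ 2 / ((n : ℝ) + 1) * (a + 1) := by
        rw [div_mul_eq_mul_div, le_div_iff₀ hn]
        have h5 : ((n : ℝ) + 1) < (a + 1) * (8 * (T + 1)) := by exact_mod_cast h1
        have h6 : (0 : ℝ) ≤ T := Nat.cast_nonneg _
        have h7 : (0 : ℝ) ≤ a := Nat.cast_nonneg _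
        nlinarith [mul_nonneg h6 h7, mul_pos (show (0:ℝ) < T + 1 by positivity) (show (0:ℝ) < T + 1 by positivity),
          mul_lt_mul_of_pos_left h5 (show (0:ℝ) < T + 1 by positivity)]
      have h8 : ENNReal.ofReal (2 * ((T : ℝ) + 1)) = 2 * ((T : ℝ≥0∞) + 1) := by
        rw [ENNReal.ofReal_mul (by norm_num), ENNReal.ofReal_add (by positivity) (by norm_num),
          ENNReal.ofReal_natCast, ENNReal.ofReal_one, ENNReal.ofReal_ofNat]
      have h9 : ENNReal.ofReal ((a : ℝ) + 1) = (a : ℝ≥0∞) + 1 := by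
        rw [ENNReal.ofReal_add (by positivity) (by norm_num), ENNReal.ofReal_natCast, ENNReal.ofReal_one]
      rw [← h8, ← h9, ← ENNReal.ofReal_mul (by positivity)]
      exact ENNReal.ofReal_le_ofReal h4

end Pool.Agent.BEX.F
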