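import Pool.Agent.BEX.F.Sec
import Pool.Agent.BEX.F.ArcD
import Pool.Agent.BEX.F.Strip

/-!
BEX/F: lower bound `P_N ≥ c N^(-3/4)`.

PAPER PROOF. `DB (T + 1) = DN (T + 1) ≥ xE * ms xE (Arc T)` (`DN_eq`, `dn_ge`) and `sn * ms xE (Arc T) ≥ ms xE (Br (T - 1)) - ms xE (Br T)` (`br_le_arc`), `T ≥ 1`. Sum over `T` from `N` to `K N`: `sn * ∑_(h ∈ [N, K N + 1]) DB h ≥ xE * (ms (Br (N - 1)) - ms (Br (K N)))
≥ c' N^(-1/4)` for a constant natural `K` (two-sided bound of `ms xE (Br N)`). `∑ k ≤ K N + 1, bb k ^ 2 ≤ C N^(1/2)` (`bb (k + 1) = ms xE (Br k)`, `hs_b`). `sec`. `sn`, `xE` are positive and finite.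
-/

namespace Pool.Agent.BEX.F

open Pool.Agent.Hhelper14.SAW Pool.Agent.HHP Pool.Agent.HEP Pool.Agent.BEX.C
open scoped ENNReal

/-- Telescoping sum. -/
private lemma tele {N : ℕ} (hN : 1 ≤ N) (m : ℕ) :
    ms xE (Br (N - 1)) ≤ ms xE (Br (N - 1 + m)) + sn * ∑ T ∈ Finset.range m, ms xE (Arc (N + T)) := by
  induction m with
  | zero => simp
  | succ m ih =>
    refine ih.trans ?_
    rw [Finset.sum_range_succ, mul_add]
    have h := br_le_arc (T := N + m) (by omega)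
    have e1 : N + m - 1 = N - 1 + m := by omega
    have e2 : N - 1 + (m + 1) = N + m := by omega
    rw [e1] at h
    rw [e2]
    calc ms xE (Br (N - 1 + m)) + sn * ∑ T ∈ Finset.range m, ms xE (Arc (N + T))
        ≤ (ms xE (Br (N + m)) + sn * ms xE (Arc (N + m))) + sn * ∑ T ∈ Finset.range m, ms xE (Arc (N + T)) := by
          gcongr
      _ = _ := by ring

private lemma sqrt_sum (n : ℕ) :
    ∑ j ∈ Finset.range n, ((j : ℝ) + 1) ^ (-(1 / 2) : ℝ) ≤ 2 * (n : ℝ) ^ (1 / 2 : ℝ) := by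
  induction n with
  | zero => simp
  | succ n ih =>
    rw [Finset.sum_range_succ]
    push_cast
    have hn : (0 : ℝ) ≤ n := Nat.cast_nonneg n
    rw [← Real.sqrt_eq_rpow] at ih ⊢
    have h1 : ((n : ℝ) + 1) ^ (-(1 / 2) : ℝ) = 1 / Real.sqrt ((n : ℝ) + 1) := by
      rw [Real.rpow_neg (by positivity), ← Real.sqrt_eq_rpow, one_div]
    rw [h1]
    have h2 : 0 < Real.sqrt ((n : ℝ) + 1) := Real.sqrt_pos.2 (by positivity)
    have h3 : Real.sqrt ((n : ℝ) + 1) * Real.sqrt ((n : ℝ) + 1) = n + 1 := Real.mul_self_sqrt (by positivity)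
    have h4 : Real.sqrt (n : ℝ) * Real.sqrt (n : ℝ) = n := Real.mul_self_sqrt hn
    have h5 : Real.sqrt (n : ℝ) ≤ Real.sqrt ((n : ℝ) + 1) := Real.sqrt_le_sqrt (by linarith)
    have h6 := Real.sqrt_nonneg (n : ℝ)
    have h7 : 1 / Real.sqrt ((n : ℝ) + 1) ≤ 2 * (Real.sqrt ((n : ℝ) + 1) - Real.sqrt (n : ℝ)) := by
      rw [div_le_iff₀ h2]
      nlinarith
    linarith

theorem lower (hlow : ∃ c : ℝ, 0 < c ∧ ∀ N : ℕ, ENNReal.ofReal (c * ((N : ℝ) + 1) ^ (-(1 / 4) : ℝ)) ≤ ms xE (Br N))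
    (hup : ∃ C : ℝ, ∀ N : ℕ, ms xE (Br N) ≤ ENNReal.ofReal (C * ((N : ℝ) + 1) ^ (-(1 / 4) : ℝ))) :
    ∃ c : ℝ, 0 < c ∧ ∀ N : ℕ, 1 ≤ N → ENNReal.ofReal (c * (N : ℝ) ^ (-(3 / 4) : ℝ)) ≤ PB N := by
  obtain ⟨c₀, hc₀, hlow⟩ := hlow
  obtain ⟨C₁, hup⟩ := hup
  set C₀ : ℝ := max C₁ 1 with hC₀
  have hC₀1 : 1 ≤ C₀ := le_max_right _ _
  have hC₀p : 0 < C₀ := by linarith
  -- real forms
  set u : ℕ → ℝ := fun N => (ms xE (Br N)).toReal with hu
  have hfin : ∀ N, ms xE (Br N) ≠ ∞ := fun N => ne_top_of_le_ne_top ENNReal.ofReal_ne_top (hup N)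
  have hpow : ∀ N : ℕ, 0 ≤ ((N : ℝ) + 1) ^ (-(1 / 4) : ℝ) := fun N => by positivity
  have hulow : ∀ N : ℕ, c₀ * ((N : ℝ) + 1) ^ (-(1 / 4) : ℝ) ≤ u N := fun N =>
    (ENNReal.ofReal_le_iff_le_toReal (hfin N)).1 (hlow N)
  have huup : ∀ N : ℕ, u N ≤ C₀ * ((N : ℝ) + 1) ^ (-(1 / 4) : ℝ) := fun N => by
    refine ENNReal.toReal_le_of_le_ofReal (mul_nonneg hC₀p.le (hpow N)) ((hup N).trans ?_)
    exact ENNReal.ofReal_le_ofReal (mul_le_mul_of_nonneg_right (le_max_left _ _) (hpow N))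
  have hu0 : ∀ N, 0 ≤ u N := fun N => ENNReal.toReal_nonneg
  -- the constant `K`
  obtain ⟨K, hK1, hK⟩ : ∃ K : ℕ, 1 ≤ K ∧ C₀ * (K : ℝ) ^ (-(1 / 4) : ℝ) ≤ c₀ / 2 := by
    have h : Filter.Tendsto (fun K : ℕ => C₀ * (K : ℝ) ^ (-(1 / 4) : ℝ)) Filter.atTop (nhds (C₀ * 0)) :=
      Filter.Tendsto.const_mul C₀
        ((tendsto_rpow_neg_atTop (by norm_num : (0 : ℝ) < 1 / 4)).comp tendsto_natCast_atTop_atTop)
    rw [mul_zero] at h
    have h2 := (h.eventually (gt_mem_nhds (by positivity : 0 < c₀ / 2))).and (Filter.eventually_ge_atTop 1)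
    obtain ⟨K, h3, h4⟩ := h2.exists
    exact ⟨K, h4, h3.le⟩
  have hxE : xE ≠ ∞ := ne_top_of_le_ne_top ENNReal.one_ne_top xE_le
  have hx : 0 < xE.toReal := by
    refine ENNReal.toReal_pos ?_ hxE
    exact (ENNReal.ofReal_pos.2 Pool.Agent.Hhelper14.SAW.xc_pos).ne'
  have hs : 0 < sn.toReal := ENNReal.toReal_pos sn_pos.ne' sn_top
  set C₂ : ℝ := 1 + 2 * C₀ ^ 2 * ((K : ℝ) + 1) ^ (1 / 2 : ℝ) with hC₂
  have hC₂p : 0 < C₂ := by positivity
  refine ⟨xE.toReal * (c₀ / 2) / (sn.toReal * C₂), by positivity, fun N hN => ?_⟩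
  by_cases hP : PB N = ∞
  · rw [hP]; exact le_top
  have hNr : (1 : ℝ) ≤ N := by exact_mod_cast hN
  have hN0 : (0 : ℝ) < N := by linarith
  -- sum of the squares of the `bb`
  have hbb : ∑ k ∈ Finset.range (K * N + 1 + 1), bb k ^ 2 ≤ ENNReal.ofReal (C₂ * (N : ℝ) ^ (1 / 2 : ℝ)) := by
    rw [Finset.sum_range_succ']
    have e0 : bb 0 = 1 := hs_b_zero
    have e1 : ∀ k, bb (k + 1) = ms xE (Br k) := fun k => hs_b k
    simp only [e0, e1, one_pow]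
    have h1 : ∑ k ∈ Finset.range (K * N + 1), ms xE (Br k) ^ 2 = ENNReal.ofReal (∑ k ∈ Finset.range (K * N + 1), u k ^ 2) := by
      rw [ENNReal.ofReal_sum_of_nonneg (fun k _ => by positivity)]
      refine Finset.sum_congr rfl fun k _ => ?_
      rw [ENNReal.ofReal_pow (hu0 k), ENNReal.ofReal_toReal (hfin k)]
    rw [h1, ← ENNReal.ofReal_one, ← ENNReal.ofReal_add (Finset.sum_nonneg fun k _ => by positivity) zero_le_one]
    apply ENNReal.ofReal_le_ofReal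
    have h2 : ∑ k ∈ Finset.range (K * N + 1), u k ^ 2 ≤ C₀ ^ 2 * (2 * ((K * N + 1 : ℕ) : ℝ) ^ (1 / 2 : ℝ)) := by
      calc ∑ k ∈ Finset.range (K * N + 1), u k ^ 2
          ≤ ∑ k ∈ Finset.range (K * N + 1), C₀ ^ 2 * ((k : ℝ) + 1) ^ (-(1 / 2) : ℝ) := by
            refine Finset.sum_le_sum fun k _ => ?_
            have h3 := pow_le_pow_left₀ (hu0 k) (huup k) 2
            have h4 : (((k : ℝ) + 1) ^ (-(1 / 4) : ℝ)) ^ 2 = ((k : ℝ) + 1) ^ (-(1 / 2) : ℝ) := by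
              rw [← Real.rpow_natCast, ← Real.rpow_mul (by positivity)]
              norm_num
            rwa [mul_pow, h4] at h3
        _ = C₀ ^ 2 * ∑ k ∈ Finset.range (K * N + 1), ((k : ℝ) + 1) ^ (-(1 / 2) : ℝ) := by rw [Finset.mul_sum]
        _ ≤ _ := mul_le_mul_of_nonneg_left (sqrt_sum _) (by positivity)
    have h4 : ((K * N + 1 : ℕ) : ℝ) ^ (1 / 2 : ℝ) ≤ ((K : ℝ) + 1) ^ (1 / 2 : ℝ) * (N : ℝ) ^ (1 / 2 : ℝ) := by
      rw [← Real.mul_rpow (by positivity) (by positivity)]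
      apply Real.rpow_le_rpow (by positivity) _ (by norm_num)
      push_cast
      nlinarith
    have h5 : (1 : ℝ) ≤ (N : ℝ) ^ (1 / 2 : ℝ) := Real.one_le_rpow hNr (by norm_num)
    have h6 : C₀ ^ 2 * (2 * ((K * N + 1 : ℕ) : ℝ) ^ (1 / 2 : ℝ)) ≤
        C₀ ^ 2 * (2 * (((K : ℝ) + 1) ^ (1 / 2 : ℝ) * (N : ℝ) ^ (1 / 2 : ℝ))) := by gcongr
    rw [hC₂]
    nlinarith
  -- the main inequality
  have hsec := sec (N := N) (K * N + 1) hN
  have hKN : N - 1 + (K * N - N + 1) = K * N := by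
    have : N ≤ K * N := Nat.le_mul_of_pos_left N (by omega)
    omega
  have ht := tele hN (K * N - N + 1)
  rw [hKN] at ht
  have hsum : xE * ∑ T ∈ Finset.range (K * N - N + 1), ms xE (Arc (N + T)) ≤ ∑ h ∈ Finset.Icc N (K * N + 1), DB h := by
    rw [Finset.mul_sum]
    calc ∑ T ∈ Finset.range (K * N - N + 1), xE * ms xE (Arc (N + T))
        ≤ ∑ T ∈ Finset.range (K * N - N + 1), DB (N + T + 1) := by
          refine Finset.sum_le_sum fun T _ => ?_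
          rw [← DN_eq (by omega)]
          exact dn_ge _
      _ = ∑ h ∈ (Finset.range (K * N - N + 1)).map ⟨fun T => N + T + 1, fun a b h => by simpa using h⟩, DB h := by
          rw [Finset.sum_map]; rfl
      _ ≤ _ := by
          refine Finset.sum_le_sum_of_subset ?_
          intro h hh
          rw [Finset.mem_map] at hh
          obtain ⟨T, hT, rfl⟩ := hh
          rw [Finset.mem_range] at hT
          rw [Finset.mem_Icc]
          have : N ≤ K * N := Nat.le_mul_of_pos_left N (by omega)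
          change N ≤ N + T + 1 ∧ N + T + 1 ≤ K * N + 1
          omega
  have hmain : xE * ms xE (Br (N - 1)) ≤ xE * ms xE (Br (K * N)) + sn * (PB N * ENNReal.ofReal (C₂ * (N : ℝ) ^ (1 / 2 : ℝ))) := by
    calc xE * ms xE (Br (N - 1))
        ≤ xE * (ms xE (Br (K * N)) + sn * ∑ T ∈ Finset.range (K * N - N + 1), ms xE (Arc (N + T))) := by gcongr
      _ = xE * ms xE (Br (K * N)) + sn * (xE * ∑ T ∈ Finset.range (K * N - N + 1), ms xE (Arc (N + T))) := by ring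
      _ ≤ xE * ms xE (Br (K * N)) + sn * (PB N * ENNReal.ofReal (C₂ * (N : ℝ) ^ (1 / 2 : ℝ))) := by
          exact add_le_add le_rfl (mul_le_mul' le_rfl (hsum.trans (hsec.trans (mul_le_mul' le_rfl hbb))))
  have hNh : 0 < (N : ℝ) ^ (1 / 2 : ℝ) := by positivity
  have hreal : xE.toReal * u (N - 1) ≤ xE.toReal * u (K * N) +
      sn.toReal * ((PB N).toReal * (C₂ * (N : ℝ) ^ (1 / 2 : ℝ))) := by
    have h1 := ENNReal.toReal_mono (ENNReal.add_ne_top.2 ⟨ENNReal.mul_ne_top hxE (hfin _),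
      ENNReal.mul_ne_top sn_top (ENNReal.mul_ne_top hP ENNReal.ofReal_ne_top)⟩) hmain
    rw [ENNReal.toReal_add (ENNReal.mul_ne_top hxE (hfin _))
      (ENNReal.mul_ne_top sn_top (ENNReal.mul_ne_top hP ENNReal.ofReal_ne_top)), ENNReal.toReal_mul,
      ENNReal.toReal_mul, ENNReal.toReal_mul, ENNReal.toReal_mul, ENNReal.toReal_ofReal (by positivity)] at h1
    exact h1
  have ha : c₀ * (N : ℝ) ^ (-(1 / 4) : ℝ) ≤ u (N - 1) := by
    have h := hulow (N - 1)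
    have e : (((N - 1 : ℕ) : ℝ) + 1) = N := by
      rw [Nat.cast_sub hN]; push_cast; ring
    rwa [e] at h
  have hb : u (K * N) ≤ c₀ / 2 * (N : ℝ) ^ (-(1 / 4) : ℝ) := by
    have hKr : (0 : ℝ) < K := by exact_mod_cast hK1
    calc u (K * N) ≤ C₀ * (((K * N : ℕ) : ℝ) + 1) ^ (-(1 / 4) : ℝ) := huup _
      _ ≤ C₀ * ((K : ℝ) * N) ^ (-(1 / 4) : ℝ) := by
          apply mul_le_mul_of_nonneg_left _ hC₀p.le
          apply Real.rpow_le_rpow_of_nonpos (by positivity) _ (by norm_num)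
          push_cast
          linarith
      _ = C₀ * (K : ℝ) ^ (-(1 / 4) : ℝ) * (N : ℝ) ^ (-(1 / 4) : ℝ) := by
          rw [Real.mul_rpow hKr.le hN0.le, mul_assoc]
      _ ≤ c₀ / 2 * (N : ℝ) ^ (-(1 / 4) : ℝ) := mul_le_mul_of_nonneg_right hK (by positivity)
  have hN4 : (N : ℝ) ^ (-(3 / 4) : ℝ) * (N : ℝ) ^ (1 / 2 : ℝ) = (N : ℝ) ^ (-(1 / 4) : ℝ) := by
    rw [← Real.rpow_add hN0]; norm_num
  rw [ENNReal.ofReal_le_iff_le_toReal hP]
  have h1 : xE.toReal * (c₀ / 2) * (N : ℝ) ^ (-(1 / 4) : ℝ) ≤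
      sn.toReal * ((PB N).toReal * (C₂ * (N : ℝ) ^ (1 / 2 : ℝ))) := by
    have h2 := mul_le_mul_of_nonneg_left ha hx.le
    have h3 := mul_le_mul_of_nonneg_left hb hx.le
    linarith
  rw [div_mul_eq_mul_div, div_le_iff₀ (by positivity)]
  rw [← hN4] at h1
  have h5 : xE.toReal * (c₀ / 2) * (N : ℝ) ^ (-(3 / 4) : ℝ) * (N : ℝ) ^ (1 / 2 : ℝ) ≤
      (PB N).toReal * (sn.toReal * C₂) * (N : ℝ) ^ (1 / 2 : ℝ) := by
    linarith
  exact le_of_mul_le_mul_right h5 hNh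

end Pool.Agent.BEX.F
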