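import Pool.Agent.BEX.F.UpA
import Pool.Agent.BEX.F.Strip
import Pool.Agent.HEP.ScMain
import Pool.Agent.HEP.GHyp

/-!
BEX/F: upper bound `P_N ≤ C N^(-3/4 + ε)`.

PAPER PROOF. Let `U N = ∑ k ≤ N, bb k` (`(hs n).U = (hs 1).U` by `rfl`). (1) `U N ≥ c' N^(3/4)` from the lower bound of `ms xE (Br N)`. (2) blocks of height `≤ N` with more than `n` steps: `∑' c, ind (htw ≤ N ∧ n < length) * xE ^ (length + 1) ≤ ∑ T < N, ms xE (Br T ∧ n ≤ length)`
`≤ 100 N ^ 3 / n` (`long_le`). (3) `n = N ^ 5`: `pb_le` and `sc_main (ε / 5) 40` with `hs_hyp n`: `(hs n).a N ≤ C n^(ε/5) / U N ≤ C' N^(ε - 3/4)`; `Lam (N - 1) ≤ (U (N - 1))⁻¹` (`Lam_le_div`); the last term is `≤ 2 (N + 1) * 100 N^3 / N^5 ≤ 400 / N`. (4) `PB N ≤ 1` for small `N`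
(`PB ≤ (total mass)^2 = 1`), and `PB (N + 1)` with `(N + 1)` against `N`: constants. `N = 1`: `PB 1 ≤ 1`.
-/

namespace Pool.Agent.BEX.F

open Pool.Agent.Hhelper14.SAW Pool.Agent.HHP Pool.Agent.HEP Pool.Agent.BEX.C
open scoped ENNReal

private lemma upfin_U (hlow : ∃ c : ℝ, 0 < c ∧ ∀ N : ℕ, ENNReal.ofReal (c * ((N : ℝ) + 1) ^ (-(1 / 4) : ℝ)) ≤ ms xE (Br N)) :
    ∃ c : ℝ, 0 < c ∧ ∀ N : ℕ, 1 ≤ N → ENNReal.ofReal (c * (N : ℝ) ^ ((3 / 4) : ℝ)) ≤ (hs 1).U (N - 1) := by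
  obtain ⟨c, hc, hb⟩ := hlow
  refine ⟨min c 1, lt_min hc one_pos, fun N hN => ?_⟩
  have hN0 : (0 : ℝ) < N := by exact_mod_cast hN
  have hc1 : 0 < min c 1 := lt_min hc one_pos
  have key : ∀ k ∈ Finset.range N, ENNReal.ofReal (min c 1 * (N : ℝ) ^ (-(1 / 4) : ℝ)) ≤ (hs 1).b k := by
    intro k hk
    rw [Finset.mem_range] at hk
    rcases k with _ | k
    · rw [hs_b_zero]
      rw [← ENNReal.ofReal_one]
      apply ENNReal.ofReal_le_ofReal
      have h1 : (N : ℝ) ^ (-(1 / 4) : ℝ) ≤ 1 :=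
        Real.rpow_le_one_of_one_le_of_nonpos (by exact_mod_cast hN) (by norm_num)
      have h2 : (0 : ℝ) ≤ (N : ℝ) ^ (-(1 / 4) : ℝ) := Real.rpow_nonneg hN0.le _
      calc min c 1 * (N : ℝ) ^ (-(1 / 4) : ℝ) ≤ 1 * 1 := mul_le_mul (min_le_right _ _) h1 h2 zero_le_one
        _ = 1 := one_mul 1
    · rw [hs_b]
      refine le_trans ?_ (hb k)
      apply ENNReal.ofReal_le_ofReal
      have h1 : (N : ℝ) ^ (-(1 / 4) : ℝ) ≤ ((k : ℝ) + 1) ^ (-(1 / 4) : ℝ) := by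
        apply Real.rpow_le_rpow_of_nonpos (by positivity) _ (by norm_num)
        have : k + 1 ≤ N := hk.le
        exact_mod_cast this
      have h2 : (0 : ℝ) ≤ (N : ℝ) ^ (-(1 / 4) : ℝ) := Real.rpow_nonneg hN0.le _
      exact mul_le_mul (min_le_left _ _) h1 h2 hc.le
  have hU : (hs 1).U (N - 1) = ∑ k ∈ Finset.range N, (hs 1).b k := by
    unfold Alph.U
    rw [Nat.sub_add_cancel hN]
  rw [hU]
  refine le_trans ?_ (Finset.sum_le_sum key)
  rw [Finset.sum_const, Finset.card_range, nsmul_eq_mul]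
  have h3 : (N : ℝ≥0∞) = ENNReal.ofReal (N : ℝ) := by rw [ENNReal.ofReal_natCast]
  rw [h3, ← ENNReal.ofReal_mul hN0.le]
  apply ENNReal.ofReal_le_ofReal
  have h4 : (N : ℝ) ^ ((3 / 4) : ℝ) = (N : ℝ) * (N : ℝ) ^ (-(1 / 4) : ℝ) := by
    rw [← Real.rpow_one_add' hN0.le (by norm_num)]
    norm_num
  rw [h4]
  apply le_of_eq
  ring

private lemma upfin_ms {T n : ℕ} :
    ∑' c : Blk, ind (htw c.1 - 1 = T ∧ n < c.1.length) * xE ^ (c.1.length + 1) ≤ ms xE (fun W => Br T W ∧ n ≤ W.length) := by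
  have h1 : ∀ c : Blk, ind (htw c.1 - 1 = T ∧ n < c.1.length) * xE ^ (c.1.length + 1) ≤
      (fun W : List Bool => Set.indicator {W : List Bool | Br T W ∧ n ≤ W.length} (fun W => xE ^ (W.length + 1)) W) c.1 := by
    intro c
    by_cases h : htw c.1 - 1 = T ∧ n < c.1.length
    · rw [ind_true h, one_mul]
      have h2 : c.1 ∈ {W : List Bool | Br T W ∧ n ≤ W.length} := ⟨h.1 ▸ Irr.br c.2, h.2.le⟩
      show _ ≤ Set.indicator _ _ c.1
      rw [Set.indicator_of_mem h2]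
    · rw [ind_false h, zero_mul]
      exact bot_le
  refine (ENNReal.tsum_le_tsum h1).trans ?_
  refine (ENNReal.tsum_comp_le_tsum_of_injective Subtype.val_injective
    (fun W : List Bool => Set.indicator {W : List Bool | Br T W ∧ n ≤ W.length} (fun W => xE ^ (W.length + 1)) W)).trans ?_
  rw [← tsum_subtype]
  exact le_rfl

private lemma upfin_blk (N n : ℕ) : ∑' c : Blk, ind (htw c.1 ≤ N ∧ n < c.1.length) * xE ^ (c.1.length + 1) ≤
    ENNReal.ofReal (100 * (N : ℝ) ^ 3 / ((n : ℝ) + 1)) := by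
  have h1 : ∀ c : Blk, ind (htw c.1 ≤ N ∧ n < c.1.length) * xE ^ (c.1.length + 1) ≤
      ∑ T ∈ Finset.range N, ind (htw c.1 - 1 = T ∧ n < c.1.length) * xE ^ (c.1.length + 1) := by
    intro c
    by_cases h : htw c.1 ≤ N ∧ n < c.1.length
    · have h2 : htw c.1 - 1 ∈ Finset.range N := by
        rw [Finset.mem_range]
        have := htw_pos c.1
        omega
      refine le_trans ?_ (Finset.single_le_sum (f := fun T => ind (htw c.1 - 1 = T ∧ n < c.1.length) * xE ^ (c.1.length + 1))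
        (fun _ _ => bot_le) h2)
      apply mul_le_mul_of_nonneg_right _ bot_le
      exact ind_mono fun _ => ⟨rfl, h.2⟩
    · rw [ind_false h, zero_mul]
      exact bot_le
  refine (ENNReal.tsum_le_tsum h1).trans ?_
  rw [Summable.tsum_finsetSum (fun _ _ => ENNReal.summable)]
  have h3 : ∀ T ∈ Finset.range N, ∑' c : Blk, ind (htw c.1 - 1 = T ∧ n < c.1.length) * xE ^ (c.1.length + 1) ≤
      ENNReal.ofReal (100 * (N : ℝ) ^ 2 / ((n : ℝ) + 1)) := by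
    intro T hT
    rw [Finset.mem_range] at hT
    refine upfin_ms.trans ((long_le T n).trans ?_)
    apply ENNReal.ofReal_le_ofReal
    have : (T : ℝ) + 1 ≤ N := by exact_mod_cast hT
    gcongr
  refine (Finset.sum_le_sum h3).trans ?_
  rw [Finset.sum_const, Finset.card_range, nsmul_eq_mul]
  have h4 : (N : ℝ≥0∞) = ENNReal.ofReal (N : ℝ) := by rw [ENNReal.ofReal_natCast]
  rw [h4, ← ENNReal.ofReal_mul (Nat.cast_nonneg N)]
  apply ENNReal.ofReal_le_ofReal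
  apply le_of_eq
  ring

private lemma upfin_St : ∑' l : List Blk, ind (StB 1 l) * wj l ≤ 1 := by
  rw [Alph.tsum_list]
  have h0 : ind (StB 1 ([] : List Blk)) = 0 := by
    apply ind_false
    rintro ⟨h, -⟩
    rw [hj_nil] at h
    omega
  rw [h0, zero_mul, zero_add]
  have h1 : ∀ c : Blk, ∑' l : List Blk, ind (StB 1 (c :: l)) * wj (c :: l) ≤ xE ^ (c.1.length + 1) := by
    intro c
    rw [tsum_eq_single []]
    · calc ind (StB 1 [c]) * wj [c] ≤ 1 * wj [c] := mul_le_mul_of_nonneg_right (ind_le_one _) bot_le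
        _ = xE ^ (c.1.length + 1) := by rw [one_mul, wj_cons]; simp [wj]
    · intro l hl
      rw [ind_false, zero_mul]
      rintro ⟨-, h⟩
      obtain ⟨d, l', rfl⟩ := List.exists_cons_of_ne_nil hl
      rw [List.dropLast_cons_cons, hj_cons] at h
      have := htw_pos c.1
      omega
  exact (ENNReal.tsum_le_tsum h1).trans blk_tot.le

private lemma upfin_one : PB 1 ≤ 1 := by
  unfold PB
  have h1 : ∀ l s : List Blk, ind (StB 1 l ∧ StB 1 s ∧ QB l s) * (wj l * wj s) ≤ (ind (StB 1 l) * wj l) * (ind (StB 1 s) * wj s) := by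
    intro l s
    calc ind (StB 1 l ∧ StB 1 s ∧ QB l s) * (wj l * wj s) ≤ (ind (StB 1 l) * ind (StB 1 s)) * (wj l * wj s) := by
          apply mul_le_mul_of_nonneg_right _ bot_le
          rw [← ind_and]
          exact ind_mono fun h => ⟨h.1, h.2.1⟩
      _ = _ := by ring
  calc ∑' l : List Blk, ∑' s : List Blk, ind (StB 1 l ∧ StB 1 s ∧ QB l s) * (wj l * wj s)
      ≤ ∑' l : List Blk, ∑' s : List Blk, (ind (StB 1 l) * wj l) * (ind (StB 1 s) * wj s) :=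
        ENNReal.tsum_le_tsum fun l => ENNReal.tsum_le_tsum fun s => h1 l s
    _ = (∑' l : List Blk, ind (StB 1 l) * wj l) * ∑' s : List Blk, ind (StB 1 s) * wj s := by
        rw [← ENNReal.tsum_mul_right]
        congr 1
        funext l
        rw [ENNReal.tsum_mul_left]
    _ ≤ 1 * 1 := mul_le_mul' upfin_St upfin_St
    _ = 1 := one_mul 1

private lemma upfin_pow {N : ℕ} (hN : 1 ≤ N) {e : ℝ} (he : -1 ≤ e) : (N : ℝ) ^ e ≤ 2 * ((N : ℝ) + 1) ^ e := by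
  have hN0 : (0 : ℝ) < N := by exact_mod_cast hN
  have hN1 : (1 : ℝ) ≤ N := by exact_mod_cast hN
  rcases le_total 0 e with h | h
  · have h1 : (N : ℝ) ^ e ≤ ((N : ℝ) + 1) ^ e := Real.rpow_le_rpow hN0.le (by linarith) h
    have h2 : 0 ≤ ((N : ℝ) + 1) ^ e := by positivity
    linarith
  · have h1 : (2 * (N : ℝ)) ^ e ≤ ((N : ℝ) + 1) ^ e := Real.rpow_le_rpow_of_nonpos (by positivity) (by linarith) h
    rw [Real.mul_rpow (by norm_num) hN0.le] at h1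
    have h2 : (2 : ℝ) ^ (-1 : ℝ) ≤ (2 : ℝ) ^ e := Real.rpow_le_rpow_of_exponent_le (by norm_num) he
    rw [Real.rpow_neg_one] at h2
    have h3 : 0 ≤ (N : ℝ) ^ e := by positivity
    nlinarith

private lemma upfin_main (hlow : ∃ c : ℝ, 0 < c ∧ ∀ N : ℕ, ENNReal.ofReal (c * ((N : ℝ) + 1) ^ (-(1 / 4) : ℝ)) ≤ ms xE (Br N)) (ε : ℝ) (hε : 0 < ε) :
    ∃ C : ℝ, 0 < C ∧ ∀ N : ℕ, 1 ≤ N → PB (N + 1) ≤ ENNReal.ofReal (C * (N : ℝ) ^ (-(3 / 4) + ε : ℝ)) := by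
  obtain ⟨c, hc, hU⟩ := upfin_U hlow
  obtain ⟨C, hC, hsc⟩ := sc_main (ε / 5) (by positivity) 40
  have hx : (xE⁻¹) ^ 2 ≠ ⊤ := ENNReal.pow_ne_top (ENNReal.inv_ne_top.2 xE_ne.1)
  set X : ℝ := ((xE⁻¹) ^ 2).toReal with hX
  have hX0 : 0 ≤ X := ENNReal.toReal_nonneg
  have hXe : (xE⁻¹) ^ 2 = ENNReal.ofReal X := (ENNReal.ofReal_toReal hx).symm
  refine ⟨2 * X * (C / c) + 2 * c⁻¹ + 400, by positivity, fun N hN => ?_⟩
  have hN0 : (0 : ℝ) < N := by exact_mod_cast hN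
  have hN1 : (1 : ℝ) ≤ N := by exact_mod_cast hN
  set e : ℝ := -(3 / 4) + ε with he
  have hq0 : (0 : ℝ) < (N : ℝ) ^ ((3 / 4) : ℝ) := Real.rpow_pos_of_pos hN0 _
  have hU1 : ENNReal.ofReal (c * (N : ℝ) ^ ((3 / 4) : ℝ)) ≤ (hs 1).U N :=
    (hU N hN).trans ((hs 1).U_mono (Nat.sub_le N 1))
  -- the first term
  have t1 : (hs (N ^ 5)).a N ≤ ENNReal.ofReal (C / c * (N : ℝ) ^ e) := by
    have h1 := hsc (hs (N ^ 5)) (N ^ 5) (Nat.one_le_pow 5 N hN) (hs_hyp (N ^ 5) (Nat.one_le_pow 5 N hN)) N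
      (Nat.le_self_pow (by norm_num) N)
    have h2 : (hs (N ^ 5)).U N = (hs 1).U N := rfl
    rw [h2] at h1
    have h3 : (hs (N ^ 5)).a N ≤ ENNReal.ofReal (C * ((N ^ 5 : ℕ) : ℝ) ^ (ε / 5)) / (hs 1).U N :=
      (ENNReal.le_div_iff_mul_le (Or.inl ((hs 1).U_ne_zero N)) (Or.inl ((hs 1).U_ne_top N))).2 h1
    refine h3.trans ?_
    have h4 : ENNReal.ofReal (C * ((N ^ 5 : ℕ) : ℝ) ^ (ε / 5)) / (hs 1).U N ≤
        ENNReal.ofReal (C * ((N ^ 5 : ℕ) : ℝ) ^ (ε / 5)) / ENNReal.ofReal (c * (N : ℝ) ^ ((3 / 4) : ℝ)) :=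
      ENNReal.div_le_div_left hU1 _
    refine h4.trans ?_
    rw [← ENNReal.ofReal_div_of_pos (by positivity)]
    apply ENNReal.ofReal_le_ofReal
    have h5 : ((N ^ 5 : ℕ) : ℝ) ^ (ε / 5) = (N : ℝ) ^ ε := by
      push_cast
      rw [← Real.rpow_natCast, ← Real.rpow_mul hN0.le]
      congr 1
      push_cast
      ring
    rw [h5]
    have h6 : (N : ℝ) ^ e = (N : ℝ) ^ ε / (N : ℝ) ^ ((3 / 4) : ℝ) := by
      rw [he, ← Real.rpow_sub hN0]
      congr 1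
      ring
    rw [h6]
    apply le_of_eq
    field_simp
  -- the second term
  have t2 : (hs 1).Lam (N - 1) ≤ ENNReal.ofReal (c⁻¹ * (N : ℝ) ^ e) := by
    refine ((hs 1).Lam_le_div (N - 1)).trans ?_
    refine (ENNReal.inv_le_inv.2 (hU N hN)).trans ?_
    rw [← ENNReal.ofReal_inv_of_pos (by positivity)]
    apply ENNReal.ofReal_le_ofReal
    rw [mul_inv]
    apply mul_le_mul_of_nonneg_left _ (by positivity)
    rw [← Real.rpow_neg hN0.le]
    apply Real.rpow_le_rpow_of_exponent_le hN1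
    rw [he]; linarith
  -- the third term
  have t3 : (hs 1).U N * ∑' c : Blk, ind (htw c.1 ≤ N ∧ N ^ 5 < c.1.length) * xE ^ (c.1.length + 1) ≤
      ENNReal.ofReal (200 * (N : ℝ) ^ e) := by
    have h1 : (hs 1).U N ≤ ENNReal.ofReal (2 * (N : ℝ)) := by
      refine ((hs 1).U_le N).trans ?_
      have h2 : ((N : ℝ≥0∞) + 1) = ENNReal.ofReal ((N : ℝ) + 1) := by
        rw [ENNReal.ofReal_add hN0.le zero_le_one, ENNReal.ofReal_natCast, ENNReal.ofReal_one]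
      rw [h2]
      apply ENNReal.ofReal_le_ofReal
      linarith
    refine (mul_le_mul' h1 (upfin_blk N (N ^ 5))).trans ?_
    rw [← ENNReal.ofReal_mul (by positivity)]
    apply ENNReal.ofReal_le_ofReal
    have h3 : 2 * (N : ℝ) * (100 * (N : ℝ) ^ 3 / (((N ^ 5 : ℕ) : ℝ) + 1)) ≤ 200 * (N : ℝ)⁻¹ := by
      push_cast
      rw [← mul_div_assoc, div_le_iff₀ (by positivity)]
      have h4 : 200 * (N : ℝ)⁻¹ * ((N : ℝ) ^ 5 + 1) = 200 * (N : ℝ) ^ 4 + 200 * (N : ℝ)⁻¹ := by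
        field_simp
      rw [h4]
      have h5 : (0 : ℝ) < (N : ℝ)⁻¹ := by positivity
      nlinarith
    refine h3.trans ?_
    apply mul_le_mul_of_nonneg_left _ (by norm_num)
    rw [← Real.rpow_neg_one]
    apply Real.rpow_le_rpow_of_exponent_le hN1
    rw [he]; linarith
  have hP := pb_le N (N ^ 5) hN (Nat.one_le_pow 5 N hN)
  have hq : (0 : ℝ) ≤ (N : ℝ) ^ e := Real.rpow_nonneg hN0.le _
  have h2e : (2 : ℝ≥0∞) = ENNReal.ofReal 2 := by norm_num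
  refine hP.trans ?_
  calc 2 * (xE⁻¹) ^ 2 * (hs (N ^ 5)).a N + 2 * (hs 1).Lam (N - 1) +
      2 * ((hs 1).U N * ∑' c : Blk, ind (htw c.1 ≤ N ∧ N ^ 5 < c.1.length) * xE ^ (c.1.length + 1))
      ≤ 2 * (xE⁻¹) ^ 2 * ENNReal.ofReal (C / c * (N : ℝ) ^ e) + 2 * ENNReal.ofReal (c⁻¹ * (N : ℝ) ^ e) +
        2 * ENNReal.ofReal (200 * (N : ℝ) ^ e) := by
        gcongr
    _ = ENNReal.ofReal (2 * X * (C / c * (N : ℝ) ^ e) + 2 * (c⁻¹ * (N : ℝ) ^ e) + 2 * (200 * (N : ℝ) ^ e)) := by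
        rw [hXe, h2e, ← ENNReal.ofReal_mul (by norm_num), ← ENNReal.ofReal_mul (by positivity),
          ← ENNReal.ofReal_mul (by norm_num), ← ENNReal.ofReal_mul (by norm_num),
          ← ENNReal.ofReal_add (by positivity) (by positivity), ← ENNReal.ofReal_add (by positivity) (by positivity)]
    _ ≤ ENNReal.ofReal ((2 * X * (C / c) + 2 * c⁻¹ + 400) * (N : ℝ) ^ e) := by
        apply ENNReal.ofReal_le_ofReal
        apply le_of_eq
        ring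

theorem upper (hlow : ∃ c : ℝ, 0 < c ∧ ∀ N : ℕ, ENNReal.ofReal (c * ((N : ℝ) + 1) ^ (-(1 / 4) : ℝ)) ≤ ms xE (Br N)) (ε : ℝ) (hε : 0 < ε) :
    ∃ C : ℝ, 0 < C ∧ ∀ N : ℕ, 1 ≤ N → PB N ≤ ENNReal.ofReal (C * (N : ℝ) ^ (-(3 / 4) + ε : ℝ)) := by
  obtain ⟨C, hC, h⟩ := upfin_main hlow ε hε
  refine ⟨1 + 2 * C, by positivity, fun N hN => ?_⟩
  rcases N with _ | N
  · omega
  rcases Nat.eq_zero_or_pos N with rfl | hN1
  · refine upfin_one.trans ?_
    rw [← ENNReal.ofReal_one]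
    apply ENNReal.ofReal_le_ofReal
    norm_num
    linarith
  · refine (h N hN1).trans ?_
    apply ENNReal.ofReal_le_ofReal
    have h1 := upfin_pow hN1 (e := -(3 / 4) + ε) (by linarith)
    have h2 : (0 : ℝ) ≤ ((N : ℝ) + 1) ^ (-(3 / 4) + ε) := by positivity
    push_cast
    nlinarith

end Pool.Agent.BEX.F
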