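import Pool.Agent.BEX.F.Tr
import Pool.Agent.BEX.F.UpFin
import Pool.Agent.BEX.F.LowFin

/-!
BEX/F: the half-plane form of Q1, from the two bounds of the bridge masses.
-/

namespace Pool.Agent.BEX.F

open Pool.Agent.Hhelper14.SAW Pool.Agent.HHP Pool.Agent.HEP
open scoped ENNReal
open Filter Topology

theorem half_of (hlow : ∃ c : ℝ, 0 < c ∧ ∀ N : ℕ, ENNReal.ofReal (c * ((N : ℝ) + 1) ^ (-(1 / 4) : ℝ)) ≤ ms xE (Br N))
    (hup : ∃ C : ℝ, ∀ N : ℕ, ms xE (Br N) ≤ ENNReal.ofReal (C * ((N : ℝ) + 1) ^ (-(1 / 4) : ℝ))) :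
    (∀ N : ℕ, 1 ≤ N → ∑' w : Half.Stopped N, Half.wt w = 1) ∧
    (∃ c : ℝ, 0 < c ∧ ∀ N : ℕ, 1 ≤ N → c * (N : ℝ) ^ (-(3 / 4) : ℝ) ≤ Half.P N) ∧
    (∀ ε : ℝ, 0 < ε → ∃ C : ℝ, 0 < C ∧ ∀ N : ℕ, 1 ≤ N → Half.P N ≤ C * (N : ℝ) ^ (-(3 / 4) + ε : ℝ)) ∧
    Tendsto (fun N : ℕ => Real.log (Half.P N) / Real.log N) atTop (𝓝 (-(3 / 4))) := by
  have htot : ∀ N : ℕ, 1 ≤ N → ∑' w : Half.Stopped N, Half.wt w = 1 := fun N hN => by
    rw [total_eq hN, Sp_total hN, ENNReal.toReal_one]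
  obtain ⟨c, hc, hlo⟩ := lower hlow hup
  have hPB : ∀ N : ℕ, 1 ≤ N → Half.P N = (PB N).toReal := fun N hN => by rw [P_eq hN, PN_eq hN]
  have hup' : ∀ ε : ℝ, 0 < ε → ∃ C : ℝ, 0 < C ∧ ∀ N : ℕ, 1 ≤ N → Half.P N ≤ C * (N : ℝ) ^ (-(3 / 4) + ε : ℝ) := by
    intro ε hε
    obtain ⟨C, hC, h⟩ := upper hlow ε hε
    refine ⟨C, hC, fun N hN => ?_⟩
    rw [hPB N hN]
    refine ENNReal.toReal_le_of_le_ofReal ?_ (h N hN)
    positivity
  have hne : ∀ N : ℕ, 1 ≤ N → PB N ≠ ∞ := by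
    intro N hN
    obtain ⟨C, hC, h⟩ := upper hlow 1 one_pos
    exact ne_top_of_le_ne_top ENNReal.ofReal_ne_top (h N hN)
  have hlo' : ∀ N : ℕ, 1 ≤ N → c * (N : ℝ) ^ (-(3 / 4) : ℝ) ≤ Half.P N := by
    intro N hN
    rw [hPB N hN]
    exact (ENNReal.ofReal_le_iff_le_toReal (hne N hN)).1 (hlo N hN)
  refine ⟨htot, ⟨c, hc, hlo'⟩, hup', ?_⟩
  -- the limit
  have hlog : Tendsto (fun N : ℕ => Real.log N) atTop atTop :=
    Real.tendsto_log_atTop.comp tendsto_natCast_atTop_atTop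
  rw [Metric.tendsto_atTop]
  intro δ hδ
  obtain ⟨C, hC, h⟩ := hup' (δ / 2) (by positivity)
  have hA : Tendsto (fun N : ℕ => (max |Real.log c| |Real.log C|) / Real.log N) atTop (𝓝 0) :=
    hlog.const_div_atTop _
  rw [Metric.tendsto_atTop] at hA
  obtain ⟨N0, hN0⟩ := hA (δ / 2) (by positivity)
  refine ⟨max N0 2, fun N hN => ?_⟩
  have hN1 : N0 ≤ N := (le_max_left _ _).trans hN
  have hN2 : 2 ≤ N := (le_max_right _ _).trans hN
  have hNr : (2 : ℝ) ≤ N := by exact_mod_cast hN2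
  have hNpos : (0 : ℝ) < N := by linarith
  have hL : 0 < Real.log N := Real.log_pos (by linarith)
  have k0 := hN0 N hN1
  rw [Real.dist_eq, sub_zero, abs_div, abs_of_pos hL, div_lt_iff₀ hL] at k0
  have k1 : |Real.log c| < δ / 2 * Real.log N :=
    lt_of_le_of_lt ((le_max_left _ _).trans (le_abs_self _)) k0
  have k2 : |Real.log C| < δ / 2 * Real.log N :=
    lt_of_le_of_lt ((le_max_right _ _).trans (le_abs_self _)) k0
  have hP1 := hlo' N (by omega)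
  have hP2 := h N (by omega)
  have hPp : 0 < Half.P N := lt_of_lt_of_le (by positivity) hP1
  have e1 := Real.log_le_log (by positivity) hP1
  have e2 := Real.log_le_log hPp hP2
  rw [Real.log_mul hc.ne' (by positivity), Real.log_rpow hNpos] at e1
  rw [Real.log_mul hC.ne' (by positivity), Real.log_rpow hNpos] at e2
  rw [Real.dist_eq, abs_lt]
  have a1 := abs_lt.1 k1
  have a2 := abs_lt.1 k2
  constructor
  · rw [lt_sub_iff_add_lt, lt_div_iff₀ hL]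
    nlinarith
  · rw [sub_lt_iff_lt_add, div_lt_iff₀ hL]
    nlinarith

end Pool.Agent.BEX.F
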