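import Pool.Agent.BEX.F.Defs

/-!
BEX/F: from the vertex `o` to the neighbouring leg `(1, -2)` (map `phi` on words which start with `false` = to the right).

PAPER PROOF. `tn true (1,0) = (0,1)`, `tn false (1,0) = (1,-1)`. Let `W ∈ Br k` start with `false`: `v_1 = (1, -1)`. If `W = [false]`, `phi W = [true]`. If the second turn is `true` the walk leaves the column `0`
through the right edge of `v_1`: `W = false :: true :: W'`, `phi W = true :: false :: W'`, the walk from `(1, -2)` through `v_1`, then as before (`v_2 = (2, -1)` with direction `(1, 0)` in both cases). If the second turn is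
`false`: `v_2 = (1, -2)` with direction `(0, -1)`; then `W` is longer (`F0 v_2 = 0` is not the end of a bridge) and the third turn is `true` (`false` leads to `(0, -2)`, `F0 = -2`): `W = false :: false :: true :: W'`,
`phi W = false :: W'`: the walk from `(1, -2)`, direction `(1, -1)` after the first turn in both cases. So in the frame of the leg `(1, -2)` (`phi_V`): every vertex of `phi W`, shifted by `(1, -2)`, is a vertex `≠ (0, 0)` of `W`, or it is
`(1, -2)` itself; nodup: in the second case `(1, -2)` is not in `V W` because its neighbours with `F0 ≥ 0` are `(1, -1) = v_1` and `(2, -3)`, and the neighbours of `v_1` on the path are `o` and `v_2 = (2, -1)` (`phi_nb`).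
`phi_irr`: the crossings between the columns are the same, so are the renewal levels (columns `0 | 1`, ...). `phi_inj`: the image of the third kind starts with `false`, the others with `true`.
-/

namespace Pool.Agent.BEX.F

open Pool.Agent.Hhelper14.SAW Pool.Agent.HHP Pool.Agent.HEP Pool.Agent.BEX.C
open scoped ENNReal

private lemma ph_t0 : tn true ((1 : ℤ), (0 : ℤ)) = (0, 1) := by decide
private lemma ph_f0 : tn false ((1 : ℤ), (0 : ℤ)) = (1, -1) := by decide
private lemma ph_t1 : tn true ((1 : ℤ), (-1 : ℤ)) = (1, 0) := by decide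
private lemma ph_f1 : tn false ((1 : ℤ), (-1 : ℤ)) = (0, -1) := by decide
private lemma ph_t2 : tn true ((0 : ℤ), (-1 : ℤ)) = (1, -1) := by decide
private lemma ph_f2 : tn false ((0 : ℤ), (-1 : ℤ)) = (-1, 0) := by decide
private lemma ph_f3 : tn false ((0 : ℤ), (1 : ℤ)) = (1, 0) := by decide

private lemma ph_add (a b c d : ℤ) : ((a, b) : ℤ × ℤ) + (c, d) = (a + c, b + d) := rfl

private lemma V_f (W : List Bool) : V (false :: W) = (0, 0) :: vs (1, -1) (1, -1) W := by
  simp [V, vs, ph_f0]

private lemma V_ft (W : List Bool) : V (false :: true :: W) = (0, 0) :: (1, -1) :: vs (2, -1) (1, 0) W := by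
  simp [V, vs, ph_f0, ph_t1]

private lemma V_ff (W : List Bool) : V (false :: false :: W) = (0, 0) :: (1, -1) :: vs (1, -2) (0, -1) W := by
  simp [V, vs, ph_f0, ph_f1]

private lemma V_fft (W : List Bool) :
    V (false :: false :: true :: W) = (0, 0) :: (1, -1) :: (1, -2) :: vs (2, -3) (1, -1) W := by
  simp [V, vs, ph_f0, ph_f1, ph_t2]

private lemma V_tf (W : List Bool) : V (true :: false :: W) = (0, 0) :: (0, 1) :: vs (1, 1) (1, 0) W := by
  simp [V, vs, ph_t0, ph_f3]

/-- The three forms of a bridge which starts with `false`. -/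
private lemma ph_cases {k : ℕ} {W : List Bool} (h : Br k W) (h0 : W.head? = some false) :
    W = [false] ∨ (∃ W', W = false :: true :: W') ∨ ∃ W', W = false :: false :: true :: W' := by
  obtain ⟨⟨-, hF⟩, hE⟩ := h
  match W, h0 with
  | false :: W, _ =>
    match W with
    | [] => exact Or.inl rfl
    | true :: W => exact Or.inr (Or.inl ⟨W, rfl⟩)
    | false :: W =>
      right; right
      match W with
      | [] =>
        exfalso
        have : E [false, false] = (1, -2) := by decide
        rw [this] at hE
        simp only [F0] at hE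
        omega
      | true :: W => exact ⟨W, rfl⟩
      | false :: W =>
        exfalso
        have h1 : ((0 : ℤ), (-2 : ℤ)) ∈ V (false :: false :: false :: W) := by
          rw [V_ff]
          simp only [vs, ph_f2, ph_add]
          refine List.mem_cons_of_mem _ (List.mem_cons_of_mem _ (List.mem_cons_of_mem _ ?_))
          exact head_mem _ _ _
        have := (hF _ h1).1
        simp only [F0] at this
        omega

private lemma sh_vs (p d : ℤ × ℤ) (W : List Bool) :
    vs ((1, -2) + p) d W = (vs p d W).map (fun z => ((1, -2) : ℤ × ℤ) + z) := vs_shift _ _ _ _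

private lemma sh_ep (p d : ℤ × ℤ) (W : List Bool) : ep ((1, -2) + p) d W = (1, -2) + ep p d W := ep_shift _ _ _ _

private lemma sh_F0 (z : ℤ × ℤ) : F0 ((1, -2) + z) = F0 z := by
  rw [F0_add]
  simp [F0]

private lemma sh_inj : Function.Injective (fun z : ℤ × ℤ => ((1, -2) : ℤ × ℤ) + z) :=
  fun _ _ h => add_left_cancel h

/-- A path in `F0 ≥ 0` which visits `(1, -2)`, not as first or last vertex, visits `(1, -1)`. -/
private lemma ph_nb : ∀ (W : List Bool) (p d : ℤ × ℤ), Gd p d → ((1 : ℤ), (-2 : ℤ)) ∈ vs p d W → p ≠ (1, -2) →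
    ep p d W ≠ (1, -2) → (∀ y ∈ vs p d W, 0 ≤ F0 y) → ((1 : ℤ), (-1 : ℤ)) ∈ vs p d W := by
  intro W
  induction W with
  | nil =>
    intro p d _ hz hp _ _
    simp only [vs, List.mem_singleton] at hz
    exact absurd hz.symm hp
  | cons b W ih =>
    intro p d hg hz hp he hF
    simp only [vs, List.mem_cons] at hz ⊢
    rcases hz with hz | hz
    · exact absurd hz.symm hp
    by_cases hq : p + tn b d = (1, -2)
    · match W, he, hF with
      | [], he, _ => exact absurd hq he
      | c :: W, _, hF =>
        have h1 : 0 ≤ F0 p := hF p (head_mem _ _ _)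
        have h2 : 0 ≤ F0 (p + tn b d + tn c (tn b d)) :=
          hF _ (by
            simp only [vs, List.mem_cons]
            exact Or.inr (Or.inr (head_mem _ _ _)))
        have h3 : p = (1, -1) ∨ p + tn b d + tn c (tn b d) = (1, -1) := by
          obtain ⟨x, y⟩ := p
          rcases hg with ⟨h, rfl | rfl | rfl⟩ | ⟨h, rfl | rfl | rfl⟩ <;> cases b <;> cases c <;>
            simp only [tn, L, R, F0, Prod.mk_add_mk, Prod.mk.injEq, if_true, if_false, Bool.false_eq_true] at * <;> omega
        rcases h3 with h3 | h3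
        · exact Or.inl h3.symm
        · right
          simp only [vs, List.mem_cons]
          right
          rw [← h3]
          exact head_mem _ _ _
    · refine Or.inr (ih _ _ (hg.step b) hz hq he fun y hy => hF y ?_)
      simp only [vs, List.mem_cons]
      exact Or.inr hy

private lemma ph_gd : Gd (2, -1) (1, 0) := by
  left; exact ⟨by decide, Or.inl rfl⟩

/-- In the second case `(1, -2)` is not visited. -/
private lemma ph_not {k : ℕ} {W : List Bool} (h : Br k (false :: true :: W)) :
    ((1 : ℤ), (-2 : ℤ)) ∉ vs (2, -1) (1, 0) W := by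
  intro hz
  obtain ⟨⟨hn, hF⟩, hE⟩ := h
  have e : E (false :: true :: W) = ep (2, -1) (1, 0) W := by
    simp [E, ep, ph_f0, ph_t1]
  rw [V_ft] at hn hF
  rw [e] at hE
  have h1 := ph_nb W (2, -1) (1, 0) ph_gd hz (by decide)
    (by
      intro h
      rw [h] at hE
      simp only [F0] at hE
      omega)
    (fun y hy => (hF y (List.mem_cons_of_mem _ (List.mem_cons_of_mem _ hy))).1)
  rw [List.nodup_cons, List.nodup_cons] at hn
  exact hn.2.1 h1

theorem phi_br {k : ℕ} {W : List Bool} (h : Br k W) (h0 : W.head? = some false) : Br k (phi W) ∧ (phi W).length ≤ W.length := by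
  rcases ph_cases h h0 with rfl | ⟨W', rfl⟩ | ⟨W', rfl⟩
  · refine ⟨?_, by simp [phi]⟩
    have h1 := h.2
    have e : E [false] = (1, -1) := by decide
    rw [e] at h1
    simp only [F0] at h1
    have hk : k = 0 := by omega
    subst hk
    exact Br_true
  · refine ⟨?_, by simp [phi]⟩
    have hnot := ph_not h
    obtain ⟨⟨hn, hF⟩, hE⟩ := h
    have e : E (false :: true :: W') = (1, -2) + E (true :: false :: W') := by
      have h1 : E (true :: false :: W') = ep (1, 1) (1, 0) W' := by simp [E, ep, ph_t0, ph_f3]
      have h2 : E (false :: true :: W') = ep (2, -1) (1, 0) W' := by simp [E, ep, ph_f0, ph_t1]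
      rw [h1, h2, ← sh_ep]
      rfl
    have e2 : vs (2, -1) (1, 0) W' = (vs (1, 1) (1, 0) W').map (fun z => ((1, -2) : ℤ × ℤ) + z) := by
      rw [← sh_vs]; rfl
    rw [V_ft] at hn hF
    rw [e, sh_F0] at hE
    rw [e2] at hn hF hnot
    refine ⟨⟨?_, ?_⟩, hE⟩
    · change (V (true :: false :: W')).Nodup
      rw [V_tf]
      rw [List.nodup_cons, List.nodup_cons] at hn ⊢
      refine ⟨?_, ?_, ?_⟩
      · intro h
        rcases List.mem_cons.1 h with h | h
        · exact absurd h (by decide)
        · exact hnot (List.mem_map.2 ⟨_, h, by decide⟩)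
      · intro h
        exact hn.2.1 (List.mem_map.2 ⟨_, h, by decide⟩)
      · exact List.Nodup.of_map _ hn.2.2
    · change ∀ z ∈ V (true :: false :: W'), 0 ≤ F0 z ∧ F0 z ≤ 3 * k + 1
      rw [V_tf]
      intro z hz
      rcases List.mem_cons.1 hz with rfl | hz
      · simp only [F0]; constructor <;> omega
      rcases List.mem_cons.1 hz with rfl | hz
      · simp only [F0]; constructor <;> omega
      rw [← sh_F0 z]
      exact hF _ (List.mem_cons_of_mem _ (List.mem_cons_of_mem _ (List.mem_map.2 ⟨z, hz, rfl⟩)))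
  · refine ⟨?_, by simp [phi]⟩
    obtain ⟨⟨hn, hF⟩, hE⟩ := h
    have e : E (false :: false :: true :: W') = (1, -2) + E (false :: W') := by
      have h1 : E (false :: W') = ep (1, -1) (1, -1) W' := by simp [E, ep, ph_f0]
      have h2 : E (false :: false :: true :: W') = ep (2, -3) (1, -1) W' := by simp [E, ep, ph_f0, ph_f1, ph_t2]
      rw [h1, h2, ← sh_ep]
      rfl
    have e2 : (1, -2) :: vs (2, -3) (1, -1) W' = (V (false :: W')).map (fun z => ((1, -2) : ℤ × ℤ) + z) := by
      rw [V_f, List.map_cons, ← sh_vs]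
      rfl
    rw [V_fft, e2] at hn hF
    rw [e, sh_F0] at hE
    refine ⟨⟨?_, ?_⟩, hE⟩
    · change (V (false :: W')).Nodup
      rw [List.nodup_cons, List.nodup_cons] at hn
      exact List.Nodup.of_map _ hn.2.2
    · change ∀ z ∈ V (false :: W'), 0 ≤ F0 z ∧ F0 z ≤ 3 * k + 1
      intro z hz
      rw [← sh_F0 z]
      exact hF _ (List.mem_cons_of_mem _ (List.mem_cons_of_mem _ (List.mem_map.2 ⟨z, hz, rfl⟩)))

theorem phi_V {k : ℕ} {W : List Bool} (h : Br k W) (h0 : W.head? = some false) {z : ℤ × ℤ} (hz : z ∈ V (phi W)) :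
    (z + (1, -2) ∈ V W ∧ z + (1, -2) ≠ (0, 0)) ∨ z = (0, 0) := by
  by_cases hz0 : z = (0, 0)
  · exact Or.inr hz0
  left
  rw [add_comm z]
  rcases ph_cases h h0 with rfl | ⟨W', rfl⟩ | ⟨W', rfl⟩
  · have e : V (phi [false]) = [(0, 0), (0, 1)] := by decide
    rw [e] at hz
    simp only [List.mem_cons, List.not_mem_nil, or_false] at hz
    rcases hz with rfl | rfl
    · exact absurd rfl hz0
    · exact ⟨by decide, by decide⟩
  · obtain ⟨⟨hn, -⟩, -⟩ := h
    have hz' : z ∈ V (true :: false :: W') := hz
    have e2 : vs (2, -1) (1, 0) W' = (vs (1, 1) (1, 0) W').map (fun z => ((1, -2) : ℤ × ℤ) + z) := by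
      rw [← sh_vs]; rfl
    rw [V_tf] at hz'
    rw [V_ft, e2] at hn ⊢
    have key : ((1, -2) : ℤ × ℤ) + z ∈ (1, -1) :: (vs (1, 1) (1, 0) W').map (fun z => ((1, -2) : ℤ × ℤ) + z) := by
      rcases List.mem_cons.1 hz' with rfl | hz'
      · exact absurd rfl hz0
      rcases List.mem_cons.1 hz' with rfl | hz'
      · exact List.mem_cons.2 (Or.inl (by decide))
      · exact List.mem_cons_of_mem _ (List.mem_map.2 ⟨z, hz', rfl⟩)
    refine ⟨List.mem_cons_of_mem _ key, fun h => ?_⟩
    rw [h] at key
    exact (List.nodup_cons.1 hn).1 key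
  · obtain ⟨⟨hn, -⟩, -⟩ := h
    have hz' : z ∈ V (false :: W') := hz
    have e2 : (1, -2) :: vs (2, -3) (1, -1) W' = (V (false :: W')).map (fun z => ((1, -2) : ℤ × ℤ) + z) := by
      rw [V_f, List.map_cons, ← sh_vs]
      rfl
    rw [V_fft, e2] at hn ⊢
    have key : ((1, -2) : ℤ × ℤ) + z ∈ (V (false :: W')).map (fun z => ((1, -2) : ℤ × ℤ) + z) :=
      List.mem_map.2 ⟨z, hz', rfl⟩
    refine ⟨List.mem_cons_of_mem _ (List.mem_cons_of_mem _ key), fun h => ?_⟩
    rw [h] at key
    exact (List.nodup_cons.1 hn).1 (List.mem_cons_of_mem _ key)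

/-- A bridge which starts to the left and has only `o` in common with `W` does not visit `(1, -2)`. -/
theorem phi_nb {k k' : ℕ} {W W' : List Bool} (h : Br k W) (h0 : W.head? = some false) (h' : Br k' W') (h0' : W'.head? = some true)
    (hQ : Q1 W' W) : ((1 : ℤ), (-2 : ℤ)) ∉ V W' := by
  intro hz
  have h1 : ((1 : ℤ), (-1 : ℤ)) ∈ V W' := ph_nb W' (0, 0) (1, 0) gd_o hz (by decide)
    (by
      intro he
      have := h'.2
      rw [E, he] at this
      simp only [F0] at this
      omega)
    (fun y hy => (h'.1.2 y hy).1)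
  have h2 : ((1 : ℤ), (-1 : ℤ)) ∈ V W := by
    match W, h0 with
    | false :: W, _ =>
      rw [V_f]
      exact List.mem_cons_of_mem _ (head_mem _ _ _)
  have := hQ _ h1 h2
  exact absurd this (by decide)

theorem phi_inj {k k' : ℕ} {W W' : List Bool} (h : Br k W) (h0 : W.head? = some false) (h' : Br k' W') (h0' : W'.head? = some false)
    (e : phi W = phi W') : W = W' := by
  rcases ph_cases h h0 with rfl | ⟨X, rfl⟩ | ⟨X, rfl⟩ <;> rcases ph_cases h' h0' with rfl | ⟨Y, rfl⟩ | ⟨Y, rfl⟩ <;>
    simp [phi] at e ⊢ <;> exact e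

private lemma ph_Dr_fft (X : List Bool) : Dr (false :: false :: true :: X) = Dr (false :: X) := by
  simp [Dr, ed, ph_f0, ph_f1, ph_t2]

private lemma ph_Dr_tf (X : List Bool) : Dr (false :: true :: X) = Dr (true :: false :: X) := by
  simp [Dr, ed, ph_f0, ph_t1, ph_t0, ph_f3]

private lemma ph_E_fft (X : List Bool) : E (false :: false :: true :: X) = (1, -2) + E (false :: X) := by
  have h1 : E (false :: X) = ep (1, -1) (1, -1) X := by simp [E, ep, ph_f0]
  have h2 : E (false :: false :: true :: X) = ep (2, -3) (1, -1) X := by simp [E, ep, ph_f0, ph_f1, ph_t2]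
  rw [h1, h2, ← sh_ep]
  rfl

private lemma ph_E_ft (X : List Bool) : E (false :: true :: X) = (1, -2) + E (true :: false :: X) := by
  have h1 : E (true :: false :: X) = ep (1, 1) (1, 0) X := by simp [E, ep, ph_t0, ph_f3]
  have h2 : E (false :: true :: X) = ep (2, -1) (1, 0) X := by simp [E, ep, ph_f0, ph_t1]
  rw [h1, h2, ← sh_ep]
  rfl

/-- Shifted tails. -/
private lemma ph_tail {W W' : List Bool} {b : Bool} {W2 : List Bool} {i : ℕ} (hD : Dr W = Dr W') (hE : E W = (1, -2) + E W')
    (h : ∀ z ∈ vs (E W' + tn b (Dr W')) (tn b (Dr W')) W2, 3 * (i : ℤ) ≤ F0 z) :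
    ∀ z ∈ vs (E W + tn b (Dr W)) (tn b (Dr W)) W2, 3 * (i : ℤ) ≤ F0 z := by
  rw [hD, hE, add_assoc, sh_vs]
  intro z hz
  obtain ⟨y, hy, rfl⟩ := List.mem_map.1 hz
  rw [sh_F0]
  exact h y hy

private lemma ph_ren {k : ℕ} {W : List Bool} (h : Br k W) (h0 : W.head? = some false) {i : ℕ} (hi : 1 ≤ i)
    (hr : Ren i (phi W)) : Ren i W := by
  obtain ⟨W1, b, W2, e, h1, h2⟩ := hr
  rcases ph_cases h h0 with rfl | ⟨X, rfl⟩ | ⟨X, rfl⟩
  · exfalso
    have e' : [true] = W1 ++ b :: W2 := e
    match W1, e' with
    | [], e' =>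
      simp only [List.nil_append, List.cons.injEq] at e'
      obtain ⟨rfl, rfl⟩ := e'
      have h3 := h2 (0, 1) (by decide)
      simp only [F0] at h3
      omega
    | c :: W1, e' => simp at e'
  · have e' : true :: false :: X = W1 ++ b :: W2 := e
    match W1, e' with
    | [], e' =>
      exfalso
      simp only [List.nil_append, List.cons.injEq] at e'
      obtain ⟨rfl, rfl⟩ := e'
      have h3 := h2 (0, 1) (by
        have : E [] + tn true (Dr []) = (0, 1) := by decide
        rw [this]
        exact head_mem _ _ _)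
      simp only [F0] at h3
      omega
    | [c], e' =>
      simp only [List.cons_append, List.nil_append, List.cons.injEq] at e'
      obtain ⟨rfl, rfl, rfl⟩ := e'
      refine ⟨[false], true, X, rfl, ?_, ?_⟩
      · intro z hz
        have : V [false] = [(0, 0), (1, -1)] := by decide
        rw [this] at hz
        simp only [List.mem_cons, List.not_mem_nil, or_false] at hz
        rcases hz with rfl | rfl <;> simp only [F0] <;> omega
      · have e3 : E [false] + tn true (Dr [false]) = (1, -2) + (E [true] + tn false (Dr [true])) := by decide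
        have e4 : tn true (Dr [false]) = tn false (Dr [true]) := by decide
        rw [e3, e4, sh_vs]
        intro z hz
        obtain ⟨y, hy, rfl⟩ := List.mem_map.1 hz
        rw [sh_F0]
        exact h2 y hy
    | c :: c' :: W1, e' =>
      simp only [List.cons_append, List.cons.injEq] at e'
      obtain ⟨rfl, rfl, rfl⟩ := e'
      refine ⟨false :: true :: W1, b, W2, rfl, ?_, ph_tail (ph_Dr_tf _) (ph_E_ft _) h2⟩
      intro z hz
      rw [V_ft] at hz
      rw [V_tf] at h1
      rcases List.mem_cons.1 hz with rfl | hz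
      · simp only [F0]; omega
      rcases List.mem_cons.1 hz with rfl | hz
      · simp only [F0]; omega
      have e2 : vs (2, -1) (1, 0) W1 = (vs (1, 1) (1, 0) W1).map (fun z => ((1, -2) : ℤ × ℤ) + z) := by
        rw [← sh_vs]; rfl
      rw [e2] at hz
      obtain ⟨y, hy, rfl⟩ := List.mem_map.1 hz
      change F0 ((1, -2) + y) < 3 * (i : ℤ)
      rw [sh_F0]
      exact h1 y (List.mem_cons_of_mem _ (List.mem_cons_of_mem _ hy))
  · have e' : false :: X = W1 ++ b :: W2 := e
    match W1, e' with
    | [], e' =>
      exfalso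
      simp only [List.nil_append, List.cons.injEq] at e'
      obtain ⟨rfl, rfl⟩ := e'
      have h3 := h2 (1, -1) (by
        have : E [] + tn false (Dr []) = (1, -1) := by decide
        rw [this]
        exact head_mem _ _ _)
      simp only [F0] at h3
      omega
    | c :: W1, e' =>
      simp only [List.cons_append, List.cons.injEq] at e'
      obtain ⟨rfl, rfl⟩ := e'
      refine ⟨false :: false :: true :: W1, b, W2, rfl, ?_, ph_tail (ph_Dr_fft _) (ph_E_fft _) h2⟩
      intro z hz
      rw [V_fft] at hz
      rcases List.mem_cons.1 hz with rfl | hz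
      · simp only [F0]; omega
      rcases List.mem_cons.1 hz with rfl | hz
      · simp only [F0]; omega
      have e2 : (1, -2) :: vs (2, -3) (1, -1) W1 = (V (false :: W1)).map (fun z => ((1, -2) : ℤ × ℤ) + z) := by
        rw [V_f, List.map_cons, ← sh_vs]
        rfl
      rw [e2] at hz
      obtain ⟨y, hy, rfl⟩ := List.mem_map.1 hz
      change F0 ((1, -2) + y) < 3 * (i : ℤ)
      rw [sh_F0]
      exact h1 y hy

theorem phi_irr {W : List Bool} (h : Irr W) (h0 : W.head? = some false) : Irr (phi W) := by
  obtain ⟨k, hk, hr⟩ := h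
  exact ⟨k, (phi_br hk h0).1, fun i hi hik h => hr i hi hik (ph_ren hk h0 hi h)⟩

/-- The map on blocks which start with `false` (identity otherwise). -/
noncomputable def phB (c : Blk) : Blk := by
  classical
  exact if h : c.1.head? = some false then ⟨phi c.1, phi_irr c.2 h⟩ else c

/-- The map on lists of blocks. -/
noncomputable def phL : List Blk → List Blk
  | [] => []
  | c :: l => phB c :: l

private lemma phB_pos {c : Blk} (h : c.1.head? = some false) : (phB c).1 = phi c.1 := by
  unfold phB
  rw [dif_pos h]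

private lemma phB_neg {c : Blk} (h : ¬ c.1.head? = some false) : phB c = c := by
  unfold phB
  rw [dif_neg h]

private lemma ph_ne (c : Blk) : c.1 ≠ [] := by
  intro h
  have h1 := c.2.br.2
  rw [h] at h1
  have e : E [] = (0, 0) := rfl
  rw [e] at h1
  simp only [F0] at h1
  omega

private lemma ph_head {c : Blk} {l : List Blk} (h0 : (jn (c :: l)).head? = some false) : c.1.head? = some false := by
  by_cases hl : l = []
  · subst hl
    exact h0
  · rw [jn_cons hl] at h0
    obtain ⟨a, W, e⟩ := List.exists_cons_of_ne_nil (ph_ne c)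
    rw [e] at h0 ⊢
    simpa using h0

theorem jn_phL {l : List Blk} (hl : l ≠ []) (h0 : (jn l).head? = some false) : jn (phL l) = phi (jn l) := by
  obtain ⟨c, l, rfl⟩ := List.exists_cons_of_ne_nil hl
  have hc := ph_head h0
  change jn (phB c :: l) = phi (jn (c :: l))
  by_cases hl' : l = []
  · subst hl'
    exact phB_pos hc
  rw [jn_cons hl', jn_cons hl', phB_pos hc]
  rcases ph_cases c.2.br hc with e | ⟨X, e⟩ | ⟨X, e⟩
  · rw [e]
    have e1 : rt (phi [false]) = false := by decide
    have e2 : rt [false] = true := by decide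
    rw [e1, e2]
    rfl
  · rw [e]
    have e1 : rt (phi (false :: true :: X)) = rt (false :: true :: X) := by
      change rt (true :: false :: X) = _
      unfold rt
      rw [ph_Dr_tf]
    rw [e1]
    rfl
  · rw [e]
    have e1 : rt (phi (false :: false :: true :: X)) = rt (false :: false :: true :: X) := by
      change rt (false :: X) = _
      unfold rt
      rw [ph_Dr_fft]
    rw [e1]
    rfl

theorem hj_phL (l : List Blk) : hj (phL l) = hj l := by
  match l with
  | [] => rfl
  | c :: l =>
    change hj (phB c :: l) = hj (c :: l)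
    rw [hj_cons, hj_cons]
    congr 1
    by_cases hc : c.1.head? = some false
    · rw [phB_pos hc]
      have h1 := (phi_br c.2.br hc).1
      have h2 := htw_br h1
      have h3 := htw_pos c.1
      omega
    · rw [phB_neg hc]

end Pool.Agent.BEX.F
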