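import Pool.Agent.BEX.F.Rvb
import Pool.Agent.BEX.F.Phi

/-!
BEX/F: a pair with the event of Q1 gives a pair of avoiding legs of a fold of HEP.

PAPER PROOF. `γ = jn l` starts to the left, `γ' = jn s` to the right. `X = jn ((uB :: l.map rvB).reverse) = jn (l.map rvB).reverse ++ rt _ :: [true] = rvb γ ++ rt (rvb γ) :: [true]` (`jn_append`, `jn_rv`), `Y = jn (phL s) = phi γ'`. In the frame in which `γ`
starts at `o` (turned by 180 degrees with respect to `X`): `X` walks along `γ` backwards to `o`, then to `b_0 = (-1, 0)`, `q = (-1, -1)` (end of `X`), fold vertex `fe X = b_1 = (0, -2)`, then `Y` starts at `(1, -2)`. `fw_V` (HEP/GFold) lists `V (fw X Y)`: the vertices of `X`, the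
fold vertex, the vertices of `Y` turned. Nodup: `V γ` has `F0 ≥ 0`, `F0 b_0 = F0 b_1 = -2`, `F0 q = -3`; a vertex of `phi γ'` (shifted by `(1, -2)`) is a vertex `≠ o` of `γ'`, so not in `γ` by `Q1`, or it is `(1, -2)`, not in `γ` by `phi_nb`; `F0 ≥ 0` for all of them.
-/

namespace Pool.Agent.BEX.F

open Pool.Agent.Hhelper14.SAW Pool.Agent.HHP Pool.Agent.HEP Pool.Agent.BEX.C
open scoped ENNReal

private lemma Fold_V1 : V [true] = [(0, 0), (0, 1)] := by decide

private lemma Fold_E1 : E [true] = (0, 1) := by decide

private lemma Fold_D1 : Dr [true] = (0, 1) := by decide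

theorem uB_irr : Irr [true] := by
  refine ⟨0, ⟨⟨?_, ?_⟩, ?_⟩, fun i h1 h2 => by omega⟩
  · rw [Fold_V1]; decide
  · intro z hz
    rw [Fold_V1] at hz
    simp only [List.mem_cons, List.not_mem_nil, or_false] at hz
    rcases hz with rfl | rfl <;> simp [F0]
  · rw [Fold_E1]; simp [F0]

/-- The minimal block (one column, two vertices). -/
def uB : Blk := ⟨[true], uB_irr⟩

private lemma Fold_phL_ne {s : List Blk} (hs : s ≠ []) : phL s ≠ [] := by
  cases s with
  | nil => exact absurd rfl hs
  | cons c s => simp [phL]

private lemma Fold_len {n : ℕ} {s : List Blk} (h : ∀ c ∈ s, c.1.length ≤ n) : ∀ c ∈ phL s, c.1.length ≤ n := by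
  cases s with
  | nil => intro c hc; simp [phL] at hc
  | cons c s =>
    intro d hd
    rw [phL, List.mem_cons] at hd
    rcases hd with rfl | hd
    · have h1 := h c (by simp)
      unfold phB
      split_ifs with h2
      · exact le_trans (phi_br c.2.br h2).2 h1
      · exact h1
    · exact h d (by simp [hd])

theorem fold_av {n : ℕ} (hn : 1 ≤ n) {l s : List Blk} (hl : l ≠ []) (hs0 : s ≠ []) (h1 : (jn l).head? = some true)
    (h2 : (jn s).head? = some false) (hQ : Q1 (jn l) (jn s)) (hlen : ∀ c ∈ l ++ s, c.1.length ≤ n) :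
    Avn n (uB :: l.map rvB) (phL s) := by
  refine ⟨?_, Or.inr (Or.inr ?_)⟩
  · intro c hc
    rw [List.mem_append, List.mem_cons] at hc
    rcases hc with (rfl | hc) | hc
    · exact hn
    · obtain ⟨d, hd, rfl⟩ := List.mem_map.1 hc
      rw [len_rvB]
      exact hlen d (List.mem_append_left _ hd)
    · exact Fold_len (fun c hc => hlen c (List.mem_append_right _ hc)) c hc
  · have hlr : (l.map rvB).reverse ≠ [] := by simpa using hl
    have hX : jn (uB :: l.map rvB).reverse = rvb (jn l) ++ rt (rvb (jn l)) :: [true] := by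
      rw [List.reverse_cons, jn_append hlr (by simp), jn_rv hl, jn_single]
      rfl
    obtain ⟨hb1, hb2, -, -, hb5⟩ := rvb_br (jn_Br hl)
    have hXB := jn_Br (l := (uB :: l.map rvB).reverse) (by simp)
    have hYB := jn_Br (Fold_phL_ne hs0)
    rw [hX] at hXB ⊢
    rw [jn_phL hs0 h2] at hYB ⊢
    set X := rvb (jn l) ++ rt (rvb (jn l)) :: [true] with hXdef
    set Y := phi (jn s) with hYdef
    obtain ⟨e1, e2, e3⟩ := app_right (Q := [true]) hb1.tn_rt
    rw [← hXdef] at e1 e2 e3
    rw [hb2] at e1 e2
    rw [Fold_V1] at e1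
    rw [Fold_E1] at e2
    rw [Fold_D1] at e3
    have hrt : rt X = false := by unfold rt; rw [e3]; decide
    have hfe : fe X = E (jn l) + (0, 2) := by
      rw [fe_eq, hrt, e2, e3]
      have : tn (!false) ((0 : ℤ), (1 : ℤ)) = (-1, 1) := by decide
      rw [this]
      ext <;> simp <;> ring
    have hmX : ∀ z ∈ V X, E (jn l) - z ∈ V (jn l) ∨ z = E (jn l) + (1, 0) ∨ z = E (jn l) + (1, 1) := by
      intro z hz
      rw [e1, List.mem_append] at hz
      rcases hz with hz | hz
      · exact Or.inl ((hb5 z).1 hz)
      · right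
        simp only [List.map_cons, List.map_nil, List.mem_cons, List.not_mem_nil, or_false] at hz
        rcases hz with rfl | rfl
        · left; ext <;> simp
        · right; ext <;> simp
    have hγ0 := (jn_Br hl).1.2
    rw [(fw_V hXB Y).1, List.nodup_append, List.nodup_cons]
    refine ⟨hXB.1.1, ⟨?_, ?_⟩, ?_⟩
    · intro h
      obtain ⟨y, hy, he⟩ := List.mem_map.1 h
      have h3 := (hYB.1.2 y hy).1
      have h4 := congrArg F0 he
      rw [F0_sub, F0_add] at h4
      simp only [F0] at h4 h3
      omega
    · refine List.Nodup.map (fun x y hxy => ?_) hYB.1.1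
      simpa using hxy
    · intro a ha b hb hab
      subst hab
      rcases List.mem_cons.1 hb with rfl | hb
      · rcases hmX _ ha with h | h | h
        · have := (hγ0 _ h).1
          rw [hfe] at this
          simp only [F0, Prod.fst_sub, Prod.snd_sub, Prod.fst_add, Prod.snd_add] at this
          omega
        · rw [hfe] at h
          have := congrArg Prod.fst h
          simp at this
        · rw [hfe] at h
          have := congrArg Prod.fst h
          simp at this
      · obtain ⟨y, hy, he⟩ := List.mem_map.1 hb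
        have hy0 := (hYB.1.2 y hy).1
        have he' : E (jn l) - a = y + (1, -2) := by
          rw [← he, hfe]
          ext <;> simp <;> ring
        rcases hmX _ ha with h | h | h
        · rw [he'] at h
          rcases phi_V (jn_Br hs0) h2 hy with ⟨h3, h4⟩ | h3
          · exact h4 (hQ _ h h3)
          · refine phi_nb (jn_Br hs0) h2 (jn_Br hl) h1 hQ ?_
            rw [h3] at h
            have e : ((0, 0) : ℤ × ℤ) + (1, -2) = (1, -2) := by ext <;> simp
            rwa [e] at h
        · rw [h] at he'
          have g1 := congrArg Prod.fst he'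
          have g2 := congrArg Prod.snd he'
          simp only [F0, Prod.fst_sub, Prod.snd_sub, Prod.fst_add, Prod.snd_add] at g1 g2 hy0
          omega
        · rw [h] at he'
          have g1 := congrArg Prod.fst he'
          have g2 := congrArg Prod.snd he'
          simp only [F0, Prod.fst_sub, Prod.snd_sub, Prod.fst_add, Prod.snd_add] at g1 g2 hy0
          omega

end Pool.Agent.BEX.F
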