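import Pool.Agent.Hhelper14.SAW.Defs

/-!
Two independent infinite critical bridges (half-plane self-avoiding walks) on the honeycomb lattice.

The half plane is `Re z ≥ 0`, `0` is a vertex of its left column. Column `j` = vertices with `Re z = 3j/2` or `(3j+1)/2`.
-/

namespace Pool.Agent.BEX.Half

open Pool.Agent.Hhelper14.Honeycomb

/-- Bridges of `M` columns: self-avoiding paths `w = (w_0, ..., w_m)` (written as lists) of the honeycomb lattice with
`w_0 = 0`, all vertices in the strip `0 ≤ Re z ≤ (3M-2)/2` (the columns `0, ..., M-1`) and `Re w_m = (3M-2)/2`. -/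
def Bridge (M : ℕ) : Set (List ℂ) :=
  {w | w.head? = some 0 ∧ (∀ z ∈ w, z ∈ V ∧ 0 ≤ z.re ∧ z.re ≤ (3 * M - 2) / 2) ∧
    w.IsChain (fun x y => dist x y = 1) ∧ w.Nodup ∧ ∀ z ∈ w.getLast?, z.re = (3 * M - 2) / 2}

/-- `k` is a renewal level of the path: it crosses the line `Re z = (3k-1)/2` between the columns `k-1` and `k` exactly
once. -/
def Renewal (k : ℕ) (w : List ℂ) : Prop :=
  ∃ u v : List ℂ, u ≠ [] ∧ v ≠ [] ∧ w = u ++ v ∧ (∀ z ∈ u, z.re < (3 * k - 1) / 2) ∧
    ∀ z ∈ v, (3 * k - 1) / 2 < z.re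

/-- The possible values of the infinite bridge stopped at its first renewal level `≥ N`: the bridges of `M ≥ N` columns
(any `M`) without renewal level `k`, `N ≤ k < M`. -/
def Stopped (N : ℕ) : Set (List ℂ) :=
  {w | ∃ M : ℕ, N ≤ M ∧ w ∈ Bridge M ∧ ∀ k : ℕ, N ≤ k → k < M → ¬ Renewal k w}

/-- The critical weight `μ_L^(-number of vertices)`. -/
noncomputable def wt (w : List ℂ) : ℝ := (1 / muL) ^ w.length

/-- The pairs `(w, w')` of stopped bridges with `w{1,...} ∩ w'{0,...} = ∅`. -/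
def Avoid (N : ℕ) : Set (List ℂ × List ℂ) :=
  {q | q.1 ∈ Stopped N ∧ q.2 ∈ Stopped N ∧ ∀ z ∈ q.1.tail, z ∉ q.2}

/-- The probability that `w{1,...}` and `w'{0,...}` are disjoint, for two independent stopped bridges `w, w'`, each
chosen with its weight as probability. -/
noncomputable def P (N : ℕ) : ℝ := ∑' q : Avoid N, wt q.1.1 * wt q.1.2

end Pool.Agent.BEX.Half
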