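import Pool.Agent.BEX.F.Defs
import Pool.Agent.HEP.RnWord

/-!
BEX/F: words and blocks.

PAPER PROOF. `jn_surj`, `jn_inj`, `jn_length`, `jn_Br`, `jn_ren`, `jn_not_ren` (HEP/GFac): `W = jn l` is a bijection between bridges and
nonempty lists, `hj l` = number of columns, the renewal levels of `jn l` are exactly the heights of the proper nonempty prefixes of
`l`. `Sp_iff`: for `l ≠ []`, `N ≥ 1`: `Sp N (jn l) ↔ StB N l` (if `hj l.dropLast ≥ N` then `hj l.dropLast` is a renewal level in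
`[N, hj l)`; conversely a renewal level in `[N, hj l)` is the height of a proper prefix, which is `≤ hj l.dropLast`). `StB N l` with
`N ≥ 1` forces `l ≠ []`. Then `PN_eq`, `DN_eq` as in `HEP/GJn.tsum_jn` (twice). `Sp_total`: `∑' l, ind (StB N l) * wj l = 1`:
`tsum_w_Lam` for `N - 1` and: `StB N l` iff `l = l0 ++ [c]` with `hj l0 ≤ N - 1 < hj l0 + htw c`. `QB_pre`: the vertices of a prefix
are vertices of the word (`jn_append`, `V_append`). Everything about `(hs n)` unfolds: `(hs n).h = hj`, `(hs n).w = wj` by `rfl`.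
-/

namespace Pool.Agent.BEX.F

open Pool.Agent.Hhelper14.SAW Pool.Agent.HHP Pool.Agent.HEP Pool.Agent.BEX.C
open scoped ENNReal

private lemma snoc_ex {l : List Blk} (hl : l ≠ []) : ∃ l0 c, l = l0 ++ [c] :=
  ⟨l.dropLast, l.getLast hl, (List.dropLast_append_getLast hl).symm⟩

private lemma hj_snoc (l : List Blk) (c : Blk) : hj (l ++ [c]) = hj l + htw c.1 := by
  rw [hj_append, hj_cons, hj_nil, add_zero]

theorem Sp_iff {N : ℕ} (hN : 1 ≤ N) {l : List Blk} (hl : l ≠ []) : Sp N (jn l) ↔ StB N l := by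
  obtain ⟨l0, c, rfl⟩ := snoc_ex hl
  have hbr := jn_Br hl
  have hpos := hj_pos hl
  have hjc := hj_snoc l0 c
  have hcp := htw_pos c.1
  have hSp : Sp N (jn (l0 ++ [c])) ↔
      N ≤ hj (l0 ++ [c]) ∧ ∀ i, N ≤ i → i ≤ hj (l0 ++ [c]) - 1 → ¬ Ren i (jn (l0 ++ [c])) := by
    constructor
    · rintro ⟨k, hk, h1, h2⟩
      have e : k = hj (l0 ++ [c]) - 1 := by
        have h3 := hk.2
        have h4 := hbr.2
        omega
      subst e
      exact ⟨by omega, h2⟩
    · rintro ⟨h1, h2⟩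
      exact ⟨_, hbr, by omega, h2⟩
  have hSt : StB N (l0 ++ [c]) ↔ N ≤ hj (l0 ++ [c]) ∧ hj l0 < N := by
    unfold StB
    rw [List.dropLast_concat]
  rw [hSp, hSt]
  refine and_congr_right fun hN' => ?_
  constructor
  · intro h
    by_contra hlt
    rw [not_lt] at hlt
    have hl0 : l0 ≠ [] := by
      rintro rfl
      rw [hj_nil] at hlt
      omega
    have hp0 := hj_pos hl0
    have h3 := (join (jn_Br hl0) (jn_In (l := [c]) (by simp))).2
    rw [← jn_append hl0 (by simp), show hj l0 - 1 + 1 = hj l0 by omega] at h3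
    exact h (hj l0) hlt (by omega) h3
  · intro h i hi hi' hr
    by_cases hl0 : l0 = []
    · subst hl0
      rw [List.nil_append] at hr
      rw [hj_nil] at hjc
      exact jn_not_ren (l := []) c (by omega) (by omega) hr
    · have hp0 := hj_pos hl0
      rw [jn_append hl0 (by simp)] at hr
      have h4 := (ren_high (jn_Br hl0) (jn_In (l := [c]) (by simp)) (j := i - hj l0) (by omega)).1
        (by rwa [show hj l0 - 1 + 1 + (i - hj l0) = i by omega])
      exact jn_not_ren (l := []) c (by omega) (by omega) h4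

private lemma ms_bij {A : List Bool → Prop} {A' : List Blk → Prop} (h0 : ∀ l, A' l → l ≠ [])
    (h1 : ∀ l, l ≠ [] → (A (jn l) ↔ A' l)) (h2 : ∀ W, A W → ∃ k, Br k W) :
    ms xE A = ∑' l : List Blk, ind (A' l) * wj l := by
  classical
  unfold ms
  let φ : {l : List Blk // A' l} → {W : List Bool // A W} := fun l => ⟨jn l.1, (h1 l.1 (h0 _ l.2)).2 l.2⟩
  have hφ : Function.Bijective φ := by
    constructor
    · intro l l' h
      exact Subtype.ext (jn_inj (h0 _ l.2) (h0 _ l'.2) (congrArg Subtype.val h))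
    · rintro ⟨W, hW⟩
      obtain ⟨k, hk⟩ := h2 W hW
      obtain ⟨l, hl, h3, h4⟩ := jn_surj hk
      exact ⟨⟨l, (h1 l hl).1 (by rw [h3]; exact hW)⟩, Subtype.ext h3⟩
  rw [← (Equiv.ofBijective φ hφ).tsum_eq]
  have h3 : ∀ l : {l : List Blk // A' l},
      xE ^ (((Equiv.ofBijective φ hφ) l).1.length + 1) = wj l.1 := fun l => (jn_length (h0 _ l.2)).symm
  rw [tsum_congr h3]
  refine (tsum_subtype {l : List Blk | A' l} wj).trans (tsum_congr fun l => ?_)
  by_cases h : A' l
  · rw [Set.indicator_of_mem (by exact h), ind_true h, one_mul]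
  · rw [Set.indicator_of_notMem (by exact h), ind_false h, zero_mul]

private lemma ms2_bij {A : List Bool → Prop} {A' : List Blk → Prop} (h0 : ∀ l, A' l → l ≠ [])
    (h1 : ∀ l, l ≠ [] → (A (jn l) ↔ A' l)) (h2 : ∀ W, A W → ∃ k, Br k W) :
    ms2 xE (fun p => A p.1 ∧ A p.2 ∧ Q1 p.1 p.2) =
      ∑' l : List Blk, ∑' s : List Blk, ind (A' l ∧ A' s ∧ QB l s) * (wj l * wj s) := by
  classical
  rw [← ENNReal.tsum_prod (f := fun l s => ind (A' l ∧ A' s ∧ QB l s) * (wj l * wj s))]
  unfold ms2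
  have hQ : ∀ l s : List Blk, l ≠ [] → s ≠ [] → (Q1 (jn l) (jn s) ↔ QB l s) := by
    intro l s hl hs
    unfold QB
    simp only [hl, hs, false_or]
  let φ : {p : List Blk × List Blk // A' p.1 ∧ A' p.2 ∧ QB p.1 p.2} →
      {p : List Bool × List Bool // A p.1 ∧ A p.2 ∧ Q1 p.1 p.2} := fun p =>
    ⟨(jn p.1.1, jn p.1.2), (h1 _ (h0 _ p.2.1)).2 p.2.1, (h1 _ (h0 _ p.2.2.1)).2 p.2.2.1,
      (hQ _ _ (h0 _ p.2.1) (h0 _ p.2.2.1)).2 p.2.2.2⟩
  have hφ : Function.Bijective φ := by
    constructor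
    · intro p p' h
      have h3 : (jn p.1.1, jn p.1.2) = (jn p'.1.1, jn p'.1.2) := congrArg Subtype.val h
      rw [Prod.mk.injEq] at h3
      exact Subtype.ext (Prod.ext (jn_inj (h0 _ p.2.1) (h0 _ p'.2.1) h3.1)
        (jn_inj (h0 _ p.2.2.1) (h0 _ p'.2.2.1) h3.2))
    · rintro ⟨⟨W, W'⟩, hW, hW', hQW⟩
      dsimp only at hW hW' hQW
      obtain ⟨k, hk⟩ := h2 W hW
      obtain ⟨k', hk'⟩ := h2 W' hW'
      obtain ⟨l, hl, h3, -⟩ := jn_surj hk
      obtain ⟨s, hs, h4, -⟩ := jn_surj hk'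
      refine ⟨⟨(l, s), (h1 l hl).1 (by rw [h3]; exact hW), (h1 s hs).1 (by rw [h4]; exact hW'),
        (hQ l s hl hs).1 (by rw [h3, h4]; exact hQW)⟩, Subtype.ext (Prod.ext h3 h4)⟩
  rw [← (Equiv.ofBijective φ hφ).tsum_eq]
  have h3 : ∀ p : {p : List Blk × List Blk // A' p.1 ∧ A' p.2 ∧ QB p.1 p.2},
      xE ^ (((Equiv.ofBijective φ hφ) p).1.1.length + 1) * xE ^ (((Equiv.ofBijective φ hφ) p).1.2.length + 1) =
        wj p.1.1 * wj p.1.2 := fun p => by
    rw [jn_length (h0 _ p.2.1), jn_length (h0 _ p.2.2.1)]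
    rfl
  rw [tsum_congr h3]
  refine (tsum_subtype {p : List Blk × List Blk | A' p.1 ∧ A' p.2 ∧ QB p.1 p.2}
    (fun p => wj p.1 * wj p.2)).trans (tsum_congr fun p => ?_)
  by_cases h : A' p.1 ∧ A' p.2 ∧ QB p.1 p.2
  · rw [Set.indicator_of_mem (by exact h), ind_true h, one_mul]
  · rw [Set.indicator_of_notMem (by exact h), ind_false h, zero_mul]

private lemma StB_ne {N : ℕ} (hN : 1 ≤ N) (l : List Blk) (h : StB N l) : l ≠ [] := by
  rintro rfl
  have h1 := h.1
  rw [hj_nil] at h1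
  omega

theorem PN_eq {N : ℕ} (hN : 1 ≤ N) : PN N = PB N := by
  unfold PN PB
  refine ms2_bij (A := Sp N) (A' := StB N) (StB_ne hN) (fun l hl => Sp_iff hN hl) ?_
  rintro W ⟨k, hk, -⟩
  exact ⟨k, hk⟩

theorem DN_eq {N : ℕ} (hN : 1 ≤ N) : DN N = DB N := by
  unfold DN DB
  refine ms2_bij (A := Br (N - 1)) (A' := fun l => hj l = N) ?_ ?_ ?_
  · rintro l h rfl
    rw [hj_nil] at h
    omega
  · intro l hl
    have h1 := jn_Br hl
    have h2 := hj_pos hl
    constructor
    · intro h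
      have h3 := h.2
      have h4 := h1.2
      omega
    · rintro rfl
      exact h1
  · intro W hW
    exact ⟨_, hW⟩

private lemma hj_reverse (l : List Blk) : hj l.reverse = hj l := by
  unfold hj
  rw [List.map_reverse, List.sum_reverse]

private lemma wj_reverse (l : List Blk) : wj l.reverse = wj l := by
  unfold wj
  rw [List.map_reverse, List.prod_reverse]

private lemma sum_StB {N : ℕ} (hN : 1 ≤ N) : ∑' l : List Blk, ind (StB N l) * wj l = 1 := by
  have e1 : ∑' l : List Blk, ind (StB N l) * wj l = ∑' l : List Blk, ind (StB N l.reverse) * wj l.reverse := by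
    let e : List Blk ≃ List Blk := ⟨List.reverse, List.reverse, List.reverse_reverse, List.reverse_reverse⟩
    exact (e.tsum_eq (fun l => ind (StB N l) * wj l)).symm
  rw [e1, Alph.tsum_list (fun l : List Blk => ind (StB N l.reverse) * wj l.reverse)]
  have e2 : ind (StB N ([] : List Blk).reverse) * wj ([] : List Blk).reverse = 0 := by
    rw [List.reverse_nil, ind_false (fun h => StB_ne hN _ h rfl), zero_mul]
  rw [e2, zero_add, ENNReal.tsum_comm]
  have h := (hs 1).toAlph.tsum_w_Lam (N - 1)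
  rw [← h]
  refine tsum_congr fun l => ?_
  change _ = ind (hj l ≤ N - 1) * (wj l * ∑' c : Blk, ind (N - 1 - hj l < htw c.1) * xE ^ (c.1.length + 1))
  rw [← ENNReal.tsum_mul_left, ← ENNReal.tsum_mul_left]
  refine tsum_congr fun c => ?_
  have hSt : StB N (c :: l).reverse ↔ (hj l ≤ N - 1 ∧ N - 1 - hj l < htw c.1) := by
    unfold StB
    rw [List.reverse_cons, List.dropLast_concat, hj_snoc, hj_reverse]
    omega
  rw [ind_congr hSt, ind_and, wj_reverse, wj_cons]
  ring

theorem Sp_total {N : ℕ} (hN : 1 ≤ N) : ms xE (Sp N) = 1 := by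
  rw [ms_bij (A := Sp N) (A' := StB N) (StB_ne hN) (fun l hl => Sp_iff hN hl)
    (by rintro W ⟨k, hk, -⟩; exact ⟨k, hk⟩), sum_StB hN]

private lemma V_pre {l l' : List Blk} (hl : l ≠ []) {z : ℤ × ℤ} (hz : z ∈ V (jn l)) : z ∈ V (jn (l ++ l')) := by
  by_cases h : l' = []
  · subst h
    rwa [List.append_nil]
  · rw [jn_append hl h, (app_right (jn_Br hl).tn_rt).1]
    exact List.mem_append_left _ hz

theorem QB_pre {l l' s s' : List Blk} (h : QB (l ++ l') (s ++ s')) : QB l s := by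
  unfold QB at h ⊢
  by_cases hl : l = []
  · exact Or.inl hl
  by_cases hs : s = []
  · exact Or.inr (Or.inl hs)
  right; right
  rcases h with h | h | h
  · exact absurd (List.append_eq_nil_iff.1 h).1 hl
  · exact absurd (List.append_eq_nil_iff.1 h).1 hs
  · exact fun z hz hz' => h z (V_pre hl hz) (V_pre hs hz')

end Pool.Agent.BEX.F
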