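import Pool.Agent.BEX.F.Defs

/-!
BEX/F: reversal of bridges and blocks.

PAPER PROOF. `W = [t_1, ..., t_n]`, vertices `v_0 = o, ..., v_n`, `t_i` = turn at `v_(i-1)`, `t_(n+1) = rt W` = the exit turn at `v_n` (direction `(1, 0)` after it). The reversed path, turned by
180 degrees about the middle of `o` and `v_n`, has the vertices `v_n - v_n, v_n - v_(n-1), ..., v_n - v_0`, enters with direction `(1, 0)`, its turns are `! t_(n+1), ! t_n, ..., ! t_2` (exit turn
`! t_1`). The general reversal lemma for `vs` is in `HEP/GRev` (private `GRev_rev`; copy its proof, `rt` instead of `lt`). `F0 (v_n - v) = 3 k + 1 - F0 v`. Renewal levels: `Ren i W ↔ Ren (k + 1 - i) (rvb W)` for a bridge of `k + 1`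
columns; hence irreducible bridges are mapped to irreducible bridges. `rvb (P ++ rt P :: Q) = rvb Q ++ rt (rvb Q) :: rvb P` for bridges `P`, `Q`, hence `jn_rv`.
-/

namespace Pool.Agent.BEX.F

open Pool.Agent.Hhelper14.SAW Pool.Agent.HHP Pool.Agent.HEP Pool.Agent.BEX.C
open scoped ENNReal

private lemma Rvb_tn (a : Bool) (d : ℤ × ℤ) : tn (!a) (tn a d) = d := by
  obtain ⟨x, y⟩ := d
  cases a <;> simp [tn, L, R]

/-- the reversal lemma -/
private lemma Rvb_rev (A : List Bool) : ∀ (p d : ℤ × ℤ) (b c : Bool) (T : List Bool), A ++ [b] = c :: T →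
    vs (ep p d A) (-tn b (ed d A)) ((T.reverse).map (! ·)) = (vs p d A).reverse ∧
      ep (ep p d A) (-tn b (ed d A)) ((T.reverse).map (! ·)) = p ∧
      ed (-tn b (ed d A)) ((T.reverse).map (! ·)) = -tn c d := by
  induction A with
  | nil =>
    intro p d b c T h
    simp only [List.nil_append, List.cons.injEq] at h
    obtain ⟨rfl, rfl⟩ := h
    simp [vs, ep, ed]
  | cons a A ih =>
    intro p d b c T h
    simp only [List.cons_append, List.cons.injEq] at h
    obtain ⟨rfl, rfl⟩ := h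
    obtain ⟨a', T', hT⟩ : ∃ a' T', A ++ [b] = a' :: T' := by
      cases A with
      | nil => exact ⟨b, [], rfl⟩
      | cons x A => exact ⟨x, A ++ [b], rfl⟩
    obtain ⟨h1, h2, h3⟩ := ih (p + tn a d) (tn a d) b a' T' hT
    have hX : ((A ++ [b]).reverse).map (! ·) = (T'.reverse).map (! ·) ++ [!a'] := by
      rw [hT, List.reverse_cons, List.map_append]
      rfl
    have e1 : ep p d (a :: A) = ep (p + tn a d) (tn a d) A := rfl
    have e2 : ed d (a :: A) = ed (tn a d) A := rfl
    have e3 : vs p d (a :: A) = p :: vs (p + tn a d) (tn a d) A := rfl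
    have e4 : tn (!a') (-tn a' (tn a d)) = -tn a d := by rw [tn_neg, Rvb_tn]
    have e5 : p + tn a d + -tn a d = p := by rw [add_neg_cancel_right]
    rw [hX, e1, e2, e3]
    refine ⟨?_, ?_, ?_⟩
    · rw [vs_append, h1, h2, h3, e4, e5, List.reverse_cons]
      rfl
    · rw [ep_append, h2, h3]
      show p + tn a d + tn (!a') (-tn a' (tn a d)) = p
      rw [e4, e5]
    · rw [ed_append, h3]
      show tn (!a') (-tn a' (tn a d)) = -tn a d
      exact e4

/-- The reversed word in terms of the splitting of the word with its exit turn. -/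
private lemma Rvb_split (W : List Bool) : ∃ a T, W ++ [rt W] = a :: T ∧ rvb W = (T.reverse).map (! ·) := by
  obtain ⟨a, T, hT⟩ : ∃ a T, W ++ [rt W] = a :: T := by
    cases W with
    | nil => exact ⟨rt [], [], rfl⟩
    | cons x A => exact ⟨x, A ++ [rt (x :: A)], rfl⟩
  exact ⟨a, T, hT, by rw [rvb, hT, List.tail_cons]⟩

private lemma Rvb_map (E0 : ℤ × ℤ) (A B : List (ℤ × ℤ)) (h : A.map (fun z => E0 - z) = B) :
    A = B.map (fun z => E0 - z) := by
  rw [← h, List.map_map]
  have : ((fun z : ℤ × ℤ => E0 - z) ∘ fun z => E0 - z) = id := by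
    funext z
    simp
  rw [this, List.map_id]

/-- Vertices, end and exit of the reversed bridge. -/
private lemma Rvb_spec {k : ℕ} {W : List Bool} (h : Br k W) {a : Bool} {T : List Bool} (hT : W ++ [rt W] = a :: T)
    (hr : rvb W = (T.reverse).map (! ·)) :
    V (rvb W) = ((V W).reverse).map (fun z => E W - z) ∧ E (rvb W) = E W ∧ Dr (rvb W) = tn a (1, 0) ∧
      rt (rvb W) = !a := by
  have hrt : tn (rt W) (Dr W) = (1, 0) := h.tn_rt
  have hneg : -((1, 0) : ℤ × ℤ) = (-1, 0) := by ext <;> simp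
  obtain ⟨h1, h2, h3⟩ := Rvb_rev W (0, 0) (1, 0) (rt W) a T hT
  have e1 : ep (0, 0) (1, 0) W = E W := rfl
  have e2 : ed (1, 0) W = Dr W := rfl
  have e3 : vs (0, 0) (1, 0) W = V W := rfl
  rw [e1, e2, hrt, hneg, ← hr] at h1 h2
  rw [e2, hrt, hneg, ← hr, ed_left] at h3
  rw [e3, vs_left] at h1
  rw [ep_left] at h2
  have hD : Dr (rvb W) = tn a (1, 0) := neg_injective h3
  refine ⟨Rvb_map _ _ _ h1, ?_, hD, ?_⟩
  · have h0 : ((0, 0) : ℤ × ℤ) = 0 := rfl
    rw [h0] at h2
    exact (sub_eq_zero.1 h2).symm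
  · symm
    apply rt_unique
    rw [hD, Rvb_tn]

private lemma Rvb_rvb {k : ℕ} {W : List Bool} (h : Br k W) : rvb (rvb W) = W := by
  obtain ⟨a, T, hT, hr⟩ := Rvb_split W
  obtain ⟨-, -, -, hl⟩ := Rvb_spec h hT hr
  have hw : rvb W ++ [rt (rvb W)] = (!rt W) :: (W.reverse).map (! ·) := by
    rw [hl, hr]
    have h5 : (T.reverse).map (! ·) ++ [!a] = ((a :: T).reverse).map (! ·) := by
      rw [List.reverse_cons, List.map_append]
      rfl
    rw [h5, ← hT, List.reverse_append]
    rfl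
  rw [rvb, hw, List.tail_cons, ← List.map_reverse, List.reverse_reverse, List.map_map]
  have : ((fun x => !x) ∘ fun x => !x) = (id : Bool → Bool) := by
    funext x
    simp
  rw [this, List.map_id]

theorem rvb_br {k : ℕ} {W : List Bool} (h : Br k W) : Br k (rvb W) ∧ E (rvb W) = E W ∧ (rvb W).length = W.length ∧
    rvb (rvb W) = W ∧ ∀ z, z ∈ V (rvb W) ↔ E W - z ∈ V W := by
  obtain ⟨a, T, hT, hr⟩ := Rvb_split W
  obtain ⟨hV, hE, -, -⟩ := Rvb_spec h hT hr
  have hmem : ∀ z, z ∈ V (rvb W) ↔ E W - z ∈ V W := by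
    intro z
    rw [hV, List.mem_map]
    constructor
    · rintro ⟨w, hw, rfl⟩
      rw [List.mem_reverse] at hw
      rwa [sub_sub_cancel]
    · intro hz
      exact ⟨E W - z, by rwa [List.mem_reverse], by rw [sub_sub_cancel]⟩
  refine ⟨⟨⟨?_, fun z hz => ?_⟩, ?_⟩, hE, ?_, Rvb_rvb h, hmem⟩
  · rw [hV]
    refine List.Nodup.map (fun z w hzw => ?_) (List.nodup_reverse.2 h.1.1)
    exact sub_right_injective hzw
  · have h1 := h.1.2 _ ((hmem z).1 hz)
    rw [F0_sub, h.2] at h1
    constructor <;> linarith [h1.1, h1.2]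
  · rw [hE, h.2]
  · rw [hr, List.length_map, List.length_reverse]
    have := congrArg List.length hT
    simp only [List.length_append, List.length_cons, List.length_nil] at this
    omega

/-- Reversal of a concatenation. -/
private lemma Rvb_app {j k : ℕ} {P Q : List Bool} (hP : Br j P) (hQ : Br k Q) :
    rvb (P ++ rt P :: Q) = rvb Q ++ rt (rvb Q) :: rvb P := by
  obtain ⟨a, T, hT, hr⟩ := Rvb_split P
  obtain ⟨a', T', hT', hr'⟩ := Rvb_split Q
  obtain ⟨-, -, -, hl⟩ := Rvb_spec hQ hT' hr'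
  have hrt : rt (P ++ rt P :: Q) = rt Q := by
    show decide (Dr (P ++ rt P :: Q) = (1, -1)) = decide (Dr Q = (1, -1))
    rw [(app_right hP.tn_rt).2.2]
  have h1 : (P ++ rt P :: Q) ++ [rt (P ++ rt P :: Q)] = a :: (T ++ a' :: T') := by
    rw [hrt]
    have h2 : (P ++ rt P :: Q) ++ [rt Q] = (P ++ [rt P]) ++ (Q ++ [rt Q]) := by simp
    rw [h2, hT, hT']
    rfl
  rw [rvb, h1, List.tail_cons, hl, hr, hr', List.reverse_append, List.reverse_cons, List.map_append, List.map_append]
  simp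

theorem rvb_irr {W : List Bool} (h : Irr W) : Irr (rvb W) := by
  obtain ⟨k, hk, hn⟩ := h
  have hR := rvb_br hk
  refine ⟨k, hR.1, fun i hi hik hr => ?_⟩
  obtain ⟨P, Q, e, hP, hQ⟩ := ren_split hR.1.1 hi hik hr
  have hQB : Br (k - i) Q := by
    refine ⟨hQ, ?_⟩
    have h4 := hR.1.2
    rw [e, (app_right hP.tn_rt).2.1, F0_add, F0_add, hP.2] at h4
    have e1 : ((i - 1 : ℕ) : ℤ) = (i : ℤ) - 1 := by omega
    have e2 : ((k - i : ℕ) : ℤ) = (k : ℤ) - i := by omega
    have e3 : F0 ((1 : ℤ), (0 : ℤ)) = 2 := by simp [F0]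
    rw [e1, e3] at h4
    rw [e2]
    linarith
  have e4 : W = rvb Q ++ rt (rvb Q) :: rvb P := by
    rw [← Rvb_app hP hQB, ← e, hR.2.2.2.1]
  have h5 := (join (rvb_br hQB).1 (rvb_br hP).1.1).2
  rw [← e4] at h5
  exact hn (k - i + 1) (by omega) (by omega) h5

/-- Reversed block. -/
def rvB (c : Blk) : Blk := ⟨rvb c.1, rvb_irr c.2⟩

theorem rvB_rvB (c : Blk) : rvB (rvB c) = c :=
  Subtype.ext (rvb_br c.2.br).2.2.2.1

theorem htw_rvB (c : Blk) : htw (rvB c).1 = htw c.1 := by
  show htw (rvb c.1) = htw c.1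
  unfold htw
  rw [(rvb_br c.2.br).2.1]

theorem len_rvB (c : Blk) : (rvB c).1.length = c.1.length :=
  (rvb_br c.2.br).2.2.1

/-- The list of blocks `l` read from `o` outward; the reversed path has the reversed blocks in reversed order. -/
theorem jn_rv {l : List Blk} (hl : l ≠ []) : jn (l.map rvB).reverse = rvb (jn l) := by
  induction l with
  | nil => exact absurd rfl hl
  | cons c m ih =>
    by_cases h : m = []
    · subst h
      rfl
    · have h1 : (m.map rvB).reverse ≠ [] := by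
        simpa using h
      rw [List.map_cons, List.reverse_cons, jn_append h1 (by simp), jn_single, ih h, jn_cons h,
        Rvb_app c.2.br (jn_Br h)]
      rfl

end Pool.Agent.BEX.F
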