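import Pool.Agent.BEX.F.Red
import Pool.Agent.HEP.GC1

/-!
BEX/F: second moment, the lower bound of `P_N`.

PAPER PROOF. A pair `(l, s)` counted in `DB h`, `N ≤ h ≤ M`, is `(l1 ++ l2, s1 ++ s2)` with `StB N l1`, `StB N s1` (the shortest prefixes of height
`≥ N`, unique), `QB l1 s1` by `QB_pre`, `hj l2 = h - hj l1`, `hj s2 = h - hj s1`. The sum over `l2`, `s2` is `b (h - hj l1) * b (h - hj s1)`, which is
`≤ b (h - max) ^ 2` since `b` is antitone (`(hs_hyp 1 le_rfl).anti`); the sum over `h ∈ [max, M]` is at most `∑ k ≤ M, b k ^ 2`.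
(Uniqueness of the cut: injection `(h, l, s) ↦ (h, l1, s1, l2, s2)`, as `l = l1 ++ l2`; `wj_append`, `hj_append`.)
-/

namespace Pool.Agent.BEX.F

open Pool.Agent.Hhelper14.SAW Pool.Agent.HHP Pool.Agent.HEP Pool.Agent.BEX.C
open scoped ENNReal

section Abs

variable (A : Alph)

private lemma sec_split {l : List A.B} : ∀ {N : ℕ}, 1 ≤ N → N ≤ A.h l →
    ∃ l1 l2, l = l1 ++ l2 ∧ N ≤ A.h l1 ∧ A.h l1.dropLast < N := by
  induction l with
  | nil =>
    intro N h1 h2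
    rw [A.h_nil] at h2
    omega
  | cons c l ih =>
    intro N h1 h2
    rw [A.h_cons] at h2
    by_cases hc : N ≤ A.ht c
    · refine ⟨[c], l, rfl, ?_, ?_⟩
      · rw [A.h_cons, A.h_nil]; omega
      · change A.h [] < N
        rw [A.h_nil]; omega
    · obtain ⟨l1, l2, e, h3, h4⟩ := ih (N := N - A.ht c) (by omega) (by omega)
      refine ⟨c :: l1, l2, by rw [e]; rfl, by rw [A.h_cons]; omega, ?_⟩
      have hne : l1 ≠ [] := by
        rintro rfl
        rw [A.h_nil] at h3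
        omega
      rw [List.dropLast_cons_of_ne_nil hne, A.h_cons]
      omega

private lemma sec_tsum {N : ℕ} (hN : 1 ≤ N) (F : List A.B → ℝ≥0∞) :
    ∑' l, ind (N ≤ A.h l) * F l ≤
      ∑' l1, ∑' l2, ind (N ≤ A.h l1 ∧ A.h l1.dropLast < N) * F (l1 ++ l2) := by
  classical
  have h1 : ∀ l : List A.B, ∃ p : List A.B × List A.B,
      p.1 ++ p.2 = l ∧ (N ≤ A.h l → N ≤ A.h p.1 ∧ A.h p.1.dropLast < N) := by
    intro l
    by_cases h : N ≤ A.h l
    · obtain ⟨l1, l2, e, h3, h4⟩ := sec_split A hN h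
      exact ⟨(l1, l2), e.symm, fun _ => ⟨h3, h4⟩⟩
    · exact ⟨(l, []), List.append_nil l, fun h' => absurd h' h⟩
  choose g hg1 hg2 using h1
  have hinj : Function.Injective g := by
    intro a b e
    rw [← hg1 a, ← hg1 b, e]
  rw [← ENNReal.tsum_prod (f := fun l1 l2 => ind (N ≤ A.h l1 ∧ A.h l1.dropLast < N) * F (l1 ++ l2))]
  refine le_trans ?_ (ENNReal.tsum_comp_le_tsum_of_injective hinj _)
  refine ENNReal.tsum_le_tsum fun l => ?_
  simp only [hg1 l]
  exact mul_le_mul' (ind_mono (hg2 l)) le_rfl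

private lemma sec_shift (f : ℕ → ℝ≥0∞) (m n : ℕ) :
    ∑ h ∈ Finset.range n, (if m ≤ h then f (h - m) else 0) = ∑ k ∈ Finset.range (n - m), f k := by
  induction n with
  | zero => simp
  | succ n ih =>
    rw [Finset.sum_range_succ, ih]
    by_cases h : m ≤ n
    · rw [if_pos h, show n + 1 - m = (n - m) + 1 by omega, Finset.sum_range_succ]
    · rw [if_neg h, add_zero, show n + 1 - m = n - m by omega]

private lemma sec_b (l : List A.B) (h : ℕ) :
    ∑' l2, ind (A.h l + A.h l2 = h) * A.w l2 = if A.h l ≤ h then A.b (h - A.h l) else 0 := by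
  split_ifs with h1
  · unfold Alph.b
    refine tsum_congr fun l2 => ?_
    rw [ind_congr (show A.h l + A.h l2 = h ↔ A.h l2 = h - A.h l by omega)]
  · rw [ENNReal.tsum_eq_zero]
    intro l2
    rw [ind_false (by omega), zero_mul]

private lemma sec_sum (hb : Antitone A.b) (l s : List A.B) (N M : ℕ) :
    ∑ h ∈ Finset.Icc N M, ((∑' l2, ind (A.h l + A.h l2 = h) * A.w l2) *
      (∑' s2, ind (A.h s + A.h s2 = h) * A.w s2)) ≤ ∑ k ∈ Finset.range (M + 1), A.b k ^ 2 := by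
  have h1 : ∀ h, (∑' l2, ind (A.h l + A.h l2 = h) * A.w l2) * (∑' s2, ind (A.h s + A.h s2 = h) * A.w s2) ≤
      if max (A.h l) (A.h s) ≤ h then A.b (h - max (A.h l) (A.h s)) ^ 2 else 0 := by
    intro h
    rw [sec_b A l h, sec_b A s h]
    by_cases hl : A.h l ≤ h
    · by_cases hs : A.h s ≤ h
      · rw [if_pos hl, if_pos hs, if_pos (max_le hl hs), pow_two]
        exact mul_le_mul' (hb (by omega)) (hb (by omega))
      · rw [if_neg hs, mul_zero]
        exact bot_le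
    · rw [if_neg hl, zero_mul]
      exact bot_le
  calc ∑ h ∈ Finset.Icc N M, ((∑' l2, ind (A.h l + A.h l2 = h) * A.w l2) *
      (∑' s2, ind (A.h s + A.h s2 = h) * A.w s2))
      ≤ ∑ h ∈ Finset.Icc N M, (if max (A.h l) (A.h s) ≤ h then A.b (h - max (A.h l) (A.h s)) ^ 2 else 0) :=
        Finset.sum_le_sum fun h _ => h1 h
    _ ≤ ∑ h ∈ Finset.range (M + 1), (if max (A.h l) (A.h s) ≤ h then A.b (h - max (A.h l) (A.h s)) ^ 2 else 0) := by
        refine Finset.sum_le_sum_of_subset fun h hh => ?_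
        rw [Finset.mem_Icc] at hh
        rw [Finset.mem_range]
        omega
    _ = ∑ k ∈ Finset.range (M + 1 - max (A.h l) (A.h s)), A.b k ^ 2 :=
        sec_shift (fun k => A.b k ^ 2) _ _
    _ ≤ _ := Finset.sum_le_sum_of_subset (Finset.range_subset_range.2 (by omega))

private lemma sec_abs (Q : List A.B → List A.B → Prop) (hQ : ∀ l l' s s', Q (l ++ l') (s ++ s') → Q l s)
    (hb : Antitone A.b) {N : ℕ} (M : ℕ) (hN : 1 ≤ N) :
    ∑ h ∈ Finset.Icc N M, (∑' l, ∑' s, ind (A.h l = h ∧ A.h s = h ∧ Q l s) * (A.w l * A.w s)) ≤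
      (∑' l, ∑' s, ind ((N ≤ A.h l ∧ A.h l.dropLast < N) ∧ (N ≤ A.h s ∧ A.h s.dropLast < N) ∧ Q l s) *
        (A.w l * A.w s)) * ∑ k ∈ Finset.range (M + 1), A.b k ^ 2 := by
  have h1 : ∀ h ∈ Finset.Icc N M, (∑' l, ∑' s, ind (A.h l = h ∧ A.h s = h ∧ Q l s) * (A.w l * A.w s)) ≤
      ∑' l1, ∑' s1, (ind ((N ≤ A.h l1 ∧ A.h l1.dropLast < N) ∧ (N ≤ A.h s1 ∧ A.h s1.dropLast < N) ∧ Q l1 s1) *
        (A.w l1 * A.w s1)) * ((∑' l2, ind (A.h l1 + A.h l2 = h) * A.w l2) *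
      (∑' s2, ind (A.h s1 + A.h s2 = h) * A.w s2)) := by
    intro h hh
    rw [Finset.mem_Icc] at hh
    have h2 : ∀ l, (∑' s, ind (A.h l = h ∧ A.h s = h ∧ Q l s) * (A.w l * A.w s)) ≤
        ind (N ≤ A.h l) * (∑' s1, ∑' s2, ind (N ≤ A.h s1 ∧ A.h s1.dropLast < N) *
          (ind (A.h l = h ∧ A.h (s1 ++ s2) = h ∧ Q l (s1 ++ s2)) * (A.w l * A.w (s1 ++ s2)))) := by
      intro l
      by_cases hl : A.h l = h
      · rw [ind_true (show N ≤ A.h l by omega), one_mul]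
        refine le_trans (ENNReal.tsum_le_tsum fun s => ?_) (sec_tsum A hN
          (fun s => ind (A.h l = h ∧ A.h s = h ∧ Q l s) * (A.w l * A.w s)))
        by_cases hs : A.h s = h
        · rw [ind_true (show N ≤ A.h s by omega), one_mul]
        · rw [ind_false (fun h3 => hs h3.2.1), zero_mul]
          exact bot_le
      · refine le_of_eq_of_le ?_ (zero_le)
        rw [ENNReal.tsum_eq_zero]
        intro s
        rw [ind_false (fun h3 => hl h3.1), zero_mul]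
    refine (ENNReal.tsum_le_tsum h2).trans ((sec_tsum A hN _).trans ?_)
    refine ENNReal.tsum_le_tsum fun l1 => ?_
    have h3 : ∀ l2 s1 s2, ind (N ≤ A.h l1 ∧ A.h l1.dropLast < N) * (ind (N ≤ A.h s1 ∧ A.h s1.dropLast < N) *
          (ind (A.h (l1 ++ l2) = h ∧ A.h (s1 ++ s2) = h ∧ Q (l1 ++ l2) (s1 ++ s2)) *
            (A.w (l1 ++ l2) * A.w (s1 ++ s2)))) ≤
        (ind ((N ≤ A.h l1 ∧ A.h l1.dropLast < N) ∧ (N ≤ A.h s1 ∧ A.h s1.dropLast < N) ∧ Q l1 s1) *
        (A.w l1 * A.w s1)) * ((ind (A.h l1 + A.h l2 = h) * A.w l2) * (ind (A.h s1 + A.h s2 = h) * A.w s2)) := by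
      intro l2 s1 s2
      by_cases h4 : (N ≤ A.h l1 ∧ A.h l1.dropLast < N) ∧ (N ≤ A.h s1 ∧ A.h s1.dropLast < N) ∧
          (A.h (l1 ++ l2) = h ∧ A.h (s1 ++ s2) = h ∧ Q (l1 ++ l2) (s1 ++ s2))
      · obtain ⟨h5, h6, h7, h8, h9⟩ := h4
        have h10 := hQ _ _ _ _ h9
        rw [ind_true h5, ind_true h6, ind_true ⟨h7, h8, h9⟩, ind_true ⟨h5, h6, h10⟩]
        rw [A.h_append] at h7 h8
        rw [ind_true h7, ind_true h8, A.w_append, A.w_append]
        simp only [one_mul]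
        exact le_of_eq (by ring)
      · refine le_of_eq_of_le ?_ (zero_le)
        by_cases h5 : N ≤ A.h l1 ∧ A.h l1.dropLast < N
        · by_cases h6 : N ≤ A.h s1 ∧ A.h s1.dropLast < N
          · rw [ind_false (p := (A.h (l1 ++ l2) = h ∧ A.h (s1 ++ s2) = h ∧ Q (l1 ++ l2) (s1 ++ s2)))
              (fun h7 => h4 ⟨h5, h6, h7⟩), zero_mul, mul_zero, mul_zero]
          · rw [ind_false h6, zero_mul, mul_zero]
        · rw [ind_false h5, zero_mul]
    calc _ ≤ ∑' l2, ∑' s1, ∑' s2, (ind ((N ≤ A.h l1 ∧ A.h l1.dropLast < N) ∧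
          (N ≤ A.h s1 ∧ A.h s1.dropLast < N) ∧ Q l1 s1) * (A.w l1 * A.w s1)) *
          ((ind (A.h l1 + A.h l2 = h) * A.w l2) * (ind (A.h s1 + A.h s2 = h) * A.w s2)) := by
          refine ENNReal.tsum_le_tsum fun l2 => ?_
          rw [← ENNReal.tsum_mul_left]
          refine ENNReal.tsum_le_tsum fun s1 => ?_
          rw [← ENNReal.tsum_mul_left]
          exact ENNReal.tsum_le_tsum fun s2 => h3 l2 s1 s2
      _ = _ := by
          rw [ENNReal.tsum_comm]
          refine tsum_congr fun s1 => ?_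
          rw [← ENNReal.tsum_mul_right, ← ENNReal.tsum_mul_left]
          refine tsum_congr fun l2 => ?_
          rw [← ENNReal.tsum_mul_left, ← ENNReal.tsum_mul_left]
  refine (Finset.sum_le_sum h1).trans ?_
  rw [← Summable.tsum_finsetSum (fun _ _ => ENNReal.summable), ← ENNReal.tsum_mul_right]
  refine ENNReal.tsum_le_tsum fun l1 => ?_
  rw [← Summable.tsum_finsetSum (fun _ _ => ENNReal.summable), ← ENNReal.tsum_mul_right]
  refine ENNReal.tsum_le_tsum fun s1 => ?_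
  rw [← Finset.mul_sum]
  exact mul_le_mul' le_rfl (sec_sum A hb l1 s1 N M)

end Abs

theorem sec {N : ℕ} (M : ℕ) (hN : 1 ≤ N) :
    ∑ h ∈ Finset.Icc N M, DB h ≤ PB N * ∑ k ∈ Finset.range (M + 1), bb k ^ 2 :=
  sec_abs (hs 1).toAlph QB (fun _ _ _ _ h => QB_pre h) (hs_anti 1) M hN

end Pool.Agent.BEX.F
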