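import Pool.Agent.BEX.F.UpF

/-!
BEX/F: THE SHARP HALF-PLANE FORM OF Q1, `c N^(-3/4) ≤ P_N ≤ C N^(-3/4)`, from full avoidance `fa i * U i ≤ K` for the system `hsI`
(field `full` of `Sys.Ply`, PLY/Ch/Defs).
-/

namespace Pool.Agent.BEX.F

open Pool.Agent.Hhelper14.SAW Pool.Agent.HHP Pool.Agent.HEP
open scoped ENNReal

theorem sharp_of (hfa : ∃ K : ℝ≥0∞, K ≠ ∞ ∧ ∀ i, hsI.fa i * hsI.U i ≤ K) :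
    (∀ N : ℕ, 1 ≤ N → ∑' w : Half.Stopped N, Half.wt w = 1) ∧
    ∃ c C : ℝ, 0 < c ∧ 0 < C ∧ ∀ N : ℕ, 1 ≤ N →
      c * (N : ℝ) ^ (-(3 / 4) : ℝ) ≤ Half.P N ∧ Half.P N ≤ C * (N : ℝ) ^ (-(3 / 4) : ℝ) := by
  obtain ⟨C, hC, hup⟩ := upper_sharp hfa
  obtain ⟨h1, ⟨c, hc, hlo⟩, -, -⟩ := half_main
  refine ⟨h1, c, C, hc, hC, fun N hN => ⟨hlo N hN, ?_⟩⟩
  rw [P_eq hN, PN_eq hN]
  exact ENNReal.toReal_le_of_le_ofReal (by positivity) (hup N hN)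

end Pool.Agent.BEX.F
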