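import Pool.Agent.BEX.F.Defs
import Pool.Agent.BEX.F.HalfDefs
import Pool.Agent.Hhelper14.SAW.Count
import Pool.Agent.Hhelper14.SAW.Main
import Pool.Agent.Hhelper14.SAW.Quant

/-!
BEX/F: from lists of complex numbers (`HalfDefs`) to words (`Defs`).

PAPER PROOF. `pth W = (V W).map emb` (HHP word `W`, `V W` = vertices, earliest first). `emb_re : (emb z).re = F0 z / 2`, `emb_inj`, `lift`, `chain_map`, `chain_of` are in `RTA/Transfer` (copy them with their proofs, do not import RTA); `toL W = (V W).reverse ++ [o']`, `toL_inj`, `toL_surj`,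
`isSaw_toL`, `V_hon` in `HHP/Lib`. `pth_inj`: `V W` determines `W` (`toL_inj`). `pth_surj`: a list `w` with `w_0 = 0`, vertices in the lattice, consecutive vertices at distance `1`, nodup, all real parts `≥ 0` is `pth W` for a word `W`
(`-1` is the only neighbour of `0` with negative real part; use `toL_surj` with the domain `p z = hon z ∧ 0 ≤ F0 z`, which has `Dom p` - see `hp_dom` in `HEP/GFar` - ). `Bridge (k + 1)` corresponds to `Br k` (`3 (k + 1) - 2 = 3 k + 1`), `Bridge 0` is empty (`0 ≤ Re ≤ -1`).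
`Renewal i (pth W) ↔ Ren i W` (`V_append`: the list of vertices is cut between two consecutive vertices; between `F0 ≤ 3 i - 2` and `F0 ≥ 3 i` there is no vertex with `F0 = 3 i - 1`). `wt (pth W) = xc ^ (W.length + 1)` (`vs_length`, `one_div_muL`). Avoidance: `∀ z ∈ (V W).tail, z ∉ V W'` iff
`Q1 W W'` (`V W` is nodup with head `(0, 0)`). Sums: `Equiv.tsum_eq` along the bijection and `ENNReal.ofReal_tsum_of_nonneg` / `ENNReal.tsum_toReal_eq` (all terms finite; `xE = ENNReal.ofReal xc`).
-/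

namespace Pool.Agent.BEX.F

open Pool.Agent.Hhelper14.SAW Pool.Agent.HHP Pool.Agent.HEP
open scoped ENNReal

private lemma Tr_re (z : ℤ × ℤ) : (emb z).re = (F0 z : ℝ) / 2 := by
  unfold emb F0
  simp only [Complex.add_re, Complex.mul_re, Complex.intCast_re, Complex.intCast_im, omega_re, zero_mul,
    sub_zero]
  push_cast
  ring

private lemma Tr_one_div : 1 / Pool.Agent.Hhelper14.Honeycomb.muL = xc := by
  rw [muL_eq hw_quant]; rfl

private lemma Tr_chain_of : ∀ {R : List (ℤ × ℤ)}, (∀ x ∈ R, hon x) →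
    (R.map emb).IsChain (fun x y => dist x y = 1) → HChain R
  | [], _, _ => by simp
  | [x], _, _ => by simp
  | x :: y :: R, h, hc => by
    simp only [List.map_cons] at hc
    obtain ⟨h1, h2⟩ := List.isChain_cons_cons.1 hc
    refine List.isChain_cons_cons.2 ⟨⟨h x (by simp), h y (by simp), (dist_emb x y).1 h1⟩, ?_⟩
    exact Tr_chain_of (fun z hz => h z (List.mem_cons_of_mem _ hz)) (by simpa using h2)

private lemma Tr_chain_map : ∀ {R : List (ℤ × ℤ)}, HChain R →
    (R.map emb).IsChain (fun x y => dist x y = 1)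
  | [], _ => by simp
  | [x], _ => by simp
  | x :: y :: R, hc => by
    obtain ⟨h1, h2⟩ := List.isChain_cons_cons.1 hc
    have := Tr_chain_map h2
    simp only [List.map_cons] at this ⊢
    exact List.isChain_cons_cons.2 ⟨(dist_emb x y).2 h1.2.2, this⟩

private lemma Tr_lift : ∀ {w : List ℂ}, (∀ z ∈ w, z ∈ Pool.Agent.Hhelper14.Honeycomb.V) →
    ∃ R : List (ℤ × ℤ), R.map emb = w ∧ ∀ x ∈ R, hon x
  | [], _ => ⟨[], rfl, by simp⟩
  | z :: w, h => by
    obtain ⟨R, h1, h2⟩ := Tr_lift (w := w) (fun x hx => h x (List.mem_cons_of_mem _ hx))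
    obtain ⟨x, hx1, hx2⟩ := mem_V.1 (h z (by simp))
    refine ⟨x :: R, by rw [List.map_cons, h1, ← hx2], ?_⟩
    intro y hy
    rcases List.mem_cons.1 hy with e | hy
    · rw [e]; exact hx1
    · exact h2 y hy

private lemma Tr_symm {x y : ℤ × ℤ} (h : Adj x y) : Adj y x := by
  obtain ⟨h1, h2, h3⟩ := h
  refine ⟨h2, h1, ?_⟩
  obtain ⟨a, b⟩ := x
  obtain ⟨c, d⟩ := y
  simp only [U, Prod.mk_sub_mk, Prod.mk.injEq] at h3 ⊢
  omega

private lemma Tr_hp : Dom (fun z : ℤ × ℤ => hon z ∧ 0 ≤ F0 z) := by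
  refine ⟨⟨by decide, by decide⟩, fun x h => h.1, fun x h => ?_⟩
  have := h.2
  simp only [slit, F0] at *
  omega

private lemma Tr_chain {W : List Bool} (h1 : (V W).Nodup) (h2 : ∀ z ∈ V W, 0 ≤ F0 z) :
    HChain (V W) := by
  have h := (isSaw_toL Tr_hp h1 fun z hz => ⟨V_hon hz, h2 z hz⟩).2.2.1
  have h3 : HChain (V W).reverse := (List.isChain_append.1 h).1
  have h4 := List.isChain_reverse.1 h3
  exact h4.imp fun _ _ h => Tr_symm h

private lemma Tr_surj {R : List (ℤ × ℤ)} (h0 : R.head? = some o) (hc : HChain R) (hn : R.Nodup)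
    (hp : ∀ x ∈ R, hon x ∧ 0 ≤ F0 x) : ∃ W, V W = R := by
  obtain ⟨S, rfl⟩ : ∃ S, R = o :: S := by
    cases R with
    | nil => simp at h0
    | cons a S =>
      simp only [List.head?_cons, Option.some.injEq] at h0
      exact ⟨S, by rw [h0]⟩
  have hs : IsSaw (fun z => hon z ∧ 0 ≤ F0 z) S.length ((o :: S).reverse ++ [o']) := by
    refine ⟨by simp, ?_, ?_, S.reverse, by simp, ?_⟩
    · rw [List.nodup_append]
      refine ⟨List.nodup_reverse.2 hn, by simp, ?_⟩
      intro x hx y hy hxy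
      rw [List.mem_singleton] at hy
      rw [List.mem_reverse] at hx
      have h3 := (hp x hx).2
      rw [hxy, hy] at h3
      revert h3
      decide
    · refine List.isChain_append.2 ⟨?_, by simp, ?_⟩
      · rw [List.isChain_reverse]
        exact List.IsChain.imp (fun _ _ h => Tr_symm h) hc
      · intro x hx y hy
        simp only [List.reverse_cons, List.getLast?_append, List.getLast?_singleton, Option.mem_def,
          Option.some_or, Option.some.injEq, List.head?_cons] at hx hy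
        rw [← hx, ← hy]
        exact adj_o
    · intro x hx
      apply hp
      simpa [or_comm] using hx
  obtain ⟨W, -, -, -, h⟩ := toL_surj Tr_hp hs
  refine ⟨W, ?_⟩
  unfold toL at h
  exact List.reverse_injective (List.append_cancel_right h)

private lemma Tr_last (W : List Bool) : (V W).getLast? = some (E W) := by
  obtain ⟨r, hr⟩ := toL_cases W
  unfold toL at hr
  have hne : (V W) ≠ [] := List.ne_nil_of_mem (E_mem W)
  rw [← List.head?_reverse]
  cases hV : (V W).reverse with
  | nil => exact absurd (List.reverse_eq_nil_iff.1 hV) hne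
  | cons a l =>
    rw [hV] at hr
    simp only [List.cons_append, List.cons.injEq] at hr
    rw [hr.1]; rfl

private lemma Tr_head (W : List Bool) : (V W).head? = some (0, 0) := by
  cases W <;> rfl

/-- The path of a word in the complex plane. -/
noncomputable def pth (W : List Bool) : List ℂ := (V W).map emb

private lemma Tr_Vinj {W W' : List Bool} (h : V W = V W') : W = W' := by
  apply toL_inj
  unfold toL
  rw [h]

theorem pth_inj : Function.Injective pth := by
  intro W W' h
  exact Tr_Vinj (List.map_injective_iff.2 emb_inj h)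

lemma Tr_bridge {k : ℕ} {W : List Bool} : pth W ∈ Half.Bridge (k + 1) ↔ Br k W := by
  have hb : ∀ z : ℤ × ℤ, (emb z).re ≤ (3 * ((k + 1 : ℕ) : ℝ) - 2) / 2 ↔ F0 z ≤ 3 * (k : ℤ) + 1 := by
    intro z
    rw [Tr_re, div_le_div_iff_of_pos_right (by norm_num)]
    push_cast
    constructor
    · intro h
      have : (F0 z : ℝ) ≤ ((3 * (k : ℤ) + 1 : ℤ) : ℝ) := by push_cast; linarith
      exact_mod_cast this
    · intro h
      have : (F0 z : ℝ) ≤ ((3 * (k : ℤ) + 1 : ℤ) : ℝ) := by exact_mod_cast h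
      push_cast at this
      linarith
  have he : ∀ z : ℤ × ℤ, (emb z).re = (3 * ((k + 1 : ℕ) : ℝ) - 2) / 2 ↔ F0 z = 3 * (k : ℤ) + 1 := by
    intro z
    rw [Tr_re]
    push_cast
    constructor
    · intro h
      have : (F0 z : ℝ) = ((3 * (k : ℤ) + 1 : ℤ) : ℝ) := by push_cast; linarith
      exact_mod_cast this
    · intro h
      have : (F0 z : ℝ) = ((3 * (k : ℤ) + 1 : ℤ) : ℝ) := by exact_mod_cast h
      push_cast at this
      linarith
  have h0 : ∀ z : ℤ × ℤ, 0 ≤ (emb z).re ↔ 0 ≤ F0 z := by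
    intro z
    rw [Tr_re]
    constructor
    · intro h
      have : (0 : ℝ) ≤ (F0 z : ℝ) := by linarith
      exact_mod_cast this
    · intro h
      have : (0 : ℝ) ≤ (F0 z : ℝ) := by exact_mod_cast h
      linarith
  constructor
  · rintro ⟨h1, h2, h3, h4, h5⟩
    refine ⟨⟨List.Nodup.of_map _ h4, fun z hz => ?_⟩, ?_⟩
    · obtain ⟨-, h6, h7⟩ := h2 (emb z) (List.mem_map_of_mem hz)
      exact ⟨(h0 z).1 h6, (hb z).1 h7⟩
    · refine (he _).1 (h5 _ ?_)
      unfold pth
      rw [List.getLast?_map, Tr_last]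
      rfl
  · rintro ⟨⟨h1, h2⟩, h3⟩
    refine ⟨?_, ?_, Tr_chain_map (Tr_chain h1 fun z hz => (h2 z hz).1), h1.map emb_inj, ?_⟩
    · unfold pth
      rw [List.head?_map, Tr_head]
      simp [emb]
    · intro z hz
      obtain ⟨x, hx, rfl⟩ := List.mem_map.1 hz
      exact ⟨mem_V.2 ⟨x, V_hon hx, rfl⟩, (h0 x).2 (h2 x hx).1, (hb x).2 (h2 x hx).2⟩
    · intro z hz
      unfold pth at hz
      rw [List.getLast?_map, Tr_last] at hz
      simp only [Option.map_some, Option.mem_def, Option.some.injEq] at hz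
      rw [← hz]
      exact (he _).2 h3

private lemma Tr_ren {i : ℕ} {W : List Bool} : Half.Renewal i (pth W) ↔ Ren i W := by
  have hlt : ∀ z ∈ V W, (emb z).re < (3 * (i : ℝ) - 1) / 2 ↔ F0 z < 3 * (i : ℤ) := by
    intro z hz
    have hr := res_std hz
    rw [Tr_re, div_lt_div_iff_of_pos_right (by norm_num)]
    constructor
    · intro h
      have : (F0 z : ℝ) < ((3 * (i : ℤ) - 1 : ℤ) : ℝ) := by push_cast; linarith
      have h2 : F0 z < 3 * (i : ℤ) - 1 := by exact_mod_cast this
      omega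
    · intro h
      have h2 : F0 z < 3 * (i : ℤ) - 1 := by omega
      have : (F0 z : ℝ) < ((3 * (i : ℤ) - 1 : ℤ) : ℝ) := by exact_mod_cast h2
      push_cast at this
      linarith
  have hgt : ∀ z ∈ V W, (3 * (i : ℝ) - 1) / 2 < (emb z).re ↔ 3 * (i : ℤ) ≤ F0 z := by
    intro z hz
    rw [Tr_re, div_lt_div_iff_of_pos_right (by norm_num)]
    constructor
    · intro h
      have : ((3 * (i : ℤ) - 1 : ℤ) : ℝ) < (F0 z : ℝ) := by push_cast; linarith
      have h2 : 3 * (i : ℤ) - 1 < F0 z := by exact_mod_cast this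
      omega
    · intro h
      have h2 : 3 * (i : ℤ) - 1 < F0 z := by omega
      have : ((3 * (i : ℤ) - 1 : ℤ) : ℝ) < (F0 z : ℝ) := by exact_mod_cast h2
      push_cast at this
      linarith
  constructor
  · rintro ⟨u, v, hu, hv, huv, h1, h2⟩
    unfold pth at huv
    obtain ⟨A, T, hAT, rfl, rfl⟩ := List.map_eq_append_iff.1 huv
    have hA : A ≠ [] := fun e => hu (by rw [e]; rfl)
    have hT : T ≠ [] := fun e => hv (by rw [e]; rfl)
    have hlen := congrArg List.length hAT
    unfold V at hlen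
    rw [vs_length, List.length_append] at hlen
    have hA1 := List.length_pos_iff.2 hA
    have hT1 := List.length_pos_iff.2 hT
    have hm : A.length - 1 < W.length := by omega
    have hW : W = W.take (A.length - 1) ++ W[A.length - 1] :: W.drop (A.length - 1 + 1) := by
      rw [List.getElem_cons_drop, List.take_append_drop]
    have hV := V_append (W.take (A.length - 1)) W[A.length - 1] (W.drop (A.length - 1 + 1))
    rw [← hW, hAT] at hV
    have hl : A.length = (V (W.take (A.length - 1))).length := by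
      unfold V
      rw [vs_length, List.length_take]
      omega
    obtain ⟨e1, e2⟩ := List.append_inj hV hl
    refine ⟨_, _, _, hW, ?_, ?_⟩
    · rw [← e1]
      intro z hz
      exact (hlt z (by rw [hAT]; exact List.mem_append_left _ hz)).1 (h1 _ (List.mem_map_of_mem hz))
    · rw [← e2]
      intro z hz
      exact (hgt z (by rw [hAT]; exact List.mem_append_right _ hz)).1 (h2 _ (List.mem_map_of_mem hz))
  · rintro ⟨W1, b, W2, hW, h1, h2⟩
    have hV := V_append W1 b W2
    rw [← hW] at hV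
    refine ⟨(V W1).map emb, (vs (E W1 + tn b (Dr W1)) (tn b (Dr W1)) W2).map emb, ?_, ?_, ?_, ?_, ?_⟩
    · intro h
      have := List.map_eq_nil_iff.1 h
      exact List.ne_nil_of_mem (E_mem W1) this
    · intro h
      have h3 := congrArg List.length (List.map_eq_nil_iff.1 h)
      rw [vs_length] at h3
      simp at h3
    · unfold pth
      rw [hV, List.map_append]
    · intro z hz
      obtain ⟨x, hx, rfl⟩ := List.mem_map.1 hz
      exact (hlt x (by rw [hV]; exact List.mem_append_left _ hx)).2 (h1 x hx)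
    · intro z hz
      obtain ⟨x, hx, rfl⟩ := List.mem_map.1 hz
      exact (hgt x (by rw [hV]; exact List.mem_append_right _ hx)).2 (h2 x hx)

theorem stopped_image {N : ℕ} (hN : 1 ≤ N) : Half.Stopped N = pth '' {W | Sp N W} := by
  ext w
  constructor
  · rintro ⟨M, hM, hw, hr⟩
    obtain ⟨k, rfl⟩ : ∃ k, M = k + 1 := ⟨M - 1, by omega⟩
    obtain ⟨h1, h2, h3, h4, h5⟩ := hw
    obtain ⟨R, rfl, hR⟩ := Tr_lift (fun z hz => (h2 z hz).1)
    have hc := Tr_chain_of hR h3
    have h0 : R.head? = some o := by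
      cases R with
      | nil => simp at h1
      | cons x X =>
        simp only [List.map_cons, List.head?_cons, Option.some.injEq] at h1 ⊢
        apply emb_inj
        rw [h1, emb_o]
    obtain ⟨W, hW⟩ := Tr_surj h0 hc (List.Nodup.of_map _ h4) (fun x hx => by
      refine ⟨hR x hx, ?_⟩
      have h6 := (h2 (emb x) (List.mem_map_of_mem hx)).2.1
      rw [Tr_re] at h6
      have : (0 : ℝ) ≤ (F0 x : ℝ) := by linarith
      exact_mod_cast this)
    have hp : pth W = R.map emb := by unfold pth; rw [hW]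
    refine ⟨W, ⟨k, ?_, hM, ?_⟩, hp⟩
    · rw [← Tr_bridge, hp]
      exact ⟨h1, h2, h3, h4, h5⟩
    · intro i hi1 hi2 hren
      refine hr i hi1 (by omega) ?_
      rw [← hp]
      exact Tr_ren.2 hren
  · rintro ⟨W, ⟨k, h1, h2, h3⟩, rfl⟩
    refine ⟨k + 1, h2, Tr_bridge.2 h1, fun i hi1 hi2 hren => ?_⟩
    exact h3 i hi1 (by omega) (Tr_ren.1 hren)

theorem wt_pth (W : List Bool) : Half.wt (pth W) = xc ^ (W.length + 1) := by
  unfold Half.wt pth V
  rw [Tr_one_div, List.length_map, vs_length]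

private lemma Tr_xE (n : ℕ) : (xE ^ n).toReal = xc ^ n := by
  have hx : 0 ≤ xc := by
    unfold xc
    exact one_div_nonneg.2 mu_pos.le
  rw [ENNReal.toReal_pow]
  unfold xE
  rw [ENNReal.toReal_ofReal hx]

private lemma Tr_xE_top (n : ℕ) : xE ^ n ≠ ⊤ := ENNReal.pow_ne_top (by unfold xE; exact ENNReal.ofReal_ne_top)

theorem total_eq {N : ℕ} (hN : 1 ≤ N) : ∑' w : Half.Stopped N, Half.wt w = (ms xE (Sp N)).toReal := by
  rw [stopped_image hN, tsum_image (fun w => Half.wt w) pth_inj.injOn]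
  unfold ms
  rw [ENNReal.tsum_toReal_eq (fun _ => Tr_xE_top _)]
  exact tsum_congr fun W => by rw [wt_pth, Tr_xE]

private lemma Tr_q1 {N : ℕ} {W W' : List Bool} (h : Sp N W) :
    (∀ z ∈ (pth W).tail, z ∉ pth W') ↔ Q1 W W' := by
  obtain ⟨k, ⟨⟨hn, -⟩, -⟩, -⟩ := h
  obtain ⟨S, hS⟩ : ∃ S, V W = (0, 0) :: S := by
    have := Tr_head W
    cases hV : V W with
    | nil => rw [hV] at this; simp at this
    | cons a S =>
      rw [hV] at this
      simp only [List.head?_cons, Option.some.injEq] at this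
      exact ⟨S, by rw [this]⟩
  have ht : (pth W).tail = S.map emb := by unfold pth; rw [hS]; rfl
  rw [ht]
  constructor
  · intro h z hz hz'
    rw [hS] at hz
    rcases List.mem_cons.1 hz with e | hz
    · exact e
    · exact absurd (List.mem_map_of_mem hz') (h (emb z) (List.mem_map_of_mem hz))
  · intro h z hz hz'
    obtain ⟨x, hx, rfl⟩ := List.mem_map.1 hz
    obtain ⟨y, hy, hxy⟩ := List.mem_map.1 hz'
    have hyx := emb_inj hxy
    subst hyx
    have h1 := h y (by rw [hS]; exact List.mem_cons_of_mem _ hx) hy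
    rw [hS] at hn
    rw [h1] at hx
    exact (List.nodup_cons.1 hn).1 hx

theorem P_eq {N : ℕ} (hN : 1 ≤ N) : Half.P N = (PN N).toReal := by
  have hA : Half.Avoid N = (Prod.map pth pth) '' {p | Sp N p.1 ∧ Sp N p.2 ∧ Q1 p.1 p.2} := by
    ext ⟨w, w'⟩
    constructor
    · rintro ⟨h1, h2, h3⟩
      simp only at h1 h2 h3
      rw [stopped_image hN] at h1 h2
      obtain ⟨W, hW, rfl⟩ := h1
      obtain ⟨W', hW', rfl⟩ := h2
      exact ⟨(W, W'), ⟨hW, hW', (Tr_q1 hW).1 h3⟩, rfl⟩
    · rintro ⟨⟨W, W'⟩, ⟨h1, h2, h3⟩, h⟩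
      simp only [Prod.map_apply, Prod.mk.injEq] at h h1 h2 h3
      obtain ⟨rfl, rfl⟩ := h
      refine ⟨?_, ?_, ?_⟩
      · rw [stopped_image hN]; exact ⟨W, h1, rfl⟩
      · rw [stopped_image hN]; exact ⟨W', h2, rfl⟩
      · exact (Tr_q1 h1).2 h3
  unfold Half.P PN ms2
  rw [hA, tsum_image (fun q : List ℂ × List ℂ => Half.wt q.1 * Half.wt q.2)
    (pth_inj.prodMap pth_inj).injOn,
    ENNReal.tsum_toReal_eq (fun _ => ENNReal.mul_ne_top (Tr_xE_top _) (Tr_xE_top _))]
  refine tsum_congr fun q => ?_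
  simp only [Prod.map_fst, Prod.map_snd, wt_pth]
  rw [ENNReal.toReal_mul, Tr_xE, Tr_xE]

end Pool.Agent.BEX.F
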