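import Pool.Agent.BEX.F.Tr
import Pool.Agent.HHP.Mass

/-!
BEX/F: the bridges of `M` columns as lists of complex numbers, and the two-sided bound of their mass.
-/

namespace Pool.Agent.BEX.F

open Pool.Agent.Hhelper14.SAW Pool.Agent.HHP Pool.Agent.HEP
open scoped ENNReal

theorem bridge_image (k : ℕ) : Half.Bridge (k + 1) = pth '' {W | Br k W} := by
  ext w
  constructor
  · intro hw
    have h1 : w ∈ Half.Stopped (k + 1) := ⟨k + 1, le_rfl, hw, fun i h1 h2 => by omega⟩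
    rw [stopped_image (by omega)] at h1
    obtain ⟨W, -, rfl⟩ := h1
    exact ⟨W, Tr_bridge.1 hw, rfl⟩
  · rintro ⟨W, hW, rfl⟩
    exact Tr_bridge.2 hW

theorem bridge_total (k : ℕ) : ∑' w : Half.Bridge (k + 1), Half.wt w = (ms xE (Br k)).toReal := by
  have hx : xE ≠ ∞ := by unfold xE; exact ENNReal.ofReal_ne_top
  rw [bridge_image, tsum_image (fun w => Half.wt w) pth_inj.injOn]
  unfold ms
  rw [ENNReal.tsum_toReal_eq (fun _ => ENNReal.pow_ne_top hx)]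
  refine tsum_congr fun W => ?_
  rw [wt_pth, ENNReal.toReal_pow]
  unfold xE
  rw [ENNReal.toReal_ofReal xc_pos.le]

theorem bridge_of (hlow : ∃ c : ℝ, 0 < c ∧ ∀ N : ℕ, ENNReal.ofReal (c * ((N : ℝ) + 1) ^ (-(1 / 4) : ℝ)) ≤ ms xE (Br N))
    (hup : ∃ C : ℝ, ∀ N : ℕ, ms xE (Br N) ≤ ENNReal.ofReal (C * ((N : ℝ) + 1) ^ (-(1 / 4) : ℝ))) :
    ∃ c C : ℝ, 0 < c ∧ 0 < C ∧ ∀ M : ℕ, 1 ≤ M → c * (M : ℝ) ^ (-(1 / 4) : ℝ) ≤ ∑' w : Half.Bridge M, Half.wt w ∧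
      ∑' w : Half.Bridge M, Half.wt w ≤ C * (M : ℝ) ^ (-(1 / 4) : ℝ) := by
  obtain ⟨c, hc, h1⟩ := hlow
  obtain ⟨C, h2⟩ := hup
  refine ⟨c, max C 1, hc, lt_of_lt_of_le one_pos (le_max_right _ _), fun M hM => ?_⟩
  obtain ⟨k, rfl⟩ : ∃ k, M = k + 1 := ⟨M - 1, by omega⟩
  have hfin : ms xE (Br k) ≠ ∞ := ne_top_of_le_ne_top ENNReal.one_ne_top (Br_one k)
  have hp : (0 : ℝ) ≤ ((k : ℝ) + 1) ^ (-(1 / 4) : ℝ) := by positivity
  rw [bridge_total]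
  push_cast
  constructor
  · exact (ENNReal.ofReal_le_iff_le_toReal hfin).1 (h1 k)
  · refine ENNReal.toReal_le_of_le_ofReal (by positivity) ((h2 k).trans ?_)
    exact ENNReal.ofReal_le_ofReal (mul_le_mul_of_nonneg_right (le_max_left _ _) hp)

end Pool.Agent.BEX.F
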