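import Pool.Agent.BEX.F.Fold
import Pool.Agent.BEX.F.Red
import Pool.Agent.HEP.RnCut

/-!
BEX/F: upper bound of `P_(N+1)` by `a(N)` of the system `hs n`.

PAPER PROOF. Let `(L, S)` be a pair counted in `PB (N + 1)`; `l = cut (N - 1) L`, `s = cut N S` (longest prefixes of height `≤ N - 1`, `≤ N`); `QB l s` by `QB_pre`. The sum over the rests is `Lam (N - 1 - hj l)` resp. `Lam (N - hj s)` (for `L`: `∑ over L with StB (N+1) L and
cut (N-1) L = l of wj L = wj l * Lam (N - 1 - hj l)`: the next block `c` has `N - 1 < hj l + htw c`, then continue until the height passes `N`, total mass `1` by `Sp_total`-type sums; similarly for `S`). So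
`PB (N + 1) ≤ ∑ l s, ind (QB l s ∧ hj l ≤ N - 1 ∧ hj s ≤ N) * (wj l * wj s * Lam (N - 1 - hj l) * Lam (N - hj s))`. Split: (i) `l = []`: `≤ Lam (N - 1) * 1` (`tsum_w_Lam`); `s = []`: `≤ Lam N`. (ii) some block of `l` or `s` has more than `n` steps:
`∑ over lists l of height ≤ M with such a block of wj l * Lam (M - hj l) ≤ (sum over l1, block c, l2) ≤ U M * ∑ c, ind (htw c ≤ M ∧ n < length) wt c` (`tsum_w_Lam` for `l2`), the other list gives `1`. (iii) the rest: by `Q1` the words `jn l`, `jn s` start with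
different turns (otherwise `v_1` is common; both have length `≥ 1`). If `jn l` starts with `true`: the map `(l, s) ↦ (uB :: l.map rvB, phL s)` is injective, `hj (uB :: l.map rvB) = 1 + hj l`, mass `xE ^ 2 * wj l` and `≥ wj s` (`phi_br`, `xE ≤ 1`), so the mass of `(l, s)` is at most
`xE⁻¹ ^ 2` times its term in `(hs n).a N` (`N - (1 + hj l) = N - 1 - hj l`), `fold_av`. If `jn l` starts with `false`: reflect all blocks first (`c ↦ c.map (!)`; masses, heights and `Q1` are invariant, `HEP/GRefl`), then the same map. Total factor `2 * xE⁻¹ ^ 2`.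
-/

namespace Pool.Agent.BEX.F

open Pool.Agent.Hhelper14.SAW Pool.Agent.HHP Pool.Agent.HEP Pool.Agent.BEX.C
open scoped ENNReal

/-! ### sums over lists -/

private lemma UpA_drop (l0 : List Blk) (c : Blk) {r : List Blk} (hr : r ≠ []) :
    hj l0 + htw c.1 ≤ hj (l0 ++ c :: r).dropLast := by
  have e : (l0 ++ c :: r).dropLast = l0 ++ c :: r.dropLast := by
    rw [List.dropLast_append_of_ne_nil (by simp), List.dropLast_cons_of_ne_nil hr]
  rw [e, hj_append, hj_cons]
  omega

/-- The cut of a list of blocks. -/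
private noncomputable def ct (m : ℕ) (L : List Blk) : List Blk := (hs 1).cut m L

private lemma ct_pre (m : ℕ) (L : List Blk) : ∃ r : List Blk, L = ct m L ++ r := (hs 1).toAlph.cut_prefix m L

private lemma ct_ct {m N : ℕ} (hm : m ≤ N) (L : List Blk) : ct m (ct N L) = ct m L := (hs 1).toAlph.cut_cut hm L

private lemma ct_app {N : ℕ} {l0 : List Blk} {c : Blk} (h0 : hj l0 ≤ N) (hc : N < hj l0 + htw c.1) (r : List Blk) :
    ct N (l0 ++ c :: r) = l0 := (hs 1).toAlph.cut_app h0 hc r

private lemma ct_tsum (N : ℕ) (F : List Blk → ℝ≥0∞) : ∑' l, F l = ∑' l0 : List Blk, ind (hj l0 ≤ N) *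
    (F l0 + ∑' c : Blk, ∑' r : List Blk, ind (N < hj l0 + htw c.1) * F (l0 ++ c :: r)) :=
  (hs 1).toAlph.tsum_cut N F

private lemma ct_cont {m N : ℕ} (hm : m ≤ N) (g : List Blk → ℝ≥0∞) :
    ∑' l : List Blk, ind (hj l ≤ N) * (g (ct m l) * (wj l * (hs 1).Lam (N - hj l))) =
      ∑' l : List Blk, ind (hj l ≤ m) * (g l * (wj l * (hs 1).Lam (m - hj l))) :=
  (hs 1).toAlph.cont_eq hm g

private lemma UpA_total {m N : ℕ} (hm : m ≤ N) (g : List Blk → ℝ≥0∞) :
    ∑' L : List Blk, ind (StB (N + 1) L) * (g (ct m L) * wj L) =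
      ∑' l : List Blk, ind (hj l ≤ m) * (g l * (wj l * (hs 1).Lam (m - hj l))) := by
  rw [ct_tsum N, ← ct_cont hm g]
  refine tsum_congr fun l0 => ?_
  by_cases h0 : hj l0 ≤ N
  · rw [ind_true h0, one_mul, one_mul, ind_false (p := StB (N + 1) l0) (fun h => by have := h.1; omega),
      zero_mul, zero_add]
    have e1 : ∀ c : Blk, (∑' r : List Blk, ind (N < hj l0 + htw c.1) *
        (ind (StB (N + 1) (l0 ++ c :: r)) * (g (ct m (l0 ++ c :: r)) * wj (l0 ++ c :: r)))) =
        g (ct m l0) * wj l0 * (ind (N - hj l0 < htw c.1) * xE ^ (c.1.length + 1)) := by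
      intro c
      rw [tsum_eq_single ([] : List Blk)]
      · by_cases hc : N < hj l0 + htw c.1
        · have hst : StB (N + 1) (l0 ++ [c]) := by
            refine ⟨by rw [hj_append, hj_cons, hj_nil]; omega, ?_⟩
            rw [List.dropLast_concat]
            omega
          have hcut : ct m (l0 ++ [c]) = ct m l0 := by
            rw [← ct_ct hm (l0 ++ [c]), ct_app h0 hc []]
          rw [ind_true hc, one_mul, ind_true hst, one_mul, hcut, wj_append, wj_cons, wj_nil, mul_one,
            ind_true (by omega), one_mul]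
          ring
        · rw [ind_false hc, zero_mul, ind_false (by omega), zero_mul, mul_zero]
      · intro r hr
        by_cases hc : N < hj l0 + htw c.1
        · rw [ind_false (p := StB (N + 1) (l0 ++ c :: r)) (fun h => by
            have h3 := h.2
            have h4 := UpA_drop l0 c hr
            omega), zero_mul, mul_zero]
        · rw [ind_false hc, zero_mul]
    rw [tsum_congr e1, ENNReal.tsum_mul_left, mul_assoc]
    rfl
  · rw [ind_false h0, zero_mul, zero_mul]

theorem cut_le (N : ℕ) (hN : 1 ≤ N) : PB (N + 1) ≤ ∑' l : List Blk, ∑' s : List Blk,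
    ind (QB l s ∧ hj l ≤ N - 1 ∧ hj s ≤ N) * (wj l * wj s * ((hs 1).Lam (N - 1 - hj l) * (hs 1).Lam (N - hj s))) := by
  obtain ⟨G, hG⟩ : ∃ G : List Blk → ℝ≥0∞, G = fun l => ∑' s : List Blk,
    ind (hj s ≤ N) * (ind (QB l s) * (wj s * (hs 1).Lam (N - hj s))) := ⟨_, rfl⟩
  have h1 : PB (N + 1) ≤ ∑' L : List Blk, ind (StB (N + 1) L) * (G (ct (N - 1) L) * wj L) := by
    unfold PB
    refine ENNReal.tsum_le_tsum fun L => ?_
    have h2 := UpA_total (m := N) (N := N) le_rfl (fun s => ind (QB (ct (N - 1) L) s))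
    rw [hG]
    simp only
    rw [← h2, ← ENNReal.tsum_mul_right, ← ENNReal.tsum_mul_left]
    refine ENNReal.tsum_le_tsum fun S => ?_
    rw [ind_and, ind_and]
    have h3 : ind (QB L S) ≤ ind (QB (ct (N - 1) L) (ct N S)) := by
      refine ind_mono fun h => ?_
      obtain ⟨r, hr⟩ := ct_pre (N - 1) L
      obtain ⟨r', hr'⟩ := ct_pre N S
      rw [hr, hr'] at h
      exact QB_pre h
    calc ind (StB (N + 1) L) * (ind (StB (N + 1) S) * ind (QB L S)) * (wj L * wj S)
        ≤ ind (StB (N + 1) L) * (ind (StB (N + 1) S) * ind (QB (ct (N - 1) L) (ct N S))) *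
            (wj L * wj S) := by gcongr
      _ = _ := by ring
  refine h1.trans (le_of_eq ?_)
  rw [UpA_total (m := N - 1) (N := N) (Nat.sub_le _ _) G, hG]
  refine tsum_congr fun l => ?_
  simp only
  rw [← ENNReal.tsum_mul_right, ← ENNReal.tsum_mul_left]
  refine tsum_congr fun s => ?_
  rw [ind_and, ind_and]
  ring

private lemma UpA_mem (P : Blk → Prop) (l : List Blk) :
    ind (∃ c ∈ l, P c) ≤ ∑' p : List Blk × Blk × List Blk, ind (l = p.1 ++ p.2.1 :: p.2.2) * ind (P p.2.1) := by
  by_cases h : ∃ c ∈ l, P c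
  · obtain ⟨c, hc, hP⟩ := h
    obtain ⟨l1, l2, e⟩ := List.append_of_mem hc
    refine le_trans ?_ (ENNReal.le_tsum (l1, c, l2))
    rw [ind_true (p := l = l1 ++ c :: l2) e, ind_true hP, one_mul]
    exact ind_le_one _
  · rw [ind_false h]
    exact zero_le

theorem long_list (M n : ℕ) : ∑' l : List Blk, ind (hj l ≤ M ∧ ∃ c ∈ l, n < c.1.length) * (wj l * (hs 1).Lam (M - hj l)) ≤
    (hs 1).U M * ∑' c : Blk, ind (htw c.1 ≤ M ∧ n < c.1.length) * xE ^ (c.1.length + 1) := by
  have h1 : ∑' l : List Blk, ind (hj l ≤ M ∧ ∃ c ∈ l, n < c.1.length) * (wj l * (hs 1).Lam (M - hj l)) ≤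
      ∑' l : List Blk, ∑' p : List Blk × Blk × List Blk, ind (l = p.1 ++ p.2.1 :: p.2.2) *
        (ind (n < p.2.1.1.length) * (ind (hj l ≤ M) * (wj l * (hs 1).Lam (M - hj l)))) := by
    refine ENNReal.tsum_le_tsum fun l => ?_
    rw [ind_and]
    calc ind (hj l ≤ M) * ind (∃ c ∈ l, n < c.1.length) * (wj l * (hs 1).Lam (M - hj l))
        ≤ ind (hj l ≤ M) * (∑' p : List Blk × Blk × List Blk, ind (l = p.1 ++ p.2.1 :: p.2.2) *
            ind (n < p.2.1.1.length)) * (wj l * (hs 1).Lam (M - hj l)) := by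
          gcongr
          exact UpA_mem (fun c => n < c.1.length) l
      _ = _ := by
          rw [← ENNReal.tsum_mul_left, ← ENNReal.tsum_mul_right]
          refine tsum_congr fun p => ?_
          ring
  refine h1.trans ?_
  rw [ENNReal.tsum_comm]
  have h2 : ∀ p : List Blk × Blk × List Blk, (∑' l : List Blk, ind (l = p.1 ++ p.2.1 :: p.2.2) *
        (ind (n < p.2.1.1.length) * (ind (hj l ≤ M) * (wj l * (hs 1).Lam (M - hj l))))) =
      ind (n < p.2.1.1.length) * (ind (hj (p.1 ++ p.2.1 :: p.2.2) ≤ M) *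
        (wj (p.1 ++ p.2.1 :: p.2.2) * (hs 1).Lam (M - hj (p.1 ++ p.2.1 :: p.2.2)))) := by
    intro p
    rw [tsum_eq_single (p.1 ++ p.2.1 :: p.2.2)]
    · rw [ind_true rfl, one_mul]
    · intro l hl
      rw [ind_false hl, zero_mul]
  rw [tsum_congr h2, ENNReal.tsum_prod']
  have h3 : ∀ l1 : List Blk, (∑' q : Blk × List Blk, ind (n < q.1.1.length) * (ind (hj (l1 ++ q.1 :: q.2) ≤ M) *
        (wj (l1 ++ q.1 :: q.2) * (hs 1).Lam (M - hj (l1 ++ q.1 :: q.2))))) ≤
      ind (hj l1 ≤ M) * wj l1 * ∑' c : Blk, ind (htw c.1 ≤ M ∧ n < c.1.length) * xE ^ (c.1.length + 1) := by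
    intro l1
    rw [ENNReal.tsum_prod', ← ENNReal.tsum_mul_left]
    refine ENNReal.tsum_le_tsum fun c => ?_
    simp only
    by_cases hc : hj l1 + htw c.1 ≤ M
    · have h4 := (hs 1).toAlph.tsum_w_Lam (M - hj l1 - htw c.1)
      rw [ind_true (p := hj l1 ≤ M) (by omega), one_mul, ind_and, ind_true (p := htw c.1 ≤ M) (by omega), one_mul]
      calc (∑' r : List Blk, ind (n < c.1.length) * (ind (hj (l1 ++ c :: r) ≤ M) *
            (wj (l1 ++ c :: r) * (hs 1).Lam (M - hj (l1 ++ c :: r)))))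
          = ∑' r : List Blk, (ind (n < c.1.length) * (wj l1 * xE ^ (c.1.length + 1))) *
              (ind (hj r ≤ M - hj l1 - htw c.1) * (wj r * (hs 1).Lam (M - hj l1 - htw c.1 - hj r))) := by
            refine tsum_congr fun r => ?_
            rw [hj_append, hj_cons, wj_append, wj_cons, ind_congr (show hj l1 + (htw c.1 + hj r) ≤ M ↔
              hj r ≤ M - hj l1 - htw c.1 by omega),
              show M - (hj l1 + (htw c.1 + hj r)) = M - hj l1 - htw c.1 - hj r by omega]
            ring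
        _ = (ind (n < c.1.length) * (wj l1 * xE ^ (c.1.length + 1))) * 1 := by
            rw [ENNReal.tsum_mul_left]
            congr 1
        _ ≤ _ := le_of_eq (by ring)
    · refine le_trans (le_of_eq ?_) zero_le
      rw [ENNReal.tsum_eq_zero]
      intro r
      rw [hj_append, hj_cons, ind_false (p := hj l1 + (htw c.1 + hj r) ≤ M) (by omega), zero_mul, mul_zero]
  refine (ENNReal.tsum_le_tsum h3).trans ?_
  rw [ENNReal.tsum_mul_right]
  gcongr
  exact ((hs 1).toAlph.tsum_le M).le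

/-! ### the injection -/

private lemma UpA_inj {α β : Type} (P : α → Prop) (g : α → β)
    (hg : ∀ a a', P a → P a' → g a = g a' → a = a') (f : α → ℝ≥0∞) (F : β → ℝ≥0∞)
    (h : ∀ a, P a → f a ≤ F (g a)) : ∑' a, ind (P a) * f a ≤ ∑' b, F b := by
  have h1 : ∑' a, ind (P a) * f a = ∑' a : {a // P a}, f a.1 := by
    symm
    refine (tsum_subtype {a | P a} f).trans (tsum_congr fun a => ?_)
    by_cases ha : P a
    · rw [Set.indicator_of_mem (by exact ha), ind_true ha, one_mul]
    · rw [Set.indicator_of_notMem (by exact ha), ind_false ha, zero_mul]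
  rw [h1]
  calc ∑' a : {a // P a}, f a.1 ≤ ∑' a : {a // P a}, F (g a.1) := ENNReal.tsum_le_tsum fun a => h a.1 a.2
    _ ≤ ∑' b, F b := ENNReal.tsum_comp_le_tsum_of_injective (f := fun a : {a // P a} => g a.1)
        (fun a a' e => Subtype.ext (hg _ _ a.2 a'.2 e)) F

private lemma UpA_ne (c : Blk) : c.1 ≠ [] := by
  intro h
  have h1 := c.2.br.2
  rw [h] at h1
  have h2 : F0 (E []) = 0 := by decide
  rw [h2] at h1
  omega

private lemma UpA_head {c : Blk} {l : List Blk} : (jn (c :: l)).head? = c.1.head? := by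
  by_cases h : l = []
  · subst h
    rfl
  · rw [jn_cons h, List.head?_append_of_ne_nil _ (UpA_ne c)]

private lemma UpA_phB {c : Blk} (h : c.1.head? = some false) : (phB c).1 = phi c.1 := by
  unfold phB
  rw [dif_pos h]

private lemma UpA_phL_inj {s s' : List Blk} (hs0 : s ≠ []) (hs0' : s' ≠ []) (h : (jn s).head? = some false)
    (h' : (jn s').head? = some false) (e : phL s = phL s') : s = s' := by
  obtain ⟨c, r, rfl⟩ := List.exists_cons_of_ne_nil hs0
  obtain ⟨c', r', rfl⟩ := List.exists_cons_of_ne_nil hs0'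
  rw [UpA_head] at h h'
  simp only [phL, List.cons.injEq] at e
  obtain ⟨e1, e2⟩ := e
  have e3 := congrArg Subtype.val e1
  rw [UpA_phB h, UpA_phB h'] at e3
  rw [e2, Subtype.ext (phi_inj c.2.br h c'.2.br h' e3)]

private lemma UpA_wj_phL {s : List Blk} (hs0 : s ≠ []) (h : (jn s).head? = some false) : wj s ≤ wj (phL s) := by
  obtain ⟨c, r, rfl⟩ := List.exists_cons_of_ne_nil hs0
  rw [UpA_head] at h
  simp only [phL]
  rw [wj_cons, wj_cons, UpA_phB h]
  gcongr ?_ * _
  refine pow_le_pow_right_of_le_one' xE_le ?_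
  have := (phi_br c.2.br h).2
  omega

private lemma UpA_hj_uB (l : List Blk) : hj (uB :: l.map rvB) = 1 + hj l := by
  have h1 : hj (l.map rvB) = hj l := by
    unfold hj
    rw [List.map_map]
    congr 1
    refine List.map_congr_left fun c _ => ?_
    exact htw_rvB c
  rw [hj_cons, h1]
  congr 1

private lemma UpA_wj_uB (l : List Blk) : wj (uB :: l.map rvB) = xE ^ 2 * wj l := by
  have h1 : wj (l.map rvB) = wj l := by
    unfold wj
    rw [List.map_map]
    congr 1
    refine List.map_congr_left fun c _ => ?_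
    simp only [Function.comp]
    rw [len_rvB]
  rw [wj_cons, h1]
  rfl

/-- The pairs of short blocks, `l` starts to the left. -/
private def UA (b : Bool) (n N : ℕ) (l s : List Blk) : Prop :=
  l ≠ [] ∧ s ≠ [] ∧ (jn l).head? = some b ∧ (jn s).head? = some (!b) ∧ Q1 (jn l) (jn s) ∧
    (∀ c ∈ l ++ s, c.1.length ≤ n) ∧ hj l ≤ N - 1 ∧ hj s ≤ N

/-- The weight. -/
private noncomputable def UW (N : ℕ) (l s : List Blk) : ℝ≥0∞ :=
  wj l * wj s * ((hs 1).Lam (N - 1 - hj l) * (hs 1).Lam (N - hj s))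

private lemma UpA_A {N n : ℕ} (hN : 1 ≤ N) (hn : 1 ≤ n) :
    ∑' l : List Blk, ∑' s : List Blk, ind (UA true n N l s) * UW N l s ≤ (xE⁻¹) ^ 2 * (hs n).a N := by
  obtain ⟨H, hH⟩ : ∃ H : List Blk → ℝ≥0∞, H = fun l' => ∑' s' : List Blk,
    ind (Avn n l' s' ∧ hj l' ≤ N ∧ hj s' ≤ N) * (wj l' * wj s' * ((hs 1).Lam (N - hj l') * (hs 1).Lam (N - hj s'))) :=
    ⟨_, rfl⟩
  have ha : (hs n).a N = ∑' l' : List Blk, H l' := by
    rw [hH]
    rfl
  have h1 : ∀ l : List Blk, (∑' s : List Blk, ind (UA true n N l s) * UW N l s) ≤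
      (xE⁻¹) ^ 2 * H (uB :: l.map rvB) := by
    intro l
    rw [hH]
    simp only
    rw [← ENNReal.tsum_mul_left]
    refine UpA_inj (UA true n N l) phL ?_ _ _ ?_
    · intro s s' hs1 hs2 e
      exact UpA_phL_inj hs1.2.1 hs2.2.1 hs1.2.2.2.1 hs2.2.2.2.1 e
    · rintro s ⟨hl, hs0, hb, hb', hQ, hlen, h5, h6⟩
      have hav : Avn n (uB :: l.map rvB) (phL s) := fold_av hn hl hs0 hb hb' hQ hlen
      rw [UpA_hj_uB, UpA_wj_uB, hj_phL, ind_true ⟨hav, by omega, h6⟩, one_mul,
        show N - (1 + hj l) = N - 1 - hj l by omega]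
      unfold UW
      calc wj l * wj s * ((hs 1).Lam (N - 1 - hj l) * (hs 1).Lam (N - hj s))
          ≤ wj l * wj (phL s) * ((hs 1).Lam (N - 1 - hj l) * (hs 1).Lam (N - hj s)) := by
            gcongr
            exact UpA_wj_phL hs0 hb'
        _ = (xE⁻¹ * xE) ^ 2 * (wj l * wj (phL s) * ((hs 1).Lam (N - 1 - hj l) * (hs 1).Lam (N - hj s))) := by
            rw [ENNReal.inv_mul_cancel xE_ne.1 xE_ne.2, one_pow, one_mul]
        _ = _ := by ring
  rw [ha]
  refine (ENNReal.tsum_le_tsum h1).trans ?_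
  rw [ENNReal.tsum_mul_left]
  refine mul_le_mul' le_rfl ?_
  have hinj : Function.Injective (fun l : List Blk => uB :: l.map rvB) := by
    intro l l' e
    rw [List.cons.injEq] at e
    have hr : Function.Injective rvB := fun c c' e => by rw [← rvB_rvB c, e, rvB_rvB]
    exact hr.list_map e.2
  exact ENNReal.tsum_comp_le_tsum_of_injective hinj H

/-! ### reflection -/

private def rfB (c : Blk) : Blk := ⟨c.1.map (! ·), Irr_not c.2⟩

private lemma UpA_nn (W : List Bool) : (W.map (! ·)).map (! ·) = W := by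
  rw [List.map_map]
  conv_rhs => rw [← List.map_id W]
  refine List.map_congr_left fun b _ => ?_
  simp

private lemma UpA_rfrf (c : Blk) : rfB (rfB c) = c := Subtype.ext (UpA_nn c.1)

private lemma UpA_rt {k : ℕ} {W : List Bool} (h : Br k W) : rt (W.map (! ·)) = !rt W := by
  have h1 := (Br_not h).tn_rt
  have h2 := h.tn_rt
  have h3 : tn (!rt W) (Dr (W.map (! ·))) = (1, 0) := by
    rw [Dr_not]
    have e : ∀ (b : Bool) (d : ℤ × ℤ), sg (tn b d) = tn (!b) (sg d) := by
      intro b d
      cases b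
      · simp [tn, sg_R]
      · simp [tn, sg_L]
    rw [← e, h2]
    simp [sg]
  exact tn_inj (U_Dr _) (h1.trans h3.symm)

private lemma UpA_jn_rf (l : List Blk) : jn (l.map rfB) = (jn l).map (! ·) := by
  induction l with
  | nil => rfl
  | cons c l ih =>
    by_cases h : l = []
    · subst h
      rfl
    · rw [List.map_cons, jn_cons (by simpa using h), jn_cons h, ih, List.map_append, List.map_cons]
      have e : rt (rfB c).1 = !rt c.1 := UpA_rt c.2.br
      rw [e]
      rfl

private lemma UpA_hj_rf (l : List Blk) : hj (l.map rfB) = hj l := by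
  unfold hj
  rw [List.map_map]
  congr 1
  refine List.map_congr_left fun c _ => ?_
  exact htw_not c

private lemma UpA_wj_rf (l : List Blk) : wj (l.map rfB) = wj l := by
  unfold wj
  rw [List.map_map]
  congr 1
  refine List.map_congr_left fun c _ => ?_
  simp [rfB]

private lemma UpA_sg0 {z : ℤ × ℤ} (h : sg z = (0, 0)) : z = (0, 0) := by
  obtain ⟨a, b⟩ := z
  simp only [sg, Prod.mk.injEq] at h ⊢
  omega

private lemma UpA_Q1 {W W' : List Bool} (h : Q1 (W.map (! ·)) (W'.map (! ·))) : Q1 W W' := by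
  intro z hz hz'
  apply UpA_sg0
  apply h
  · rw [V_not]
    exact List.mem_map_of_mem hz
  · rw [V_not]
    exact List.mem_map_of_mem hz'

private lemma UpA_UA {n N : ℕ} {l s : List Blk} (h : UA false n N (l.map rfB) (s.map rfB)) : UA true n N l s := by
  obtain ⟨hl, hs0, hb, hb', hQ, hlen, h5, h6⟩ := h
  rw [UpA_jn_rf, List.head?_map, Option.map_eq_some_iff] at hb hb'
  rw [UpA_jn_rf, UpA_jn_rf] at hQ
  rw [UpA_hj_rf] at h5 h6
  refine ⟨by simpa using hl, by simpa using hs0, ?_, ?_, UpA_Q1 hQ, ?_, h5, h6⟩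
  · obtain ⟨b, h1, h2⟩ := hb
    rw [h1]
    simp only [Bool.not_eq_eq_eq_not, Bool.not_false] at h2
    rw [h2]
  · obtain ⟨b, h1, h2⟩ := hb'
    rw [h1]
    simp only [Bool.not_false, Bool.not_eq_eq_eq_not, Bool.not_true] at h2
    rw [h2]
    rfl
  · intro c hc
    have h1 : rfB c ∈ l.map rfB ++ s.map rfB := by
      rw [← List.map_append]
      exact List.mem_map_of_mem hc
    have h2 := hlen _ h1
    simpa [rfB] using h2

private lemma UpA_B (n N : ℕ) : ∑' l : List Blk, ∑' s : List Blk, ind (UA false n N l s) * UW N l s ≤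
    ∑' l : List Blk, ∑' s : List Blk, ind (UA true n N l s) * UW N l s := by
  let e : List Blk ≃ List Blk :=
    { toFun := fun l => l.map rfB
      invFun := fun l => l.map rfB
      left_inv := fun l => by
        simp only [List.map_map]
        conv_rhs => rw [← List.map_id l]
        refine List.map_congr_left fun c _ => ?_
        exact UpA_rfrf c
      right_inv := fun l => by
        simp only [List.map_map]
        conv_rhs => rw [← List.map_id l]
        refine List.map_congr_left fun c _ => ?_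
        exact UpA_rfrf c }
  rw [← e.tsum_eq]
  refine ENNReal.tsum_le_tsum fun l => ?_
  rw [← e.tsum_eq]
  refine ENNReal.tsum_le_tsum fun s => ?_
  change ind (UA false n N (l.map rfB) (s.map rfB)) * UW N (l.map rfB) (s.map rfB) ≤ _
  unfold UW
  rw [UpA_wj_rf, UpA_wj_rf, UpA_hj_rf, UpA_hj_rf]
  gcongr
  exact ind_mono UpA_UA

/-! ### the cases -/

private lemma UpA_cases {n N : ℕ} {l s : List Blk} (hQ : QB l s) (h1 : hj l ≤ N - 1) (h2 : hj s ≤ N) :
    l = [] ∨ s = [] ∨ (∃ c ∈ l, n < c.1.length) ∨ (∃ c ∈ s, n < c.1.length) ∨ UA true n N l s ∨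
      UA false n N l s := by
  by_cases hl : l = []
  · exact Or.inl hl
  by_cases hs0 : s = []
  · exact Or.inr (Or.inl hs0)
  by_cases hc : ∃ c ∈ l, n < c.1.length
  · exact Or.inr (Or.inr (Or.inl hc))
  by_cases hc' : ∃ c ∈ s, n < c.1.length
  · exact Or.inr (Or.inr (Or.inr (Or.inl hc')))
  push Not at hc hc'
  have hQ' : Q1 (jn l) (jn s) := by
    rcases hQ with h | h | h
    · exact absurd h hl
    · exact absurd h hs0
    · exact h
  have hlen : ∀ c ∈ l ++ s, c.1.length ≤ n := by
    intro c hm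
    rcases List.mem_append.1 hm with hm | hm
    · exact hc c hm
    · exact hc' c hm
  have hjl : jn l ≠ [] := by
    obtain ⟨c, r, rfl⟩ := List.exists_cons_of_ne_nil hl
    intro e
    have h3 := UpA_head (c := c) (l := r)
    rw [e] at h3
    exact UpA_ne c (List.head?_eq_none_iff.1 h3.symm)
  have hjs : jn s ≠ [] := by
    obtain ⟨c, r, rfl⟩ := List.exists_cons_of_ne_nil hs0
    intro e
    have h3 := UpA_head (c := c) (l := r)
    rw [e] at h3
    exact UpA_ne c (List.head?_eq_none_iff.1 h3.symm)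
  obtain ⟨b, W, hW⟩ := List.exists_cons_of_ne_nil hjl
  obtain ⟨b', W', hW'⟩ := List.exists_cons_of_ne_nil hjs
  have hbb : b' = !b := by
    by_contra hne
    have e : b' = b := by
      cases b <;> cases b' <;> simp_all
    subst e
    have hv : ∀ U : List Bool, tn b' (1, 0) ∈ V (b' :: U) := by
      intro U
      unfold V
      simp only [vs, List.mem_cons]
      right
      have : ∀ (p d : ℤ × ℤ) (X : List Bool), p ∈ vs p d X := by
        intro p d X
        cases X <;> simp [vs]
      have e2 : ((0, 0) : ℤ × ℤ) + tn b' (1, 0) = tn b' (1, 0) := by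
        rw [show ((0, 0) : ℤ × ℤ) = 0 from rfl, zero_add]
      rw [e2]
      exact this _ _ _
    have h3 := hQ' (tn b' (1, 0)) (by rw [hW]; exact hv W) (by rw [hW']; exact hv W')
    cases b' <;> exact absurd h3 (by decide)
  right; right; right; right
  cases b
  · right
    exact ⟨hl, hs0, by rw [hW]; rfl, by rw [hW', hbb]; rfl, hQ', hlen, h1, h2⟩
  · left
    exact ⟨hl, hs0, by rw [hW]; rfl, by rw [hW', hbb]; rfl, hQ', hlen, h1, h2⟩

private lemma UpA_le_tot {M : ℕ} : ∑' l : List Blk, ind (hj l ≤ M) * (wj l * (hs 1).Lam (M - hj l)) = 1 :=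
  (hs 1).toAlph.tsum_w_Lam M

theorem pb_le (N n : ℕ) (hN : 1 ≤ N) (hn : 1 ≤ n) : PB (N + 1) ≤ 2 * (xE⁻¹) ^ 2 * (hs n).a N + 2 * (hs 1).Lam (N - 1) +
    2 * ((hs 1).U N * ∑' c : Blk, ind (htw c.1 ≤ N ∧ n < c.1.length) * xE ^ (c.1.length + 1)) := by
  refine (cut_le N hN).trans ?_
  obtain ⟨S, hS⟩ : ∃ S : ℝ≥0∞, S = ∑' c : Blk, ind (htw c.1 ≤ N ∧ n < c.1.length) * xE ^ (c.1.length + 1) := ⟨_, rfl⟩
  rw [← hS]
  -- pointwise
  have h1 : ∀ l s : List Blk, ind (QB l s ∧ hj l ≤ N - 1 ∧ hj s ≤ N) *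
      (wj l * wj s * ((hs 1).Lam (N - 1 - hj l) * (hs 1).Lam (N - hj s))) ≤
      (ind (l = []) + ind (s = []) + (ind (∃ c ∈ l, n < c.1.length) + ind (∃ c ∈ s, n < c.1.length))) *
        (ind (hj l ≤ N - 1) * (wj l * (hs 1).Lam (N - 1 - hj l)) *
          (ind (hj s ≤ N) * (wj s * (hs 1).Lam (N - hj s)))) +
      (ind (UA true n N l s) * UW N l s + ind (UA false n N l s) * UW N l s) := by
    intro l s
    by_cases h : QB l s ∧ hj l ≤ N - 1 ∧ hj s ≤ N
    · obtain ⟨hQ, h2, h3⟩ := h
      rw [ind_true ⟨hQ, h2, h3⟩, one_mul, ind_true h2, ind_true h3, one_mul, one_mul]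
      have e : wj l * wj s * ((hs 1).Lam (N - 1 - hj l) * (hs 1).Lam (N - hj s)) =
        wj l * (hs 1).Lam (N - 1 - hj l) * (wj s * (hs 1).Lam (N - hj s)) := by ring
      rcases UpA_cases (n := n) hQ h2 h3 with h4 | h4 | h4 | h4 | h4 | h4
      · refine le_trans ?_ le_self_add
        rw [e, ind_true h4, add_assoc, add_mul, one_mul]
        exact le_self_add
      · refine le_trans ?_ le_self_add
        rw [e, ind_true h4, add_mul, add_mul, one_mul]
        exact le_add_right le_add_self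
      · refine le_trans ?_ le_self_add
        rw [e, ind_true h4, add_mul, add_mul 1, one_mul]
        exact le_add_left le_self_add
      · refine le_trans ?_ le_self_add
        rw [e, ind_true h4, add_mul _ (_ + _), add_mul _ 1, one_mul]
        exact le_add_left le_add_self
      · refine le_trans ?_ le_add_self
        rw [ind_true h4, one_mul]
        exact le_self_add
      · refine le_trans ?_ le_add_self
        rw [ind_true h4, one_mul]
        exact le_add_self
    · rw [ind_false h, zero_mul]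
      exact zero_le
  refine (ENNReal.tsum_le_tsum fun l => ENNReal.tsum_le_tsum fun s => h1 l s).trans ?_
  obtain ⟨f, hf⟩ : ∃ f : List Blk → ℝ≥0∞, f = fun l => ind (hj l ≤ N - 1) * (wj l * (hs 1).Lam (N - 1 - hj l)) := ⟨_, rfl⟩
  obtain ⟨g, hg⟩ : ∃ g : List Blk → ℝ≥0∞, g = fun s => ind (hj s ≤ N) * (wj s * (hs 1).Lam (N - hj s)) := ⟨_, rfl⟩
  have hf1 : ∑' l, f l = 1 := by rw [hf]; exact UpA_le_tot
  have hg1 : ∑' l, g l = 1 := by rw [hg]; exact UpA_le_tot
  have hf2 : ∑' l, ind (l = []) * f l ≤ (hs 1).Lam (N - 1) := by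
    rw [tsum_eq_single ([] : List Blk) (fun l hl => by rw [ind_false hl, zero_mul]), ind_true rfl, one_mul, hf]
    simp only
    rw [hj_nil, wj_nil, ind_true (Nat.zero_le _), one_mul, one_mul, Nat.sub_zero]
  have hg2 : ∑' s, ind (s = []) * g s ≤ (hs 1).Lam (N - 1) := by
    rw [tsum_eq_single ([] : List Blk) (fun l hl => by rw [ind_false hl, zero_mul]), ind_true rfl, one_mul, hg]
    simp only
    rw [hj_nil, wj_nil, ind_true (Nat.zero_le _), one_mul, one_mul, Nat.sub_zero]
    exact (hs 1).toAlph.Lam_anti (Nat.sub_le N 1)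
  have hf3 : ∑' l, ind (∃ c ∈ l, n < c.1.length) * f l ≤ (hs 1).U N * S := by
    have h2 := long_list (N - 1) n
    calc ∑' l, ind (∃ c ∈ l, n < c.1.length) * f l
        = ∑' l : List Blk, ind (hj l ≤ N - 1 ∧ ∃ c ∈ l, n < c.1.length) * (wj l * (hs 1).Lam (N - 1 - hj l)) := by
          refine tsum_congr fun l => ?_
          rw [hf, ind_and]
          ring
      _ ≤ _ := h2
      _ ≤ (hs 1).U N * S := by
          rw [hS]
          refine mul_le_mul' ((hs 1).toAlph.U_mono (Nat.sub_le N 1)) (ENNReal.tsum_le_tsum fun c => ?_)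
          gcongr
          exact ind_mono fun h => ⟨by omega, h.2⟩
  have hg3 : ∑' s, ind (∃ c ∈ s, n < c.1.length) * g s ≤ (hs 1).U N * S := by
    have h2 := long_list N n
    calc ∑' l, ind (∃ c ∈ l, n < c.1.length) * g l
        = ∑' l : List Blk, ind (hj l ≤ N ∧ ∃ c ∈ l, n < c.1.length) * (wj l * (hs 1).Lam (N - hj l)) := by
          refine tsum_congr fun l => ?_
          rw [hg, ind_and]
          ring
      _ ≤ _ := h2
      _ = (hs 1).U N * S := by rw [hS]
  have hA := UpA_A hN hn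
  have hB := (UpA_B n N).trans hA
  -- the sum
  have hsum : (∑' l : List Blk, ∑' s : List Blk,
      ((ind (l = []) + ind (s = []) + (ind (∃ c ∈ l, n < c.1.length) + ind (∃ c ∈ s, n < c.1.length))) *
        (f l * g s) + (ind (UA true n N l s) * UW N l s + ind (UA false n N l s) * UW N l s))) =
      (((∑' l, ind (l = []) * f l) * ∑' s, g s) + ((∑' l, f l) * ∑' s, ind (s = []) * g s) +
        (((∑' l, ind (∃ c ∈ l, n < c.1.length) * f l) * ∑' s, g s) +
          ((∑' l, f l) * ∑' s, ind (∃ c ∈ s, n < c.1.length) * g s))) +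
      ((∑' l : List Blk, ∑' s : List Blk, ind (UA true n N l s) * UW N l s) +
        ∑' l : List Blk, ∑' s : List Blk, ind (UA false n N l s) * UW N l s) := by
    simp only [← ENNReal.tsum_mul_right]
    simp only [← ENNReal.tsum_mul_left]
    simp only [← ENNReal.tsum_add]
    refine tsum_congr fun l => tsum_congr fun s => ?_
    ring
  have e0 : (∑' l : List Blk, ∑' s : List Blk,
      ((ind (l = []) + ind (s = []) + (ind (∃ c ∈ l, n < c.1.length) + ind (∃ c ∈ s, n < c.1.length))) *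
        (ind (hj l ≤ N - 1) * (wj l * (hs 1).Lam (N - 1 - hj l)) *
          (ind (hj s ≤ N) * (wj s * (hs 1).Lam (N - hj s)))) +
      (ind (UA true n N l s) * UW N l s + ind (UA false n N l s) * UW N l s))) = (∑' l : List Blk, ∑' s : List Blk,
      ((ind (l = []) + ind (s = []) + (ind (∃ c ∈ l, n < c.1.length) + ind (∃ c ∈ s, n < c.1.length))) *
        (f l * g s) + (ind (UA true n N l s) * UW N l s + ind (UA false n N l s) * UW N l s))) := by
    rw [hf, hg]
  rw [e0, hsum, hf1, hg1, mul_one, mul_one, one_mul, one_mul]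
  calc _ ≤ ((hs 1).Lam (N - 1) + (hs 1).Lam (N - 1) + ((hs 1).U N * S + (hs 1).U N * S)) +
        ((xE⁻¹) ^ 2 * (hs n).a N + (xE⁻¹) ^ 2 * (hs n).a N) := by
        gcongr
    _ = _ := by ring

end Pool.Agent.BEX.F
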