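import Pool.Agent.BEX.F.UpA
import Pool.Agent.BEX.F.Red
import Pool.Agent.BEX.Reg
import Pool.Agent.PLY.Ch.Defs

/-!
BEX/F: `P_N ≤ 2 x⁻² fa (N - 1)`, `fa` = full avoidance of two legs up to their first renewals `≥ N` (PLY/Ch/Defs), and the sharp upper
bound `P_N ≤ C N^(-3/4)` from `fa i * U i ≤ K` (field `full` of `Sys.Ply`).

PAPER PROOF. As in UpA: in a pair `(L, S)` with the event of Q1 the first turns are different; if `L` starts to the left the pair
`(uB :: L.map rvB, phL S)` avoids (`fold_av`), mass at least `x ^ 2` times the mass of `(L, S)`; the first leg passes level `N + 1`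
with its last block, its prefix which passes level `N` with its last block avoids `phL S` too, and the last block (if it was
removed) is free, total mass `1`. If `L` starts to the right reflect first.
-/

namespace Pool.Agent.BEX.F

open Pool.Agent.Hhelper14.SAW Pool.Agent.HHP Pool.Agent.HEP Pool.Agent.BEX.C
open scoped ENNReal

private lemma UpF_inj {α β : Type} (P : α → Prop) (g : α → β)
    (hg : ∀ a a', P a → P a' → g a = g a' → a = a') (f : α → ℝ≥0∞) (F : β → ℝ≥0∞)
    (h : ∀ a, P a → f a ≤ F (g a)) : ∑' a, ind (P a) * f a ≤ ∑' b, F b := by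
  have h1 : ∑' a, ind (P a) * f a = ∑' a : {a // P a}, f a.1 := by
    symm
    refine (tsum_subtype {a | P a} f).trans (tsum_congr fun a => ?_)
    by_cases ha : P a
    · rw [Set.indicator_of_mem (by exact ha), ind_true ha, one_mul]
    · rw [Set.indicator_of_notMem (by exact ha), ind_false ha, zero_mul]
  rw [h1]
  calc ∑' a : {a // P a}, f a.1 ≤ ∑' a : {a // P a}, F (g a.1) := ENNReal.tsum_le_tsum fun a => h a.1 a.2
    _ ≤ ∑' b, F b := ENNReal.tsum_comp_le_tsum_of_injective (f := fun a : {a // P a} => g a.1)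
        (fun a a' e => Subtype.ext (hg _ _ a.2 a'.2 e)) F

private lemma UpF_ne (c : Blk) : c.1 ≠ [] := by
  intro h
  have h1 := c.2.br.2
  rw [h] at h1
  have h2 : F0 (E []) = 0 := by decide
  rw [h2] at h1
  omega

private lemma UpF_head {c : Blk} {l : List Blk} : (jn (c :: l)).head? = c.1.head? := by
  by_cases h : l = []
  · subst h
    rfl
  · rw [jn_cons h, List.head?_append_of_ne_nil _ (UpF_ne c)]

private lemma UpF_phB {c : Blk} (h : c.1.head? = some false) : (phB c).1 = phi c.1 := by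
  unfold phB
  rw [dif_pos h]

private lemma UpF_phL_inj {s s' : List Blk} (hs0 : s ≠ []) (hs0' : s' ≠ []) (h : (jn s).head? = some false)
    (h' : (jn s').head? = some false) (e : phL s = phL s') : s = s' := by
  obtain ⟨c, r, rfl⟩ := List.exists_cons_of_ne_nil hs0
  obtain ⟨c', r', rfl⟩ := List.exists_cons_of_ne_nil hs0'
  rw [UpF_head] at h h'
  simp only [phL, List.cons.injEq] at e
  obtain ⟨e1, e2⟩ := e
  have e3 := congrArg Subtype.val e1
  rw [UpF_phB h, UpF_phB h'] at e3
  rw [e2, Subtype.ext (phi_inj c.2.br h c'.2.br h' e3)]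

private lemma UpF_wj_phL {s : List Blk} (hs0 : s ≠ []) (h : (jn s).head? = some false) : wj s ≤ wj (phL s) := by
  obtain ⟨c, r, rfl⟩ := List.exists_cons_of_ne_nil hs0
  rw [UpF_head] at h
  simp only [phL]
  rw [wj_cons, wj_cons, UpF_phB h]
  gcongr ?_ * _
  refine pow_le_pow_right_of_le_one' xE_le ?_
  have := (phi_br c.2.br h).2
  omega

private lemma UpF_hj_uB (l : List Blk) : hj (uB :: l.map rvB) = 1 + hj l := by
  have h1 : hj (l.map rvB) = hj l := by
    unfold hj
    rw [List.map_map]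
    congr 1
    refine List.map_congr_left fun c _ => ?_
    exact htw_rvB c
  rw [hj_cons, h1]
  congr 1

private lemma UpF_wj_uB (l : List Blk) : wj (uB :: l.map rvB) = xE ^ 2 * wj l := by
  have h1 : wj (l.map rvB) = wj l := by
    unfold wj
    rw [List.map_map]
    congr 1
    refine List.map_congr_left fun c _ => ?_
    simp only [Function.comp]
    rw [len_rvB]
  rw [wj_cons, h1]
  rfl


/-! ### reflection -/

private def rfB (c : Blk) : Blk := ⟨c.1.map (! ·), Irr_not c.2⟩

private lemma UpF_nn (W : List Bool) : (W.map (! ·)).map (! ·) = W := by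
  rw [List.map_map]
  conv_rhs => rw [← List.map_id W]
  refine List.map_congr_left fun b _ => ?_
  simp

private lemma UpF_rfrf (c : Blk) : rfB (rfB c) = c := Subtype.ext (UpF_nn c.1)

private lemma UpF_rt {k : ℕ} {W : List Bool} (h : Br k W) : rt (W.map (! ·)) = !rt W := by
  have h1 := (Br_not h).tn_rt
  have h2 := h.tn_rt
  have h3 : tn (!rt W) (Dr (W.map (! ·))) = (1, 0) := by
    rw [Dr_not]
    have e : ∀ (b : Bool) (d : ℤ × ℤ), sg (tn b d) = tn (!b) (sg d) := by
      intro b d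
      cases b
      · simp [tn, sg_R]
      · simp [tn, sg_L]
    rw [← e, h2]
    simp [sg]
  exact tn_inj (U_Dr _) (h1.trans h3.symm)

private lemma UpF_jn_rf (l : List Blk) : jn (l.map rfB) = (jn l).map (! ·) := by
  induction l with
  | nil => rfl
  | cons c l ih =>
    by_cases h : l = []
    · subst h
      rfl
    · rw [List.map_cons, jn_cons (by simpa using h), jn_cons h, ih, List.map_append, List.map_cons]
      have e : rt (rfB c).1 = !rt c.1 := UpF_rt c.2.br
      rw [e]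
      rfl

private lemma UpF_hj_rf (l : List Blk) : hj (l.map rfB) = hj l := by
  unfold hj
  rw [List.map_map]
  congr 1
  refine List.map_congr_left fun c _ => ?_
  exact htw_not c

private lemma UpF_wj_rf (l : List Blk) : wj (l.map rfB) = wj l := by
  unfold wj
  rw [List.map_map]
  congr 1
  refine List.map_congr_left fun c _ => ?_
  simp [rfB]

private lemma UpF_sg0 {z : ℤ × ℤ} (h : sg z = (0, 0)) : z = (0, 0) := by
  obtain ⟨a, b⟩ := z
  simp only [sg, Prod.mk.injEq] at h ⊢
  omega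

private lemma UpF_Q1 {W W' : List Bool} (h : Q1 (W.map (! ·)) (W'.map (! ·))) : Q1 W W' := by
  intro z hz hz'
  apply UpF_sg0
  apply h
  · rw [V_not]
    exact List.mem_map_of_mem hz
  · rw [V_not]
    exact List.mem_map_of_mem hz'


/-! ### stopped lists -/

private lemma UpF_FR {N : ℕ} (hN : 1 ≤ N) {l : List Blk} (h : StB N l) : hsI.toAlph.FR (N - 1) l := by
  obtain ⟨h1, h2⟩ := h
  rcases List.eq_nil_or_concat l with rfl | ⟨l0, c, rfl⟩
  · rw [hj_nil] at h1
    omega
  · rw [List.concat_eq_append] at h1 h2 ⊢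
    rw [List.dropLast_concat] at h2
    rw [hj_append, hj_cons, hj_nil] at h1
    refine ⟨l0, c, rfl, ?_, ?_⟩
    · change hj l0 ≤ N - 1
      omega
    · change N - 1 < hj l0 + htw c.1
      omega

private lemma UpF_StB_app {N : ℕ} (hN : 1 ≤ N) {l0 : List Blk} {c : Blk} (h : StB (N + 1) (l0 ++ [c])) :
    (StB N (l0 ++ [c]) ∧ N + 1 ≤ hj (l0 ++ [c])) ∨ (StB N l0 ∧ hj l0 = N) := by
  obtain ⟨h1, h2⟩ := h
  rw [List.dropLast_concat] at h2
  by_cases h3 : hj l0 < N
  · left
    refine ⟨⟨by omega, ?_⟩, h1⟩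
    rw [List.dropLast_concat]
    exact h3
  · right
    have h4 : hj l0 = N := by omega
    refine ⟨⟨h4.ge, ?_⟩, h4⟩
    rcases List.eq_nil_or_concat l0 with rfl | ⟨l1, d, rfl⟩
    · rw [hj_nil] at h4
      omega
    · rw [List.concat_eq_append] at h4 ⊢
      rw [List.dropLast_concat]
      rw [hj_append, hj_cons, hj_nil] at h4
      have := htw_pos d.1
      omega

/-- The stopped list at `N + 1` against the stopped list at `N`. -/
private lemma UpF_cut {N : ℕ} (hN : 1 ≤ N) (G : List Blk → ℝ≥0∞) (hG : ∀ l r, G (l ++ r) ≤ G l) :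
    ∑' l : List Blk, ind (StB (N + 1) l) * (G l * wj l) ≤ ∑' l : List Blk, ind (StB N l) * (G l * wj l) := by
  have h1 : ∀ l : List Blk, ind (StB (N + 1) l) * (G l * wj l) ≤
      ind (StB N l ∧ N + 1 ≤ hj l) * (G l * wj l) +
        ∑' p : List Blk × Blk, ind (l = p.1 ++ [p.2]) * (ind (StB N p.1 ∧ hj p.1 = N) * (G p.1 * wj p.1) *
          xE ^ (p.2.1.length + 1)) := by
    intro l
    by_cases h : StB (N + 1) l
    · rcases List.eq_nil_or_concat l with rfl | ⟨l0, c, rfl⟩
      · have := h.1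
        rw [hj_nil] at this
        omega
      · rw [List.concat_eq_append] at h ⊢
        rw [ind_true h, one_mul]
        rcases UpF_StB_app hN h with h2 | h2
        · rw [ind_true (p := StB N (l0 ++ [c]) ∧ N + 1 ≤ hj (l0 ++ [c])) h2, one_mul]
          exact le_self_add
        · refine le_trans ?_ le_add_self
          refine le_trans ?_ (ENNReal.le_tsum (l0, c))
          rw [ind_true (p := l0 ++ [c] = l0 ++ [c]) rfl, ind_true h2, one_mul, one_mul, wj_append, wj_cons, wj_nil, mul_one, ← mul_assoc]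
          gcongr
          exact hG l0 [c]
    · rw [ind_false h, zero_mul]
      exact zero_le
  refine (ENNReal.tsum_le_tsum h1).trans ?_
  rw [ENNReal.tsum_add, ENNReal.tsum_comm]
  have h2 : ∀ p : List Blk × Blk, (∑' l : List Blk, ind (l = p.1 ++ [p.2]) * (ind (StB N p.1 ∧ hj p.1 = N) * (G p.1 * wj p.1) *
          xE ^ (p.2.1.length + 1))) = ind (StB N p.1 ∧ hj p.1 = N) * (G p.1 * wj p.1) * xE ^ (p.2.1.length + 1) := by
    intro p
    rw [tsum_eq_single (p.1 ++ [p.2])]
    · rw [ind_true rfl, one_mul]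
    · intro l hl
      rw [ind_false hl, zero_mul]
  rw [tsum_congr h2, ENNReal.tsum_prod']
  have h3 : ∀ l : List Blk, (∑' c : Blk, ind (StB N l ∧ hj l = N) * (G l * wj l) * xE ^ (c.1.length + 1)) =
      ind (StB N l ∧ hj l = N) * (G l * wj l) := by
    intro l
    rw [ENNReal.tsum_mul_left, blk_tot, mul_one]
  rw [tsum_congr h3, ← ENNReal.tsum_add]
  refine ENNReal.tsum_le_tsum fun l => ?_
  rw [← add_mul]
  gcongr
  by_cases h : StB N l
  · by_cases h' : hj l = N
    · rw [ind_false (p := StB N l ∧ N + 1 ≤ hj l) (by omega), zero_add]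
      exact ind_mono fun h => h.1
    · rw [ind_false (p := StB N l ∧ hj l = N) (fun h => h' h.2), add_zero]
      exact ind_mono fun h => h.1
  · rw [ind_false (fun h' => h h'.1), ind_false (fun h' => h h'.1), zero_add]
    exact zero_le

/-- The pairs, `l` starts to the left (`b = true`) or to the right. -/
private def UpF_P (b : Bool) (N : ℕ) (l s : List Blk) : Prop :=
  StB N l ∧ StB N s ∧ (jn l).head? = some b ∧ (jn s).head? = some (!b) ∧ Q1 (jn l) (jn s)

private lemma UpF_stne {N : ℕ} (hN : 1 ≤ N) {l : List Blk} (h : StB N l) : l ≠ [] := by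
  rintro rfl
  have h1 := h.1
  rw [hj_nil] at h1
  omega

private lemma UpF_Avn {l s : List Blk} (hl : l ≠ []) (hs0 : s ≠ []) (h1 : (jn l).head? = some true)
    (h2 : (jn s).head? = some false) (hQ : Q1 (jn l) (jn s)) : AvI (uB :: l.map rvB) (phL s) := by
  have hb : ∀ L : List Blk, ∃ n : ℕ, ∀ c ∈ L, c.1.length ≤ n := by
    intro L
    induction L with
    | nil => exact ⟨0, fun c hc => by simp at hc⟩
    | cons d L ih =>
      obtain ⟨n, hn⟩ := ih
      refine ⟨max n d.1.length, fun c hc => ?_⟩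
      rcases List.mem_cons.1 hc with rfl | hc
      · exact le_max_right _ _
      · exact (hn c hc).trans (le_max_left _ _)
  obtain ⟨n, hn⟩ := hb (l ++ s)
  exact (fold_av (n := n + 1) (by omega) hl hs0 h1 h2 hQ fun c hc => (hn c hc).trans (Nat.le_succ n)).2

private lemma UpF_uB {N : ℕ} {l : List Blk} (hl : l ≠ []) (h : StB N l) : StB (N + 1) (uB :: l.map rvB) := by
  obtain ⟨h1, h2⟩ := h
  have e : (uB :: l.map rvB).dropLast = uB :: l.dropLast.map rvB := by
    rw [List.dropLast_cons_of_ne_nil (by simpa using hl), List.map_dropLast]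
  refine ⟨?_, ?_⟩
  · rw [UpF_hj_uB]; omega
  · rw [e, UpF_hj_uB]; omega

private lemma UpF_ph {N : ℕ} {s : List Blk} (hs0 : s ≠ []) (h : StB N s) : StB N (phL s) := by
  obtain ⟨h1, h2⟩ := h
  refine ⟨by rw [hj_phL]; exact h1, ?_⟩
  have e : (phL s).dropLast = phL s.dropLast ∨ s.dropLast = [] := by
    obtain ⟨c, r, rfl⟩ := List.exists_cons_of_ne_nil hs0
    cases r with
    | nil => right; rfl
    | cons d r => left; rfl
  rcases e with e | e
  · rw [e, hj_phL]; exact h2
  · obtain ⟨c, r, rfl⟩ := List.exists_cons_of_ne_nil hs0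
    have hr : r = [] := by
      cases r with
      | nil => rfl
      | cons d r => simp at e
    subst hr
    simpa [phL, hj_nil] using h2

private lemma UpF_A {N : ℕ} (hN : 1 ≤ N) :
    ∑' l : List Blk, ∑' s : List Blk, ind (UpF_P true N l s) * (wj l * wj s) ≤ (xE⁻¹) ^ 2 * hsI.fa (N - 1) := by
  obtain ⟨G, hG⟩ : ∃ G : List Blk → ℝ≥0∞, G = fun l' => ∑' s' : List Blk, ind (StB N s' ∧ AvI l' s') * wj s' := ⟨_, rfl⟩
  have h1 : ∀ l : List Blk, (∑' s : List Blk, ind (UpF_P true N l s) * (wj l * wj s)) ≤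
      (xE⁻¹) ^ 2 * (ind (StB (N + 1) (uB :: l.map rvB)) * (G (uB :: l.map rvB) * wj (uB :: l.map rvB))) := by
    intro l
    by_cases hl : StB N l
    · rw [ind_true (UpF_uB (UpF_stne hN hl) hl), one_mul, hG]
      simp only
      rw [← ENNReal.tsum_mul_right, ← ENNReal.tsum_mul_left]
      refine UpF_inj (UpF_P true N l) phL ?_ _ _ ?_
      · intro s s' hs1 hs2 e
        exact UpF_phL_inj (UpF_stne hN hs1.2.1) (UpF_stne hN hs2.2.1) hs1.2.2.2.1 hs2.2.2.2.1 e
      · rintro s ⟨-, hs0, hb, hb', hQ⟩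
        have hs1 := UpF_stne hN hs0
        have hav := UpF_Avn (UpF_stne hN hl) hs1 hb hb' hQ
        rw [ind_true ⟨UpF_ph hs1 hs0, hav⟩, one_mul, UpF_wj_uB]
        calc wj l * wj s ≤ wj l * wj (phL s) := by
              gcongr
              exact UpF_wj_phL hs1 hb'
          _ = (xE⁻¹ * xE) ^ 2 * (wj l * wj (phL s)) := by
              rw [ENNReal.inv_mul_cancel xE_ne.1 xE_ne.2, one_pow, one_mul]
          _ = _ := by ring
    · refine le_trans (le_of_eq ?_) zero_le
      rw [ENNReal.tsum_eq_zero]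
      intro s
      rw [ind_false (fun h => hl h.1), zero_mul]
  refine (ENNReal.tsum_le_tsum h1).trans ?_
  rw [ENNReal.tsum_mul_left]
  refine mul_le_mul' le_rfl ?_
  have hinj : Function.Injective (fun l : List Blk => uB :: l.map rvB) := by
    intro l l' e
    rw [List.cons.injEq] at e
    have hr : Function.Injective rvB := fun c c' e => by rw [← rvB_rvB c, e, rvB_rvB]
    exact hr.list_map e.2
  refine (ENNReal.tsum_comp_le_tsum_of_injective hinj (fun l' => ind (StB (N + 1) l') * (G l' * wj l'))).trans ?_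
  refine (UpF_cut hN G ?_).trans ?_
  · intro l r
    rw [hG]
    refine ENNReal.tsum_le_tsum fun s => ?_
    gcongr
    exact ind_mono fun h => ⟨h.1, AvI_pre (l := l) (l' := r) (s := s) (s' := []) (by rw [List.append_nil]; exact h.2)⟩
  · rw [hG]
    refine ENNReal.tsum_le_tsum fun l => ?_
    rw [← ENNReal.tsum_mul_right, ← ENNReal.tsum_mul_left]
    refine ENNReal.tsum_le_tsum fun s => ?_
    change _ ≤ ind (AvI l s) * (ind (hsI.toAlph.FR (N - 1) l) * wj l * (ind (hsI.toAlph.FR (N - 1) s) * wj s))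
    calc ind (StB N l) * (ind (StB N s ∧ AvI l s) * wj s * wj l)
        = ind (AvI l s) * (ind (StB N l) * wj l * (ind (StB N s) * wj s)) := by rw [ind_and]; ring
      _ ≤ _ := by
          gcongr
          · exact ind_mono fun h => UpF_FR hN h
          · exact ind_mono fun h => UpF_FR hN h

private lemma UpF_StB_rf {N : ℕ} {l : List Blk} (h : StB N (l.map rfB)) : StB N l := by
  obtain ⟨h1, h2⟩ := h
  rw [UpF_hj_rf] at h1
  rw [← List.map_dropLast, UpF_hj_rf] at h2
  exact ⟨h1, h2⟩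

private lemma UpF_P_rf {N : ℕ} {l s : List Blk} (h : UpF_P false N (l.map rfB) (s.map rfB)) : UpF_P true N l s := by
  obtain ⟨hl, hs0, hb, hb', hQ⟩ := h
  rw [UpF_jn_rf, List.head?_map, Option.map_eq_some_iff] at hb hb'
  rw [UpF_jn_rf, UpF_jn_rf] at hQ
  refine ⟨UpF_StB_rf hl, UpF_StB_rf hs0, ?_, ?_, UpF_Q1 hQ⟩
  · obtain ⟨b, h1, h2⟩ := hb
    rw [h1]
    simp only [Bool.not_eq_eq_eq_not, Bool.not_false] at h2
    rw [h2]
  · obtain ⟨b, h1, h2⟩ := hb'
    rw [h1]
    simp only [Bool.not_false, Bool.not_eq_eq_eq_not, Bool.not_true] at h2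
    rw [h2]
    rfl

private lemma UpF_B (N : ℕ) : ∑' l : List Blk, ∑' s : List Blk, ind (UpF_P false N l s) * (wj l * wj s) ≤
    ∑' l : List Blk, ∑' s : List Blk, ind (UpF_P true N l s) * (wj l * wj s) := by
  let e : List Blk ≃ List Blk :=
    { toFun := fun l => l.map rfB
      invFun := fun l => l.map rfB
      left_inv := fun l => by
        simp only [List.map_map]
        conv_rhs => rw [← List.map_id l]
        refine List.map_congr_left fun c _ => ?_
        exact UpF_rfrf c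
      right_inv := fun l => by
        simp only [List.map_map]
        conv_rhs => rw [← List.map_id l]
        refine List.map_congr_left fun c _ => ?_
        exact UpF_rfrf c }
  rw [← e.tsum_eq]
  refine ENNReal.tsum_le_tsum fun l => ?_
  rw [← e.tsum_eq]
  refine ENNReal.tsum_le_tsum fun s => ?_
  change ind (UpF_P false N (l.map rfB) (s.map rfB)) * (wj (l.map rfB) * wj (s.map rfB)) ≤ _
  rw [UpF_wj_rf, UpF_wj_rf]
  gcongr
  exact ind_mono UpF_P_rf

private lemma UpF_jne {l : List Blk} (h : l ≠ []) : jn l ≠ [] := by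
  obtain ⟨c, r, rfl⟩ := List.exists_cons_of_ne_nil h
  intro e
  have h3 := UpF_head (c := c) (l := r)
  rw [e] at h3
  exact UpF_ne c (List.head?_eq_none_iff.1 h3.symm)

private lemma UpF_cases {N : ℕ} (hN : 1 ≤ N) {l s : List Blk} (hl : StB N l) (hs0 : StB N s) (hQ : QB l s) :
    UpF_P true N l s ∨ UpF_P false N l s := by
  have hl' := UpF_stne hN hl
  have hs' := UpF_stne hN hs0
  have hQ' : Q1 (jn l) (jn s) := by
    rcases hQ with h | h | h
    · exact absurd h hl'
    · exact absurd h hs'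
    · exact h
  obtain ⟨b, W, hW⟩ := List.exists_cons_of_ne_nil (UpF_jne hl')
  obtain ⟨b', W', hW'⟩ := List.exists_cons_of_ne_nil (UpF_jne hs')
  have hbb : b' = !b := by
    by_contra hne
    have e : b' = b := by
      cases b <;> cases b' <;> simp_all
    subst e
    have hv : ∀ U : List Bool, tn b' (1, 0) ∈ V (b' :: U) := by
      intro U
      unfold V
      simp only [vs, List.mem_cons]
      right
      have : ∀ (p d : ℤ × ℤ) (X : List Bool), p ∈ vs p d X := by
        intro p d X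
        cases X <;> simp [vs]
      have e2 : ((0, 0) : ℤ × ℤ) + tn b' (1, 0) = tn b' (1, 0) := by
        rw [show ((0, 0) : ℤ × ℤ) = 0 from rfl, zero_add]
      rw [e2]
      exact this _ _ _
    have h3 := hQ' (tn b' (1, 0)) (by rw [hW]; exact hv W) (by rw [hW']; exact hv W')
    cases b' <;> exact absurd h3 (by decide)
  cases b
  · right
    exact ⟨hl, hs0, by rw [hW]; rfl, by rw [hW', hbb]; rfl, hQ'⟩
  · left
    exact ⟨hl, hs0, by rw [hW]; rfl, by rw [hW', hbb]; rfl, hQ'⟩

theorem pb_fa {N : ℕ} (hN : 1 ≤ N) : PB N ≤ 2 * (xE⁻¹) ^ 2 * hsI.fa (N - 1) := by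
  have h1 : ∀ l s : List Blk, ind (StB N l ∧ StB N s ∧ QB l s) * (wj l * wj s) ≤
      ind (UpF_P true N l s) * (wj l * wj s) + ind (UpF_P false N l s) * (wj l * wj s) := by
    intro l s
    by_cases h : StB N l ∧ StB N s ∧ QB l s
    · rw [ind_true h, one_mul]
      rcases UpF_cases hN h.1 h.2.1 h.2.2 with h2 | h2
      · rw [ind_true h2, one_mul]
        exact le_self_add
      · rw [ind_true h2, one_mul]
        exact le_add_self
    · rw [ind_false h, zero_mul]
      exact zero_le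
  calc PB N ≤ ∑' l : List Blk, ∑' s : List Blk, (ind (UpF_P true N l s) * (wj l * wj s) + ind (UpF_P false N l s) * (wj l * wj s)) :=
        ENNReal.tsum_le_tsum fun l => ENNReal.tsum_le_tsum fun s => h1 l s
    _ = (∑' l : List Blk, ∑' s : List Blk, ind (UpF_P true N l s) * (wj l * wj s)) +
          ∑' l : List Blk, ∑' s : List Blk, ind (UpF_P false N l s) * (wj l * wj s) := by
        simp only [← ENNReal.tsum_add]
    _ ≤ (xE⁻¹) ^ 2 * hsI.fa (N - 1) + (xE⁻¹) ^ 2 * hsI.fa (N - 1) :=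
        add_le_add (UpF_A hN) ((UpF_B N).trans (UpF_A hN))
    _ = _ := by ring

/-- The sharp upper bound, from `fa i * U i ≤ K` (full avoidance). -/
theorem upper_sharp (hfa : ∃ K : ℝ≥0∞, K ≠ ∞ ∧ ∀ i, hsI.fa i * hsI.U i ≤ K) :
    ∃ C : ℝ, 0 < C ∧ ∀ N : ℕ, 1 ≤ N → PB N ≤ ENNReal.ofReal (C * (N : ℝ) ^ (-(3 / 4) : ℝ)) := by
  obtain ⟨K, hK, hfa⟩ := hfa
  have hA : Antitone hsI.b := hs_anti 0
  obtain ⟨c, hc, hU⟩ := hsI_quarter.U_ge hA
  have hxt : xE ≠ ∞ := ne_top_of_le_ne_top ENNReal.one_ne_top xE_le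
  have hx : 0 < xE.toReal := by
    refine ENNReal.toReal_pos ?_ hxt
    exact (ENNReal.ofReal_pos.2 Pool.Agent.Hhelper14.SAW.xc_pos).ne'
  have hxi : xE⁻¹ = ENNReal.ofReal (xE.toReal)⁻¹ := by
    rw [ENNReal.ofReal_inv_of_pos hx, ENNReal.ofReal_toReal hxt]
  have hk : K = ENNReal.ofReal K.toReal := (ENNReal.ofReal_toReal hK).symm
  have hk0 : 0 ≤ K.toReal := ENNReal.toReal_nonneg
  refine ⟨2 * (xE.toReal)⁻¹ ^ 2 * (K.toReal * c⁻¹) + 1, by positivity, fun N hN => ?_⟩
  obtain ⟨M, rfl⟩ : ∃ M, N = M + 1 := ⟨N - 1, by omega⟩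
  have h0 : (0 : ℝ) < (M : ℝ) + 1 := by positivity
  have ha : hsI.fa M ≤ ENNReal.ofReal (K.toReal * (c⁻¹ * ((M : ℝ) + 1) ^ (-(3 / 4) : ℝ))) := by
    have h1 : 0 < c * ((M : ℝ) + 1) ^ (3 / 4 : ℝ) := by positivity
    calc hsI.fa M = hsI.fa M * hsI.U M * (hsI.U M)⁻¹ := by
          rw [mul_assoc, ENNReal.mul_inv_cancel (hsI.toAlph.U_ne_zero M) (hsI.toAlph.U_ne_top M), mul_one]
      _ ≤ K * (ENNReal.ofReal (c * ((M : ℝ) + 1) ^ (3 / 4 : ℝ)))⁻¹ :=
          mul_le_mul' (hfa M) (ENNReal.inv_le_inv.2 (hU M))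
      _ = ENNReal.ofReal K.toReal * ENNReal.ofReal (c⁻¹ * ((M : ℝ) + 1) ^ (-(3 / 4) : ℝ)) := by
          rw [← hk, ← ENNReal.ofReal_inv_of_pos h1, mul_inv, Real.rpow_neg h0.le]
      _ = _ := (ENNReal.ofReal_mul hk0).symm
  have hp : (0 : ℝ) ≤ ((M : ℝ) + 1) ^ (-(3 / 4) : ℝ) := by positivity
  calc PB (M + 1) ≤ 2 * (xE⁻¹) ^ 2 * hsI.fa M := pb_fa hN
    _ ≤ 2 * (ENNReal.ofReal (xE.toReal)⁻¹) ^ 2 * ENNReal.ofReal (K.toReal * (c⁻¹ * ((M : ℝ) + 1) ^ (-(3 / 4) : ℝ))) := by
        rw [hxi]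
        exact mul_le_mul' le_rfl ha
    _ = ENNReal.ofReal (2 * (xE.toReal)⁻¹ ^ 2 * (K.toReal * (c⁻¹ * ((M : ℝ) + 1) ^ (-(3 / 4) : ℝ)))) := by
        have e2 : ENNReal.ofReal (2 : ℝ) = 2 := ENNReal.ofReal_ofNat 2
        rw [ENNReal.ofReal_mul (p := 2 * (xE.toReal)⁻¹ ^ 2) (by positivity), ENNReal.ofReal_mul (p := 2) (by norm_num),
          ENNReal.ofReal_pow (by positivity), e2]
    _ ≤ _ := by
        apply ENNReal.ofReal_le_ofReal
        push_cast
        calc 2 * (xE.toReal)⁻¹ ^ 2 * (K.toReal * (c⁻¹ * ((M : ℝ) + 1) ^ (-(3 / 4) : ℝ))) =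
            (2 * (xE.toReal)⁻¹ ^ 2 * (K.toReal * c⁻¹)) * ((M : ℝ) + 1) ^ (-(3 / 4) : ℝ) := by ring
          _ ≤ _ := mul_le_mul_of_nonneg_right (by linarith) hp

end Pool.Agent.BEX.F
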