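import Pool.Agent.BEX.F.UpA
import Pool.Agent.BEX.F.Strip
import Pool.Agent.BEX.Reg

/-!
BEX/F: the bound of `P_N` by `a` of the system `hsI`.

`pb_leI`: `P_(N+1) ≤ 2 x⁻² a(N) + 2 Lam (N - 1)` for the system `hsI` (limit `n → ∞` of `pb_le`).
-/

namespace Pool.Agent.BEX.F

open Pool.Agent.Hhelper14.SAW Pool.Agent.HHP Pool.Agent.HEP Pool.Agent.BEX.C
open scoped ENNReal

private lemma UpI_ms {T n : ℕ} :
    ∑' c : Blk, ind (htw c.1 - 1 = T ∧ n < c.1.length) * xE ^ (c.1.length + 1) ≤ ms xE (fun W => Br T W ∧ n ≤ W.length) := by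
  have h1 : ∀ c : Blk, ind (htw c.1 - 1 = T ∧ n < c.1.length) * xE ^ (c.1.length + 1) ≤
      (fun W : List Bool => Set.indicator {W : List Bool | Br T W ∧ n ≤ W.length} (fun W => xE ^ (W.length + 1)) W) c.1 := by
    intro c
    by_cases h : htw c.1 - 1 = T ∧ n < c.1.length
    · rw [ind_true h, one_mul]
      have h2 : c.1 ∈ {W : List Bool | Br T W ∧ n ≤ W.length} := ⟨h.1 ▸ Irr.br c.2, h.2.le⟩
      show _ ≤ Set.indicator _ _ c.1
      rw [Set.indicator_of_mem h2]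
    · rw [ind_false h, zero_mul]
      exact bot_le
  refine (ENNReal.tsum_le_tsum h1).trans ?_
  refine (ENNReal.tsum_comp_le_tsum_of_injective Subtype.val_injective
    (fun W : List Bool => Set.indicator {W : List Bool | Br T W ∧ n ≤ W.length} (fun W => xE ^ (W.length + 1)) W)).trans ?_
  rw [← tsum_subtype]
  exact le_rfl

private lemma UpI_blk (N n : ℕ) : ∑' c : Blk, ind (htw c.1 ≤ N ∧ n < c.1.length) * xE ^ (c.1.length + 1) ≤
    ENNReal.ofReal (100 * (N : ℝ) ^ 3 / ((n : ℝ) + 1)) := by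
  have h1 : ∀ c : Blk, ind (htw c.1 ≤ N ∧ n < c.1.length) * xE ^ (c.1.length + 1) ≤
      ∑ T ∈ Finset.range N, ind (htw c.1 - 1 = T ∧ n < c.1.length) * xE ^ (c.1.length + 1) := by
    intro c
    by_cases h : htw c.1 ≤ N ∧ n < c.1.length
    · have h2 : htw c.1 - 1 ∈ Finset.range N := by
        rw [Finset.mem_range]
        have := htw_pos c.1
        omega
      refine le_trans ?_ (Finset.single_le_sum (f := fun T => ind (htw c.1 - 1 = T ∧ n < c.1.length) * xE ^ (c.1.length + 1))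
        (fun _ _ => bot_le) h2)
      apply mul_le_mul_of_nonneg_right _ bot_le
      exact ind_mono fun _ => ⟨rfl, h.2⟩
    · rw [ind_false h, zero_mul]
      exact bot_le
  refine (ENNReal.tsum_le_tsum h1).trans ?_
  rw [Summable.tsum_finsetSum (fun _ _ => ENNReal.summable)]
  have h3 : ∀ T ∈ Finset.range N, ∑' c : Blk, ind (htw c.1 - 1 = T ∧ n < c.1.length) * xE ^ (c.1.length + 1) ≤
      ENNReal.ofReal (100 * (N : ℝ) ^ 2 / ((n : ℝ) + 1)) := by
    intro T hT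
    rw [Finset.mem_range] at hT
    refine UpI_ms.trans ((long_le T n).trans ?_)
    apply ENNReal.ofReal_le_ofReal
    have : (T : ℝ) + 1 ≤ N := by exact_mod_cast hT
    gcongr
  refine (Finset.sum_le_sum h3).trans ?_
  rw [Finset.sum_const, Finset.card_range, nsmul_eq_mul]
  have h4 : (N : ℝ≥0∞) = ENNReal.ofReal (N : ℝ) := by rw [ENNReal.ofReal_natCast]
  rw [h4, ← ENNReal.ofReal_mul (Nat.cast_nonneg N)]
  apply ENNReal.ofReal_le_ofReal
  apply le_of_eq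
  ring

private lemma UpI_a (n N : ℕ) : (hs n).a N ≤ hsI.a N := by
  refine ENNReal.tsum_le_tsum fun l => ENNReal.tsum_le_tsum fun s => ?_
  refine mul_le_mul' (ind_mono fun h => ⟨h.1.2, h.2⟩) ?_
  exact le_refl (wj l * wj s * ((hs 1).Lam (N - hj l) * (hs 1).Lam (N - hj s)))

theorem pb_leI (N : ℕ) (hN : 1 ≤ N) : PB (N + 1) ≤ 2 * (xE⁻¹) ^ 2 * hsI.a N + 2 * hsI.Lam (N - 1) := by
  refine ENNReal.le_of_forall_pos_le_add fun ε hε _ => ?_
  have hε' : (0 : ℝ) < ε := hε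
  have hU : hsI.U N ≤ ((N + 1 : ℕ) : ℝ≥0∞) := by
    have := hsI.toAlph.U_le N
    push_cast
    exact this
  obtain ⟨n, hn⟩ := exists_nat_gt (2 * (((N : ℝ) + 1) * (100 * (N : ℝ) ^ 3)) / ε)
  have h1 := pb_le N (n + 1) hN (by omega)
  have h2 : 2 * ((hs 1).U N * ∑' c : Blk, ind (htw c.1 ≤ N ∧ n + 1 < c.1.length) * xE ^ (c.1.length + 1)) ≤ ε := by
    calc 2 * ((hs 1).U N * ∑' c : Blk, ind (htw c.1 ≤ N ∧ n + 1 < c.1.length) * xE ^ (c.1.length + 1))
        ≤ 2 * (((N + 1 : ℕ) : ℝ≥0∞) * ENNReal.ofReal (100 * (N : ℝ) ^ 3 / (((n + 1 : ℕ) : ℝ) + 1))) := by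
          gcongr
          · exact hU
          · exact UpI_blk N (n + 1)
      _ = ENNReal.ofReal (2 * (((N : ℝ) + 1) * (100 * (N : ℝ) ^ 3 / (((n + 1 : ℕ) : ℝ) + 1)))) := by
          rw [ENNReal.ofReal_mul (by norm_num), ENNReal.ofReal_mul (by positivity)]
          congr 2
          · norm_num
          · rw [show ((N : ℝ) + 1) = ((N + 1 : ℕ) : ℝ) by push_cast; ring, ENNReal.ofReal_natCast]
      _ ≤ ENNReal.ofReal ε := by
          apply ENNReal.ofReal_le_ofReal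
          have h3 : 2 * (((N : ℝ) + 1) * (100 * (N : ℝ) ^ 3 / (((n + 1 : ℕ) : ℝ) + 1))) =
              2 * (((N : ℝ) + 1) * (100 * (N : ℝ) ^ 3)) / (((n + 1 : ℕ) : ℝ) + 1) := by ring
          rw [h3, div_le_iff₀ (by positivity)]
          rw [div_lt_iff₀ hε'] at hn
          push_cast
          nlinarith
      _ = ε := ENNReal.ofReal_coe_nnreal
  calc PB (N + 1) ≤ 2 * (xE⁻¹) ^ 2 * (hs (n + 1)).a N + 2 * (hs 1).Lam (N - 1) +
        2 * ((hs 1).U N * ∑' c : Blk, ind (htw c.1 ≤ N ∧ n + 1 < c.1.length) * xE ^ (c.1.length + 1)) := h1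
    _ ≤ 2 * (xE⁻¹) ^ 2 * hsI.a N + 2 * hsI.Lam (N - 1) + ε :=
        add_le_add (add_le_add (mul_le_mul' le_rfl (UpI_a _ _)) le_rfl) h2

end Pool.Agent.BEX.F
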